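import Pool.Agent.LibDP24.Defs2

/-!
MP_e734ed_nt, integral points on Mordell curves `y² = x³ + k` of small rank: definitions.
The curve is `Pool.Agent.LibDP24.E 0 k`; `Pt`, `IsInt`, `uu`, `Near`, `nh`, `IsCan` are those of `LibDP24`.
-/

set_option autoImplicit false

open WeierstrassCurve Height Pool.Agent.LibDP24

namespace Pool.Agent.LibDM24

/-- one third of the height of `x³ / k`, `0` at infinity -/
noncomputable def fh {k : ℤ} (R : Pt 0 k) : ℝ :=
  match R with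
  | .zero => 0
  | .some x _ _ => 1 / 3 * logHeight₁ (x ^ 3 / (k : ℚ))

/-- canonical height at ABSOLUTELY bounded distance from `fh` -/
structure IsCanM (C : ℝ) {k : ℤ} (hh : Pt 0 k → ℝ) : Prop where
  close : ∀ R, |hh R - fh R| ≤ C
  par : ∀ R S, hh (R + S) + hh (R - S) = 2 * hh R + 2 * hh S
  nonneg : ∀ R, 0 ≤ hh R

/-- bound for all integral points (our `ConductorBound`; proved in row MO, a hypothesis elsewhere) -/
def CB : Prop := ∀ ε : ℝ, 0 < ε → ∃ C : ℝ, 1 ≤ C ∧ ∀ x y : ℤ, y ^ 2 - x ^ 3 ≠ 0 →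
    Real.log (max |(x : ℝ)| |(y : ℝ)|) ≤ C * |((y ^ 2 - x ^ 3 : ℤ) : ℝ)| ^ (1 / 2 + ε)

end Pool.Agent.LibDM24
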