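import Pool.Agent.LibDM24.ML

/-!
ROW MM (MEDIUM/STRONG). Induction on the rank (cites MK `compareM`, ML `class_windowM`; compare LibDP24/G5.lean, DP24_G5.lean by helper74: same proof).

PLAN. Induction on `s`; `κ = |k| ≥ 1`, `q ≥ 1`. `s = 0`: `N ≥ 1`, `compareM` with `s = 0`, `P₀ = P 0`, `Y = x 0` (if `x 0 ^ 3 > C κ`, so `x 0 > 0`): every `X` is `≤ C x 0`, absurd.
Step `s → s+1`: suppose all `x i` violate both inequalities with a large `C`. Sort; `t = 2^(s+1) - 1`; the top `N - t ≥ 2^(s+1) - s - 1` points are not of rank `≤ s` by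
the induction hypothesis (`q^(6s) ≤ q^(6(s+1))`), so `f : Fin (s+1) → Fin N` with values `≥ t` and `P ∘ f` independent. `compareM (s+1)` with `Y = x 0`, `X = x t`:
`x t ≤ C' q^(2(s+1)) x i` for `i ≤ t`. `class_windowM (s+1)` with `X = x 0`, `W = C' q^(2(s+1))` for the `2^(s+1)` points `0, ..., t`: `W³ = C'^3 q^(6(s+1))`.
-/

set_option autoImplicit false

open WeierstrassCurve Pool.Agent.LibDP24

namespace Pool.Agent.LibDM24

private theorem MM_cons {α : Type*} {N n : ℕ} (P : Fin N → α) (i : Fin N) (g : Fin n → Fin N) :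
    (Fin.cons (P i) (P ∘ g) : Fin (n + 1) → α) = P ∘ (Fin.cons i g : Fin (n + 1) → Fin N) := by
  funext j
  refine Fin.cases ?_ (fun k => ?_) j
  · simp
  · simp

private theorem MM_pow (s : ℕ) : s + 2 ≤ 2 ^ (s + 1) := by
  induction s with
  | zero => norm_num
  | succ n ih => rw [pow_succ]; omega

/-- the strictly monotone case -/
private theorem MM_mono (C₀ : ℝ) (hC₀ : 0 ≤ C₀) (s : ℕ) : ∃ C : ℝ, 1 ≤ C ∧
    ∀ k : ℤ, k ≠ 0 → ∀ hh : Pt 0 k → ℝ, IsCanM C₀ hh → ∀ q : ℝ, 1 ≤ q →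
    ∀ (N : ℕ), 2 ^ (s + 1) ≤ N + s + 1 → ∀ (P : Fin N → Pt 0 k) (x : Fin N → ℤ),
      (∀ i, IsInt (P i) (x i)) → StrictMono x → (∀ i, hh (P i) ≤ q ^ 2) →
      (∀ f : Fin (s + 1) → Fin N, ¬ LinearIndependent ℤ (P ∘ f)) →
      ∃ i, (x i : ℝ) ^ 3 ≤ C * q ^ (6 * s) * |(k : ℝ)| ∨
        (x i : ℝ) ^ 6 ≤ C * q ^ (6 * s) * |(k : ℝ)| ^ 4 := by
  induction s with
  | zero =>
    obtain ⟨K, hK1, hK⟩ := compareM C₀ hC₀ 0
    refine ⟨K, hK1, ?_⟩
    intro k hk hh hcan q hq N hN P x hP hx hhq hdep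
    have hN1 : 0 < N := by
      simp at hN
      omega
    by_contra hcon
    push Not at hcon
    have hκ : (0 : ℝ) < |(k : ℝ)| := abs_pos.2 (by exact_mod_cast hk)
    set i0 : Fin N := ⟨0, hN1⟩ with hi0
    have h3 := (hcon i0).1
    have hpos : 0 < (x i0 : ℝ) := by
      by_contra hle
      push Not at hle
      have h4 : (x i0 : ℝ) ^ 3 ≤ 0 := by
        have : (x i0 : ℝ) ^ 3 = (x i0 : ℝ) * (x i0 : ℝ) ^ 2 := by ring
        rw [this]
        exact mul_nonpos_of_nonpos_of_nonneg hle (sq_nonneg _)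
      have h5 : 0 ≤ K * q ^ (6 * 0) * |(k : ℝ)| := by positivity
      linarith
    let g : Fin 0 → Fin N := fun j => j.elim0
    have h := hK k hk hh hcan q (x i0 : ℝ) hq hpos h3.le (P i0) (x i0) (P ∘ g) (x ∘ g) (hP i0)
      (fun j => j.elim0) (hhq i0) (fun j => j.elim0) le_rfl (fun j => j.elim0)
      (linearIndependent_empty_type)
      (by
        rw [MM_cons P i0 g]
        exact hdep _)
      (K * q ^ (2 * 0) * (x i0 : ℝ) + 1) (fun j => j.elim0)
    linarith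
  | succ s ih =>
    obtain ⟨K₁, hK₁1, hK₁⟩ := ih
    obtain ⟨K₂, hK₂1, hK₂⟩ := compareM C₀ hC₀ (s + 1)
    obtain ⟨K₃, hK₃1, hK₃⟩ := class_windowM C₀ hC₀ (s + 1)
    refine ⟨max K₁ (max K₂ (K₃ * K₂ ^ 3)), le_trans hK₁1 (le_max_left _ _), ?_⟩
    intro k hk hh hcan q hq N hN P x hP hx hhq hdep
    by_contra hcon
    push Not at hcon
    have hκ : (0 : ℝ) < |(k : ℝ)| := abs_pos.2 (by exact_mod_cast hk)
    have hle1 : K₁ ≤ max K₁ (max K₂ (K₃ * K₂ ^ 3)) := le_max_left _ _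
    have hle2 : K₂ ≤ max K₁ (max K₂ (K₃ * K₂ ^ 3)) := le_trans (le_max_left _ _) (le_max_right _ _)
    have hle3 : K₃ * K₂ ^ 3 ≤ max K₁ (max K₂ (K₃ * K₂ ^ 3)) :=
      le_trans (le_max_right _ _) (le_max_right _ _)
    generalize max K₁ (max K₂ (K₃ * K₂ ^ 3)) = K at hcon hle1 hle2 hle3
    have hK₂3 : 1 ≤ K₂ ^ 3 := one_le_pow₀ hK₂1
    have hle3' : K₃ ≤ K := le_trans (le_mul_of_one_le_right (by linarith) hK₂3) hle3
    have hqpos : 0 < q := by linarith
    have hqp : q ^ (6 * s) ≤ q ^ (6 * (s + 1)) := pow_le_pow_right₀ hq (by omega)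
    -- comparison of constants
    have hb : ∀ (L m p : ℝ), L ≤ K → 0 ≤ L → 0 ≤ m → m ≤ q ^ (6 * (s + 1)) → 0 ≤ p →
        L * m * p ≤ K * q ^ (6 * (s + 1)) * p := by
      intro L m p h1 h2 h3 h4 h5
      exact mul_le_mul_of_nonneg_right (mul_le_mul h1 h4 h3 (by linarith)) h5
    have hxpos : ∀ i, 0 < (x i : ℝ) := by
      intro i
      by_contra hle
      push Not at hle
      have h4 : (x i : ℝ) ^ 3 ≤ 0 := by
        have : (x i : ℝ) ^ 3 = (x i : ℝ) * (x i : ℝ) ^ 2 := by ring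
        rw [this]
        exact mul_nonpos_of_nonpos_of_nonneg hle (sq_nonneg _)
      have h5 : 0 ≤ K * q ^ (6 * (s + 1)) * |(k : ℝ)| := by
        have : 0 ≤ K := by linarith
        positivity
      linarith [(hcon i).1]
    have hpw := MM_pow s
    have hpp : 2 ^ (s + 1 + 1) = 2 * 2 ^ (s + 1) := by rw [pow_succ (2 : ℕ) (s + 1)]; ring
    rw [hpp] at hN
    have hNge : 2 ^ (s + 1) ≤ N := by omega
    -- the number of elements of the top family
    obtain ⟨M, hM⟩ : ∃ M, N + 1 = 2 ^ (s + 1) + M := ⟨N + 1 - 2 ^ (s + 1), by omega⟩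
    have hM1 : 2 ^ (s + 1) ≤ M + s + 1 := by omega
    let emb : Fin M → Fin N := fun j => ⟨2 ^ (s + 1) - 1 + j.1, by have := j.2; omega⟩
    have hembv : ∀ j : Fin M, (emb j).1 = 2 ^ (s + 1) - 1 + j.1 := fun j => rfl
    have hembm : StrictMono emb := by
      intro a b hab
      rw [Fin.lt_def] at hab ⊢
      rw [hembv, hembv]
      omega
    obtain ⟨f, hf⟩ : ∃ f : Fin (s + 1) → Fin M, LinearIndependent ℤ ((P ∘ emb) ∘ f) := by
      by_contra hno
      push Not at hno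
      obtain ⟨i, hi⟩ := hK₁ k hk hh hcan q hq M hM1 (P ∘ emb) (x ∘ emb) (fun i => hP (emb i))
        (hx.comp hembm) (fun i => hhq (emb i)) hno
      have h1 := hcon (emb i)
      have h3 : ((x ∘ emb) i : ℝ) = (x (emb i) : ℝ) := rfl
      rw [h3] at hi
      rcases hi with hi | hi
      · have := hb K₁ (q ^ (6 * s)) (|(k : ℝ)|) hle1 (by linarith) (by positivity) hqp hκ.le
        linarith [h1.1]
      · have := hb K₁ (q ^ (6 * s)) (|(k : ℝ)| ^ 4) hle1 (by linarith) (by positivity) hqp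
          (by positivity)
        linarith [h1.2]
    set T : Fin N := ⟨2 ^ (s + 1) - 1, by omega⟩ with hT
    have hpos : 0 < N := by omega
    set Z : Fin N := ⟨0, hpos⟩ with hZ
    have hZle : ∀ i : Fin N, (x Z : ℝ) ≤ (x i : ℝ) := by
      intro i
      have : Z ≤ i := by
        rw [Fin.le_def, hZ]
        exact Nat.zero_le _
      exact_mod_cast hx.monotone this
    have hcmp : ∀ i : Fin N, (x T : ℝ) ≤ K₂ * q ^ (2 * (s + 1)) * (x i : ℝ) := by
      intro i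
      refine hK₂ k hk hh hcan q (x Z : ℝ) hq (hxpos Z) ?_ (P i) (x i) (P ∘ (emb ∘ f))
        (x ∘ (emb ∘ f)) (hP i) (fun j => hP _) (hhq i) (fun j => hhq _) (hZle i)
        (fun j => hZle _) hf ?_ (x T : ℝ) ?_
      · have := hb K₂ (q ^ (6 * (s + 1))) (|(k : ℝ)|) hle2 (by linarith) (by positivity) le_rfl hκ.le
        linarith [(hcon Z).1]
      · rw [MM_cons P i (emb ∘ f)]
        exact hdep _
      · intro j
        have : T ≤ emb (f j) := by
          rw [Fin.le_def, hembv, hT]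
          simp
        exact_mod_cast hx.monotone this
    let io : Fin (2 ^ (s + 1)) → Fin N := fun j => ⟨j.1, lt_of_lt_of_le j.2 hNge⟩
    have hio : StrictMono io := by
      intro a b hab
      rw [Fin.lt_def] at hab ⊢
      exact hab
    have hW : 1 ≤ K₂ * q ^ (2 * (s + 1)) := one_le_mul_of_one_le_of_one_le hK₂1 (one_le_pow₀ hq)
    have hfin := hK₃ k hk hh hcan q (x Z : ℝ) (K₂ * q ^ (2 * (s + 1))) hq (hxpos Z) hW (P ∘ io)
      (x ∘ io) (fun i => hP _) (hx.comp hio).injective (fun i => hhq _)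
      (fun g => hdep (io ∘ g))
      (fun i => hZle (io i))
      (by
        intro i
        have h1 : io i ≤ T := by
          rw [Fin.le_def, hT]
          have := i.2
          change i.1 ≤ 2 ^ (s + 1) - 1
          omega
        have h2 : (x (io i) : ℝ) ≤ (x T : ℝ) := by exact_mod_cast hx.monotone h1
        exact h2.trans (hcmp Z))
    rcases hfin with hfin | hfin
    · have := hb K₃ (q ^ (6 * (s + 1))) (|(k : ℝ)|) hle3' (by linarith) (by positivity) le_rfl hκ.le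
      linarith [(hcon Z).1]
    · have e : K₃ * (K₂ * q ^ (2 * (s + 1))) ^ 3 * |(k : ℝ)| ^ 4 =
          (K₃ * K₂ ^ 3) * q ^ (6 * (s + 1)) * |(k : ℝ)| ^ 4 := by
        rw [mul_pow, ← pow_mul]
        have : 2 * (s + 1) * 3 = 6 * (s + 1) := by ring
        rw [this]
        ring
      rw [e] at hfin
      have := hb (K₃ * K₂ ^ 3) (q ^ (6 * (s + 1))) (|(k : ℝ)| ^ 4) hle3 (by positivity)
        (by positivity) le_rfl (by positivity)
      linarith [(hcon Z).2]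

theorem count_largeM (C₀ : ℝ) (hC₀ : 0 ≤ C₀) (s : ℕ) : ∃ C : ℝ, 1 ≤ C ∧
    ∀ k : ℤ, k ≠ 0 → ∀ hh : Pt 0 k → ℝ, IsCanM C₀ hh → ∀ q : ℝ, 1 ≤ q →
    ∀ (N : ℕ), 2 ^ (s + 1) ≤ N + s + 1 → ∀ (P : Fin N → Pt 0 k) (x : Fin N → ℤ),
      (∀ i, IsInt (P i) (x i)) → Function.Injective x → (∀ i, hh (P i) ≤ q ^ 2) →
      (∀ f : Fin (s + 1) → Fin N, ¬ LinearIndependent ℤ (P ∘ f)) →
      ∃ i, (x i : ℝ) ^ 3 ≤ C * q ^ (6 * s) * |(k : ℝ)| ∨
        (x i : ℝ) ^ 6 ≤ C * q ^ (6 * s) * |(k : ℝ)| ^ 4 := by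
  obtain ⟨K, hK1, hK⟩ := MM_mono C₀ hC₀ s
  refine ⟨K, hK1, ?_⟩
  intro k hk hh hcan q hq N hN P x hP hx hhq hdep
  have hs : StrictMono (x ∘ Tuple.sort x) :=
    (Tuple.monotone_sort x).strictMono_of_injective (hx.comp (Tuple.sort x).injective)
  obtain ⟨i, hi⟩ := hK k hk hh hcan q hq N hN (P ∘ Tuple.sort x) (x ∘ Tuple.sort x)
    (fun i => hP _) hs (fun i => hhq _) (fun f => hdep ((Tuple.sort x) ∘ f))
  exact ⟨Tuple.sort x i, hi⟩

end Pool.Agent.LibDM24
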