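import Pool.Agent.LibDM24.MC
import Pool.Agent.LibDM24.MM

/-!
ROW MQ (MEDIUM). Exponent `2/3` for every rank, with twice as many exceptions (cites MC, MD `canM_le`, MH `x_geM`, MM `count_largeM` as stated; compare
rows MN by helper54, MN2 and DP24_G6.lean by helper29).

PLAN. `κ = |k| ≥ 1`, `δ = ε/(r+2)`, `C₀` from `exists_canM`, `C₂` from `hCB 1`, `C₃` from `count_largeM C₀ _ r`. Let `V` be the set; if it is infinite or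
`2^(r+2) < ncard + 2 r + 4`, take a finite subset with `2 (2^(r+1) - r - 2) + 1` elements; its part with `log x ≤ κ^δ` or its part with `log x > κ^δ` has at
least `N = 2^(r+1) - r - 1` elements (`x > 0`, `x³ ≥ κ` for `x ∈ V` as in MN: `x_geM`).
First part: `hh (P i) ≤ log x_i + C₀ ≤ q²` with `q² = (1 + C₀) κ^δ` (`q ≥ 1`): some `x_i³ ≤ C₃ q^(6r) κ = C₄ κ^(1+3rδ)` or `x_i⁶ ≤ C₄ κ^(4+3rδ)`; both give
`x_i ≤ C₅ κ^(2/3 + rδ) ≤ C₅ κ^(2/3+ε)`, contradiction for `C > C₅`.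
Second part: `hh (P i) ≤ C₂ κ^(3/2) + C₀ ≤ q²`, `q² = (C₂ + C₀) κ²`: `x_i³ ≤ C₃ q^(6r) κ` or `x_i⁶ ≤ C₃ q^(6r) κ⁴`, so `x_i ≤ C₆ κ^(2r+4)`, `κ^δ < log x_i ≤ log C₆ + (2r+4) log κ`, so
`κ ≤ κ₀` (a constant depending on `r, ε`; `Real.log_le_rpow_div`) and `x_i ≤ C₆ κ₀^(2r+4) =: C₇ < C`, contradiction (`κ^(2/3+ε) ≥ 1`).
-/

set_option autoImplicit false

open WeierstrassCurve Pool.Agent.LibDP24

namespace Pool.Agent.LibDM24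

private theorem MQ_indep {k : ℤ} {r : ℕ} (Γ : AddSubgroup (Pt 0 k)) (hr : Module.rank ℤ Γ ≤ r)
    {N : ℕ} (P : Fin N → Pt 0 k) (hP : ∀ i, P i ∈ Γ) (f : Fin (r + 1) → Fin N) :
    ¬ LinearIndependent ℤ (P ∘ f) := by
  intro hli
  have h1 : LinearIndependent ℤ (fun i : Fin (r + 1) => (⟨P (f i), hP (f i)⟩ : Γ)) := by
    apply LinearIndependent.of_comp (Γ.subtype.toIntLinearMap)
    exact hli
  have h2 := h1.cardinal_le_rank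
  have h3 : ((r + 1 : ℕ) : Cardinal) ≤ ((r : ℕ) : Cardinal) := by
    refine le_trans ?_ (h2.trans hr)
    simp
  have h4 : r + 1 ≤ r := by exact_mod_cast h3
  omega

private theorem MQ_eqn {k x y : ℤ} (h : (E 0 k).toAffine.Nonsingular (x : ℚ) (y : ℚ)) :
    y ^ 2 - x ^ 3 = k := by
  have h1 := (Affine.equation_iff _ _).1 h.1
  simp at h1
  have h2 : y ^ 2 = x ^ 3 + k := by exact_mod_cast h1
  linarith

/-- a large `x` is positive and `κ ≤ x³` -/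
private theorem MQ_big {k x : ℤ} {R : Pt 0 k} (hk : k ≠ 0) (hR : IsInt R x) {C e : ℝ} (hC : 1 ≤ C)
    (he : 1 / 3 ≤ e) (hx : C * |(k : ℝ)| ^ e < |(x : ℝ)|) :
    0 < x ∧ |(k : ℝ)| ≤ (x : ℝ) ^ 3 := by
  have hk1 : (1 : ℝ) ≤ |(k : ℝ)| := by
    have h1 : (1 : ℤ) ≤ |k| := Int.one_le_abs hk
    exact_mod_cast h1
  have hk0 : (0 : ℝ) < |(k : ℝ)| := by linarith
  have hp : (0 : ℝ) < |(k : ℝ)| ^ e := Real.rpow_pos_of_pos hk0 _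
  have h1 : |(k : ℝ)| ≤ (|(k : ℝ)| ^ e) ^ 3 := by
    rw [← Real.rpow_natCast, ← Real.rpow_mul hk0.le]
    calc |(k : ℝ)| = |(k : ℝ)| ^ (1 : ℝ) := (Real.rpow_one _).symm
      _ ≤ |(k : ℝ)| ^ (e * ((3 : ℕ) : ℝ)) := by
          apply Real.rpow_le_rpow_of_exponent_le hk1
          push_cast
          linarith
  have h2 : |(k : ℝ)| ^ e < |(x : ℝ)| := by
    refine lt_of_le_of_lt ?_ hx
    nlinarith
  have h3 : |(k : ℝ)| < |(x : ℝ)| ^ 3 :=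
    lt_of_le_of_lt h1 (pow_lt_pow_left₀ h2 hp.le (by norm_num))
  have h4 := x_geM hR
  have h5 : (0 : ℝ) < x := by
    by_contra hcon
    have hcon' : (x : ℝ) ≤ 0 := not_lt.1 hcon
    rw [abs_of_nonpos hcon'] at h3
    have h6 : (-(x : ℝ)) ^ 3 = -(x : ℝ) ^ 3 := by ring
    rw [h6] at h3
    linarith
  rw [abs_of_pos h5] at h3
  exact ⟨by exact_mod_cast h5, h3.le⟩

/-- the numerical part -/
private theorem MQ_num (r : ℕ) {κ D C₃ X g e : ℝ} (hκ : 1 ≤ κ) (hD : 1 ≤ D) (hC₃ : 1 ≤ C₃)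
    (h1 : g * r + 1 / 3 ≤ e) (h2 : g * r / 2 + 2 / 3 ≤ e)
    (hX : X ^ 3 ≤ C₃ * (D * κ ^ g) ^ (3 * r) * κ ∨ X ^ 6 ≤ C₃ * (D * κ ^ g) ^ (3 * r) * κ ^ 4) :
    X ≤ C₃ * D ^ (3 * r) * κ ^ e := by
  have hκ0 : 0 < κ := by linarith
  have hD1 : 1 ≤ D ^ (3 * r) := one_le_pow₀ hD
  obtain ⟨C₄, hC₄⟩ : ∃ C₄, C₄ = C₃ * D ^ (3 * r) := ⟨_, rfl⟩
  have hC₄1 : 1 ≤ C₄ := by
    rw [hC₄]
    calc (1 : ℝ) = 1 * 1 := by ring
      _ ≤ C₃ * D ^ (3 * r) := mul_le_mul hC₃ hD1 zero_le_one (by linarith)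
  have hC₄0 : 0 < C₄ := by linarith
  rw [← hC₄]
  have hpow : (D * κ ^ g) ^ (3 * r) = D ^ (3 * r) * κ ^ (g * (3 * r)) := by
    rw [mul_pow, ← Real.rpow_natCast (κ ^ g) (3 * r), ← Real.rpow_mul hκ0.le]
    push_cast
    ring_nf
  have hB0 : 0 ≤ C₄ * κ ^ e := mul_nonneg hC₄0.le (Real.rpow_nonneg hκ0.le _)
  rcases hX with hX | hX
  · have h3 : X ^ 3 ≤ (C₄ * κ ^ e) ^ 3 := by
      refine hX.trans ?_
      rw [hpow, mul_pow, ← Real.rpow_natCast (κ ^ e) 3, ← Real.rpow_mul hκ0.le]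
      have h4 : C₃ * (D ^ (3 * r) * κ ^ (g * (3 * r))) * κ = C₄ * κ ^ (g * (3 * r) + 1) := by
        rw [Real.rpow_add hκ0, Real.rpow_one, hC₄]
        ring
      rw [h4]
      have h5 : C₄ ≤ C₄ ^ 3 := le_self_pow₀ hC₄1 (by norm_num)
      have h6 : κ ^ (g * (3 * r) + 1) ≤ κ ^ (e * ((3 : ℕ) : ℝ)) := by
        apply Real.rpow_le_rpow_of_exponent_le hκ
        push_cast
        linarith
      exact mul_le_mul h5 h6 (Real.rpow_nonneg hκ0.le _) (by positivity)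
    exact le_of_pow_le_pow_left₀ (by norm_num) hB0 h3
  · have h3 : X ^ 6 ≤ (C₄ * κ ^ e) ^ 6 := by
      refine hX.trans ?_
      rw [hpow, mul_pow, ← Real.rpow_natCast (κ ^ e) 6, ← Real.rpow_mul hκ0.le]
      have h4 : C₃ * (D ^ (3 * r) * κ ^ (g * (3 * r))) * κ ^ 4 = C₄ * κ ^ (g * (3 * r) + 4) := by
        have h7 : κ ^ (4 : ℝ) = κ ^ 4 := by
          rw [← Real.rpow_natCast κ 4]
          norm_num
        rw [Real.rpow_add hκ0, h7, hC₄]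
        ring
      rw [h4]
      have h5 : C₄ ≤ C₄ ^ 6 := le_self_pow₀ hC₄1 (by norm_num)
      have h6 : κ ^ (g * (3 * r) + 4) ≤ κ ^ (e * ((6 : ℕ) : ℝ)) := by
        apply Real.rpow_le_rpow_of_exponent_le hκ
        push_cast
        linarith
      exact mul_le_mul h5 h6 (Real.rpow_nonneg hκ0.le _) (by positivity)
    exact le_of_pow_le_pow_left₀ (by norm_num) hB0 h3

/-- one layer: heights at most `D κ ^ g` -/
private theorem MQ_layer {C₀ C₃ : ℝ} (r : ℕ)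
    (hcount : ∀ k : ℤ, k ≠ 0 → ∀ hh : Pt 0 k → ℝ, IsCanM C₀ hh → ∀ q : ℝ, 1 ≤ q →
      ∀ (N : ℕ), 2 ^ (r + 1) ≤ N + r + 1 → ∀ (P : Fin N → Pt 0 k) (x : Fin N → ℤ),
      (∀ i, IsInt (P i) (x i)) → Function.Injective x → (∀ i, hh (P i) ≤ q ^ 2) →
      (∀ f : Fin (r + 1) → Fin N, ¬ LinearIndependent ℤ (P ∘ f)) →
      ∃ i, (x i : ℝ) ^ 3 ≤ C₃ * q ^ (6 * r) * |(k : ℝ)| ∨
        (x i : ℝ) ^ 6 ≤ C₃ * q ^ (6 * r) * |(k : ℝ)| ^ 4)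
    (hC₃ : 1 ≤ C₃) {D g e : ℝ} (hD : 1 ≤ D) (hg : 0 ≤ g)
    (h1 : g * r + 1 / 3 ≤ e) (h2 : g * r / 2 + 2 / 3 ≤ e)
    {k : ℤ} (hk : k ≠ 0) {hh : Pt 0 k → ℝ} (hcc : IsCanM C₀ hh)
    (Γ : AddSubgroup (Pt 0 k)) (hr : Module.rank ℤ Γ ≤ r)
    (W : Finset ℤ) (hW : ∀ x ∈ W, ∃ (y : ℤ) (h : (E 0 k).toAffine.Nonsingular (x : ℚ) (y : ℚ)),
        (Affine.Point.some (x : ℚ) (y : ℚ) h : Pt 0 k) ∈ Γ ∧
        hh (Affine.Point.some (x : ℚ) (y : ℚ) h : Pt 0 k) ≤ D * |(k : ℝ)| ^ g)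
    (hcard : 2 ^ (r + 1) ≤ W.card + r + 1) :
    ∃ x ∈ W, (x : ℝ) ≤ C₃ * D ^ (3 * r) * |(k : ℝ)| ^ e := by
  have hκ : (1 : ℝ) ≤ |(k : ℝ)| := by
    have h1 : (1 : ℤ) ≤ |k| := Int.one_le_abs hk
    exact_mod_cast h1
  have hκ0 : (0 : ℝ) < |(k : ℝ)| := by linarith
  have hk1 : 1 ≤ |(k : ℝ)| ^ g := Real.one_le_rpow hκ hg
  have hDk : 1 ≤ D * |(k : ℝ)| ^ g := by
    calc (1 : ℝ) = 1 * 1 := by ring
      _ ≤ D * |(k : ℝ)| ^ g := mul_le_mul hD hk1 zero_le_one (by linarith)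
  obtain ⟨q, hq⟩ : ∃ q, q = Real.sqrt (D * |(k : ℝ)| ^ g) := ⟨_, rfl⟩
  have hq2 : q ^ 2 = D * |(k : ℝ)| ^ g := by
    rw [hq]
    exact Real.sq_sqrt (by linarith)
  have hq1 : 1 ≤ q := by
    rw [hq, Real.one_le_sqrt]
    exact hDk
  have hq6 : q ^ (6 * r) = (D * |(k : ℝ)| ^ g) ^ (3 * r) := by
    rw [← hq2, ← pow_mul]
    congr 1
    ring
  choose! y h hyh hlt using hW
  let e' : Fin W.card ≃ W := W.equivFin.symm
  let P : Fin W.card → Pt 0 k := fun i =>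
    Affine.Point.some ((e' i : ℤ) : ℚ) ((y (e' i) : ℤ) : ℚ) (h (e' i) (e' i).2)
  have hInt : ∀ i, IsInt (P i) (e' i : ℤ) := fun i => ⟨y (e' i), h (e' i) (e' i).2, rfl⟩
  have hhb : ∀ i, hh (P i) ≤ q ^ 2 := by
    intro i
    rw [hq2]
    exact hlt (e' i) (e' i).2
  obtain ⟨i, hi⟩ := hcount k hk hh hcc q hq1 W.card hcard P (fun i => (e' i : ℤ)) hInt
    (fun i j hij => e'.injective (Subtype.ext hij)) hhb
    (MQ_indep Γ hr P (fun i => hyh (e' i) (e' i).2))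
  rw [hq6] at hi
  exact ⟨(e' i : ℤ), (e' i).2, MQ_num r hκ hD hC₃ h1 h2 hi⟩

/-- a power is eventually larger than a logarithm -/
private theorem MQ_log {κ δ B s : ℝ} (hκ : 1 ≤ κ) (hδ : 0 < δ) (hB : 0 ≤ B) (hs : 0 ≤ s)
    (h : κ ^ δ < B + s * Real.log κ) : κ ≤ (B + s * (2 / δ)) ^ (2 / δ) := by
  have hκ0 : 0 < κ := by linarith
  have hδ2 : 0 < δ / 2 := by linarith
  have h1 := Real.log_le_rpow_div hκ0.le hδ2
  obtain ⟨t, ht⟩ : ∃ t, t = κ ^ (δ / 2) := ⟨_, rfl⟩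
  have ht1 : 1 ≤ t := by
    rw [ht]
    exact Real.one_le_rpow hκ hδ2.le
  have ht2 : κ ^ δ = t * t := by
    rw [ht, ← Real.rpow_add hκ0]
    congr 1
    ring
  have h2 : Real.log κ ≤ (2 / δ) * t := by
    refine h1.trans (le_of_eq ?_)
    rw [← ht]
    field_simp
  have h3 : t * t < (B + s * (2 / δ)) * t := by
    rw [← ht2]
    refine h.trans_le ?_
    have h4 : s * Real.log κ ≤ s * ((2 / δ) * t) := mul_le_mul_of_nonneg_left h2 hs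
    have h5 : B ≤ B * t := by
      calc B = B * 1 := by ring
        _ ≤ B * t := mul_le_mul_of_nonneg_left ht1 hB
    calc B + s * Real.log κ ≤ B * t + s * ((2 / δ) * t) := add_le_add h5 h4
      _ = (B + s * (2 / δ)) * t := by ring
  have h6 : t < B + s * (2 / δ) := lt_of_mul_lt_mul_right h3 (by linarith)
  have h7 : κ = t ^ (2 / δ) := by
    rw [ht, ← Real.rpow_mul hκ0.le]
    have : δ / 2 * (2 / δ) = 1 := by field_simp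
    rw [this, Real.rpow_one]
  calc κ = t ^ (2 / δ) := h7
    _ ≤ (B + s * (2 / δ)) ^ (2 / δ) := Real.rpow_le_rpow (by linarith) h6.le (by positivity)

theorem finalMQ (hCB : CB) (r : ℕ) (ε : ℝ) (hε : 0 < ε) : ∃ C : ℝ, 0 < C ∧ ∀ k : ℤ, k ≠ 0 →
    ∀ Γ : AddSubgroup (Pt 0 k), Module.rank ℤ Γ ≤ r →
      {x : ℤ | ∃ (y : ℤ) (h : (E 0 k).toAffine.Nonsingular (x : ℚ) (y : ℚ)),
        (Affine.Point.some (x : ℚ) (y : ℚ) h : Pt 0 k) ∈ Γ ∧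
        C * |(k : ℝ)| ^ ((2 : ℝ) / 3 + ε) < |(x : ℝ)|}.Finite ∧
      {x : ℤ | ∃ (y : ℤ) (h : (E 0 k).toAffine.Nonsingular (x : ℚ) (y : ℚ)),
        (Affine.Point.some (x : ℚ) (y : ℚ) h : Pt 0 k) ∈ Γ ∧
        C * |(k : ℝ)| ^ ((2 : ℝ) / 3 + ε) < |(x : ℝ)|}.ncard + 2 * r + 4 ≤ 2 ^ (r + 2) := by
  obtain ⟨C₀, hC₀, hcan⟩ := exists_canM
  obtain ⟨C₂, hC₂, hcb⟩ := hCB 1 one_pos
  obtain ⟨C₃, hC₃, hcount⟩ := count_largeM C₀ (by linarith) r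
  have hr0 : (0 : ℝ) ≤ r := Nat.cast_nonneg r
  obtain ⟨δ, hδ⟩ : ∃ δ : ℝ, δ = ε / (r + 2) := ⟨_, rfl⟩
  have hδ0 : 0 < δ := by
    rw [hδ]
    positivity
  have hrδ : δ * r ≤ ε := by
    rw [hδ, div_mul_eq_mul_div, div_le_iff₀ (by positivity)]
    nlinarith
  have hrδ0 : 0 ≤ δ * r := by positivity
  obtain ⟨D₁, hD₁⟩ : ∃ D, D = 1 + C₀ := ⟨_, rfl⟩
  obtain ⟨D₂, hD₂⟩ : ∃ D, D = C₂ + C₀ := ⟨_, rfl⟩
  have hD₁1 : 1 ≤ D₁ := by linarith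
  have hD₂1 : 1 ≤ D₂ := by linarith
  have one_mul_le : ∀ D : ℝ, 1 ≤ D → 1 ≤ C₃ * D ^ (3 * r) := by
    intro D hD
    calc (1 : ℝ) = 1 * 1 := by ring
      _ ≤ C₃ * D ^ (3 * r) := mul_le_mul hC₃ (one_le_pow₀ hD) zero_le_one (by linarith)
  obtain ⟨CA, hCA⟩ : ∃ C, C = C₃ * D₁ ^ (3 * r) := ⟨_, rfl⟩
  obtain ⟨C₆, hC₆⟩ : ∃ C, C = C₃ * D₂ ^ (3 * r) := ⟨_, rfl⟩
  have hCA1 : 1 ≤ CA := hCA ▸ one_mul_le D₁ hD₁1
  have hC₆1 : 1 ≤ C₆ := hC₆ ▸ one_mul_le D₂ hD₂1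
  obtain ⟨s, hs⟩ : ∃ s : ℝ, s = 2 * (r : ℝ) + 4 := ⟨_, rfl⟩
  have hs0 : 0 ≤ s := by rw [hs]; positivity
  obtain ⟨κ₀, hκ₀⟩ : ∃ κ₀, κ₀ = (Real.log C₆ + s * (2 / δ)) ^ (2 / δ) := ⟨_, rfl⟩
  have hlogC₆ : 0 ≤ Real.log C₆ := Real.log_nonneg hC₆1
  have hκ₀0 : 0 ≤ κ₀ := by
    rw [hκ₀]
    positivity
  obtain ⟨C₇, hC₇⟩ : ∃ C, C = C₆ * κ₀ ^ s := ⟨_, rfl⟩
  have hC₇0 : 0 ≤ C₇ := by
    rw [hC₇]
    have := Real.rpow_nonneg hκ₀0 s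
    exact mul_nonneg (by linarith) this
  refine ⟨CA + C₇, by linarith, ?_⟩
  intro k hk Γ hr
  have hκ : (1 : ℝ) ≤ |(k : ℝ)| := by
    have h1 : (1 : ℤ) ≤ |k| := Int.one_le_abs hk
    exact_mod_cast h1
  have hκ0 : (0 : ℝ) < |(k : ℝ)| := by linarith
  obtain ⟨hh, hcc⟩ := hcan k hk
  obtain ⟨V, hV⟩ : ∃ V : Set ℤ, V = {x : ℤ | ∃ (y : ℤ) (h : (E 0 k).toAffine.Nonsingular (x : ℚ) (y : ℚ)),
        (Affine.Point.some (x : ℚ) (y : ℚ) h : Pt 0 k) ∈ Γ ∧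
        (CA + C₇) * |(k : ℝ)| ^ ((2 : ℝ) / 3 + ε) < |(x : ℝ)|} := ⟨_, rfl⟩
  rw [← hV]
  have hke1 : 1 ≤ |(k : ℝ)| ^ ((2 : ℝ) / 3 + ε) := Real.one_le_rpow hκ (by linarith)
  have hVm : ∀ x ∈ V, ∃ (y : ℤ) (h : (E 0 k).toAffine.Nonsingular (x : ℚ) (y : ℚ)),
      (Affine.Point.some (x : ℚ) (y : ℚ) h : Pt 0 k) ∈ Γ ∧
      (CA + C₇) * |(k : ℝ)| ^ ((2 : ℝ) / 3 + ε) < |(x : ℝ)| := by
    intro x hx
    rw [hV] at hx
    exact hx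
  have hbig : ∀ x ∈ V, 0 < x ∧ |(k : ℝ)| ≤ (x : ℝ) ^ 3 ∧
      (CA + C₇) * |(k : ℝ)| ^ ((2 : ℝ) / 3 + ε) < (x : ℝ) := by
    intro x hx
    obtain ⟨y, h, -, hlt⟩ := hVm x hx
    obtain ⟨h1, h2⟩ := MQ_big hk (R := (Affine.Point.some (x : ℚ) (y : ℚ) h : Pt 0 k)) ⟨y, h, rfl⟩
      (by linarith) (by linarith) hlt
    refine ⟨h1, h2, ?_⟩
    have h3 : (0 : ℝ) < x := by exact_mod_cast h1
    rwa [abs_of_pos h3] at hlt
  -- first layer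
  have keyA : ∀ W : Finset ℤ, (W : Set ℤ) ⊆ V → (∀ x ∈ W, Real.log (x : ℝ) ≤ |(k : ℝ)| ^ δ) →
      ¬ (2 ^ (r + 1) ≤ W.card + r + 1) := by
    intro W hWV hlog hcard
    obtain ⟨x, hxW, hx⟩ := MQ_layer r hcount hC₃ (D := D₁) (g := δ) (e := (2 : ℝ) / 3 + ε) hD₁1 hδ0.le
      (by linarith) (by linarith) hk hcc Γ hr W (by
        intro x hx
        obtain ⟨y, h, hy, -⟩ := hVm x (hWV hx)
        obtain ⟨h1, h2, -⟩ := hbig x (hWV hx)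
        refine ⟨y, h, hy, ?_⟩
        have h3 := canM_le hk hcc (R := (Affine.Point.some (x : ℚ) (y : ℚ) h : Pt 0 k)) ⟨y, h, rfl⟩ h1 h2
        have h4 := hlog x hx
        have h5 : 1 ≤ |(k : ℝ)| ^ δ := Real.one_le_rpow hκ hδ0.le
        have h6 : C₀ ≤ C₀ * |(k : ℝ)| ^ δ := by
          calc C₀ = C₀ * 1 := by ring
            _ ≤ C₀ * |(k : ℝ)| ^ δ := mul_le_mul_of_nonneg_left h5 (by linarith)
        calc _ ≤ Real.log (x : ℝ) + C₀ := h3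
          _ ≤ |(k : ℝ)| ^ δ + C₀ * |(k : ℝ)| ^ δ := add_le_add h4 h6
          _ = D₁ * |(k : ℝ)| ^ δ := by rw [hD₁]; ring) hcard
    have h7 := (hbig x (hWV hxW)).2.2
    rw [← hCA] at hx
    have h8 : CA * |(k : ℝ)| ^ ((2 : ℝ) / 3 + ε) ≤ (CA + C₇) * |(k : ℝ)| ^ ((2 : ℝ) / 3 + ε) :=
      mul_le_mul_of_nonneg_right (by linarith) (by linarith)
    linarith
  -- second layer
  have keyB : ∀ W : Finset ℤ, (W : Set ℤ) ⊆ V → (∀ x ∈ W, |(k : ℝ)| ^ δ < Real.log (x : ℝ)) →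
      ¬ (2 ^ (r + 1) ≤ W.card + r + 1) := by
    intro W hWV hlog hcard
    obtain ⟨x, hxW, hx⟩ := MQ_layer r hcount hC₃ (D := D₂) (g := 2) (e := s) hD₂1 (by norm_num)
      (by rw [hs]; linarith) (by rw [hs]; linarith) hk hcc Γ hr W (by
        intro x hx
        obtain ⟨y, h, hy, -⟩ := hVm x (hWV hx)
        obtain ⟨h1, h2, -⟩ := hbig x (hWV hx)
        refine ⟨y, h, hy, ?_⟩
        have h3 := canM_le hk hcc (R := (Affine.Point.some (x : ℚ) (y : ℚ) h : Pt 0 k)) ⟨y, h, rfl⟩ h1 h2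
        have hx0 : (0 : ℝ) < x := by exact_mod_cast h1
        have h4 := MQ_eqn h
        have h5 := hcb x y (by rw [h4]; exact hk)
        rw [h4] at h5
        have h6 : Real.log (x : ℝ) ≤ Real.log (max |(x : ℝ)| |(y : ℝ)|) :=
          Real.log_le_log hx0 ((le_abs_self _).trans (le_max_left _ _))
        have h7 : |(k : ℝ)| ^ ((1 : ℝ) / 2 + 1) ≤ |(k : ℝ)| ^ (2 : ℝ) :=
          Real.rpow_le_rpow_of_exponent_le hκ (by norm_num)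
        have h8 : 1 ≤ |(k : ℝ)| ^ (2 : ℝ) := Real.one_le_rpow hκ (by norm_num)
        have h9 : C₀ ≤ C₀ * |(k : ℝ)| ^ (2 : ℝ) := by
          calc C₀ = C₀ * 1 := by ring
            _ ≤ C₀ * |(k : ℝ)| ^ (2 : ℝ) := mul_le_mul_of_nonneg_left h8 (by linarith)
        have h10 : C₂ * |(k : ℝ)| ^ ((1 : ℝ) / 2 + 1) ≤ C₂ * |(k : ℝ)| ^ (2 : ℝ) :=
          mul_le_mul_of_nonneg_left h7 (by linarith)
        calc _ ≤ Real.log (x : ℝ) + C₀ := h3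
          _ ≤ C₂ * |(k : ℝ)| ^ (2 : ℝ) + C₀ * |(k : ℝ)| ^ (2 : ℝ) := by
            apply add_le_add _ h9
            exact (h6.trans h5).trans h10
          _ = D₂ * |(k : ℝ)| ^ (2 : ℝ) := by rw [hD₂]; ring) hcard
    rw [← hC₆] at hx
    obtain ⟨h1, h2, h3⟩ := hbig x (hWV hxW)
    have hx0 : (0 : ℝ) < x := by exact_mod_cast h1
    have h4 := hlog x hxW
    have hks0 : 0 < |(k : ℝ)| ^ s := Real.rpow_pos_of_pos hκ0 s
    have h5 : Real.log (x : ℝ) ≤ Real.log C₆ + s * Real.log |(k : ℝ)| := by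
      refine (Real.log_le_log hx0 hx).trans (le_of_eq ?_)
      rw [Real.log_mul (by linarith) hks0.ne', Real.log_rpow hκ0]
    have h6 := MQ_log hκ hδ0 hlogC₆ hs0 (h4.trans_le h5)
    rw [← hκ₀] at h6
    have h7 : |(k : ℝ)| ^ s ≤ κ₀ ^ s := Real.rpow_le_rpow hκ0.le h6 hs0
    have h8 : (x : ℝ) ≤ C₇ := by
      rw [hC₇]
      exact hx.trans (mul_le_mul_of_nonneg_left h7 (by linarith))
    have h9 : CA + C₇ ≤ (CA + C₇) * |(k : ℝ)| ^ ((2 : ℝ) / 3 + ε) := by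
      calc CA + C₇ = (CA + C₇) * 1 := by ring
        _ ≤ _ := mul_le_mul_of_nonneg_left hke1 (by linarith)
    linarith
  have hp : 2 ^ (r + 2) = 2 * 2 ^ (r + 1) := by ring
  have key : ∀ W : Finset ℤ, (W : Set ℤ) ⊆ V → W.card + 2 * r + 4 ≤ 2 ^ (r + 2) := by
    intro W hWV
    have hc := Finset.card_filter_add_card_filter_not (s := W) (fun x : ℤ => Real.log (x : ℝ) ≤ |(k : ℝ)| ^ δ)
    have hA := keyA (W.filter fun x : ℤ => Real.log (x : ℝ) ≤ |(k : ℝ)| ^ δ)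
      (fun x hx => hWV (Finset.mem_filter.mp hx).1) (fun x hx => (Finset.mem_filter.mp hx).2)
    have hB := keyB (W.filter fun x : ℤ => ¬ Real.log (x : ℝ) ≤ |(k : ℝ)| ^ δ)
      (fun x hx => hWV (Finset.mem_filter.mp hx).1) (fun x hx => not_le.mp (Finset.mem_filter.mp hx).2)
    omega
  have hfin : V.Finite := by
    by_contra hinf
    obtain ⟨W, hWV, hWc⟩ := Set.Infinite.exists_subset_card_eq hinf (2 ^ (r + 2))
    have := key W hWV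
    omega
  refine ⟨hfin, ?_⟩
  have := key hfin.toFinset (by simp)
  rwa [← Set.ncard_eq_toFinset_card V hfin] at this

end Pool.Agent.LibDM24
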