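import Pool.Agent.LibDM24.MN2
import Pool.Agent.LibDM24.MQ

/-!
MP_e734ed_nt: integral points on Mordell curves of given rank, final form.
-/

set_option autoImplicit false

open WeierstrassCurve Pool.Agent.LibDP24

namespace Pool.Agent.LibDM24

theorem finalW (hCB : CB) (r : ℕ) (ε : ℝ) (hε : 0 < ε) : ∃ C : ℝ, 0 < C ∧ ∀ k : ℤ, k ≠ 0 →
    ∀ W : WeierstrassCurve ℚ, W = E 0 k →
    ∀ Γ : AddSubgroup W.toAffine.Point, Module.rank ℤ Γ ≤ r →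
      ∃ X Y : Finset ℤ, X.card + r + 2 ≤ 2 ^ (r + 1) ∧ Y.card + 2 * r + 4 ≤ 2 ^ (r + 2) ∧
        ∀ (x y : ℤ) (h : W.toAffine.Nonsingular (x : ℚ) (y : ℚ)),
          Affine.Point.some (x : ℚ) (y : ℚ) h ∈ Γ →
            (x ∉ X → |(x : ℝ)| ≤ C * |(k : ℝ)| ^ ((r : ℝ) / 2 + 1 / 3 + ε)) ∧
            (x ∉ Y → |(x : ℝ)| ≤ C * |(k : ℝ)| ^ ((2 : ℝ) / 3 + ε)) := by
  obtain ⟨C₁, hC₁, H₁⟩ := finalM2 hCB r ε hε
  obtain ⟨C₂, hC₂, H₂⟩ := finalMQ hCB r ε hε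
  refine ⟨max C₁ C₂, lt_max_of_lt_left hC₁, ?_⟩
  rintro k hk W rfl Γ hΓ
  obtain ⟨hf₁, hc₁⟩ := H₁ k hk Γ hΓ
  obtain ⟨hf₂, hc₂⟩ := H₂ k hk Γ hΓ
  refine ⟨hf₁.toFinset, hf₂.toFinset, ?_, ?_, fun x y h hmem => ⟨fun hx => ?_, fun hx => ?_⟩⟩
  · rwa [← Set.ncard_eq_toFinset_card _ hf₁]
  · rwa [← Set.ncard_eq_toFinset_card _ hf₂]
  · by_contra hlt
    refine hx (hf₁.mem_toFinset.2 ⟨y, h, hmem, ?_⟩)
    refine lt_of_le_of_lt ?_ (not_le.1 hlt)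
    exact mul_le_mul_of_nonneg_right (le_max_left _ _) (Real.rpow_nonneg (abs_nonneg _) _)
  · by_contra hlt
    refine hx (hf₂.mem_toFinset.2 ⟨y, h, hmem, ?_⟩)
    refine lt_of_le_of_lt ?_ (not_le.1 hlt)
    exact mul_le_mul_of_nonneg_right (le_max_right _ _) (Real.rpow_nonneg (abs_nonneg _) _)

end Pool.Agent.LibDM24
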