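import Mathlib

/-!
ROW MA (MEDIUM). The duplication map `X ↦ X (X-8)³ / (64 (X+1)³)` for `X = x³/k` multiplies heights by 4 up to an absolute constant.

PLAN. `X = p/q` in lowest terms (`p = X.num`, `q = X.den`), `F = p (p-8q)³`, `G = 64 q (p+q)³`, the value is `F/G` (`p + q ≠ 0`),
`m = max |p| q`. Upper: `|F| ≤ 729 m⁴`, `|G| ≤ 512 m⁴`. Identities (check by `ring`):
 `1259712 q⁷ = (6464 q³ + 7168 p q² + 2432 p² q) F + (19683 q³ - 7337 p q² + 914 p² q - 38 p³) G`,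
 `19683 p⁷ = (19456 q³ + 58496 p q² + 58696 p² q + 19683 p³) F + (155648 q³ - 57344 p q² + 6464 p² q) G`.
So `g = gcd(F, G)` divides `1259712 * gcd(p⁷, q⁷) = 1259712` (e.g. `g ∣ 1259712 q⁷`, `g ∣ 1259712 p⁷`, `IsCoprime (p^7) (q^7)`), and
`m⁷ ≤ 10^6 m³ max(|F|,|G|)`, i.e. `max(|F|,|G|) ≥ m⁴/10^6`. `logHeight₁ X = log m`, `logHeight₁ (F/G) = log (max(|F|,|G|)/g)`
(`Rat.logHeight₁_eq_log_max`; `logHeight₁ (a/b) = logHeight ![a, b]`, `Rat.logHeight_eq_max_abs_of_gcd_eq_one`,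
`logHeight_smul_eq_logHeight`; or directly with `Rat.num_div_eq_of_coprime`).
-/

set_option autoImplicit false

open Height

namespace Pool.Agent.LibDM24

private theorem MA_cub (a b c d p q m : ℤ) (hp : |p| ≤ m) (hq : |q| ≤ m) :
    |a * q ^ 3 + b * p * q ^ 2 + c * p ^ 2 * q + d * p ^ 3| ≤ (|a| + |b| + |c| + |d|) * m ^ 3 := by
  have hm : 0 ≤ m := (abs_nonneg p).trans hp
  have h1 : |a * q ^ 3| ≤ |a| * m ^ 3 := by
    rw [abs_mul, abs_pow]
    gcongr
  have h2 : |b * p * q ^ 2| ≤ |b| * m ^ 3 := by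
    rw [abs_mul, abs_mul, abs_pow]
    calc |b| * |p| * |q| ^ 2 ≤ |b| * m * m ^ 2 := by gcongr
      _ = |b| * m ^ 3 := by ring
  have h3 : |c * p ^ 2 * q| ≤ |c| * m ^ 3 := by
    rw [abs_mul, abs_mul, abs_pow]
    calc |c| * |p| ^ 2 * |q| ≤ |c| * m ^ 2 * m := by gcongr
      _ = |c| * m ^ 3 := by ring
  have h4 : |d * p ^ 3| ≤ |d| * m ^ 3 := by
    rw [abs_mul, abs_pow]
    gcongr
  have h5 := abs_add_le (a * q ^ 3 + b * p * q ^ 2 + c * p ^ 2 * q) (d * p ^ 3)
  have h6 := abs_add_le (a * q ^ 3 + b * p * q ^ 2) (c * p ^ 2 * q)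
  have h7 := abs_add_le (a * q ^ 3) (b * p * q ^ 2)
  linarith

private theorem MA_core (p q m x y t N D : ℤ) (hq : 1 ≤ q) (hpm : |p| ≤ m) (hqm : q ≤ m)
    (hm : m = |p| ∨ m = q) (hc : IsCoprime p q) (hx : x = p * (p - 8 * q) ^ 3)
    (hy : y = 64 * q * (p + q) ^ 3) (hN : x = t * N) (hD : y = t * D) (ht : t ≠ 0) :
    |N| ≤ 729 * m ^ 4 ∧ |D| ≤ 729 * m ^ 4 ∧ m ^ 4 ≤ 25194240 * max |N| |D| := by
  have hq0 : |q| ≤ m := by
    rw [abs_of_nonneg (by linarith)]
    exact hqm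
  have hm1 : 1 ≤ m := hq.trans hqm
  have hm0 : 0 ≤ m := by linarith
  have ht1 : 1 ≤ |t| := Int.one_le_abs ht
  have hX : |x| ≤ 729 * m ^ 4 := by
    have h1 : |p - 8 * q| ≤ 9 * m := by
      have h2 := abs_sub p (8 * q)
      have h3 : |8 * q| = 8 * q := abs_of_nonneg (by linarith)
      linarith
    rw [hx, abs_mul, abs_pow]
    calc |p| * |p - 8 * q| ^ 3 ≤ m * (9 * m) ^ 3 := by gcongr
      _ = 729 * m ^ 4 := by ring
  have hY : |y| ≤ 729 * m ^ 4 := by
    have h1 : |p + q| ≤ 2 * m := by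
      have h2 := abs_add_le p q
      linarith
    have h3 : |(64 : ℤ) * q| ≤ 64 * m := by
      rw [abs_of_nonneg (by linarith)]
      linarith
    rw [hy, abs_mul, abs_pow]
    calc |64 * q| * |p + q| ^ 3 ≤ (64 * m) * (2 * m) ^ 3 := by gcongr
      _ = 512 * m ^ 4 := by ring
      _ ≤ 729 * m ^ 4 := by nlinarith [pow_nonneg hm0 4]
  have e1 : 1259712 * q ^ 7 = (6464 * q ^ 3 + 7168 * p * q ^ 2 + 2432 * p ^ 2 * q + 0 * p ^ 3) * x +
      (19683 * q ^ 3 + (-7337) * p * q ^ 2 + 914 * p ^ 2 * q + (-38) * p ^ 3) * y := by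
    rw [hx, hy]
    ring
  have e2 : 19683 * p ^ 7 = (19456 * q ^ 3 + 58496 * p * q ^ 2 + 58696 * p ^ 2 * q + 19683 * p ^ 3) * x +
      (0 * q ^ 3 + 155648 * p * q ^ 2 + (-57344) * p ^ 2 * q + 6464 * p ^ 3) * y := by
    rw [hx, hy]
    ring
  have htd : t ∣ 1259712 := by
    have d1 : t ∣ 1259712 * q ^ 7 := by
      rw [e1, hN, hD]
      exact dvd_add (Dvd.dvd.mul_left (Dvd.intro _ rfl) _) (Dvd.dvd.mul_left (Dvd.intro _ rfl) _)
    have d2 : t ∣ 1259712 * p ^ 7 := by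
      have h1 : (1259712 : ℤ) * p ^ 7 = 64 * (19683 * p ^ 7) := by ring
      rw [h1, e2, hN, hD]
      exact Dvd.dvd.mul_left (dvd_add (Dvd.dvd.mul_left (Dvd.intro _ rfl) _)
        (Dvd.dvd.mul_left (Dvd.intro _ rfl) _)) _
    obtain ⟨u, v, huv⟩ := (hc.pow (m := 7) (n := 7))
    have h1 : (1259712 : ℤ) = u * (1259712 * p ^ 7) + v * (1259712 * q ^ 7) := by
      linear_combination (-1259712 : ℤ) * huv
    rw [h1]
    exact dvd_add (Dvd.dvd.mul_left d2 _) (Dvd.dvd.mul_left d1 _)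
  have htle : |t| ≤ 1259712 := by
    have h1 := Int.le_of_dvd (by norm_num) ((abs_dvd t 1259712).2 htd)
    exact h1
  have hxN : |x| = |t| * |N| := by rw [hN, abs_mul]
  have hyD : |y| = |t| * |D| := by rw [hD, abs_mul]
  have hMx : max |x| |y| ≤ 1259712 * max |N| |D| := by
    apply max_le
    · rw [hxN]
      exact mul_le_mul htle (le_max_left _ _) (abs_nonneg _) (by norm_num)
    · rw [hyD]
      exact mul_le_mul htle (le_max_right _ _) (abs_nonneg _) (by norm_num)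
  refine ⟨?_, ?_, ?_⟩
  · have : |N| ≤ |t| * |N| := le_mul_of_one_le_left (abs_nonneg _) ht1
    linarith
  · have : |D| ≤ |t| * |D| := le_mul_of_one_le_left (abs_nonneg _) ht1
    linarith
  · have hkey : m ^ 4 ≤ 20 * max |x| |y| := by
      set Mx := max |x| |y| with hMxdef
      have hMx0 : 0 ≤ Mx := (abs_nonneg x).trans (le_max_left _ _)
      have hm3 : 0 < m ^ 3 := by positivity
      have hle : ∀ A B a b : ℤ, |A| ≤ a * m ^ 3 → |B| ≤ b * m ^ 3 →
          |A * x + B * y| ≤ (a + b) * m ^ 3 * Mx := by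
        intro A B a b hA hB
        have h1 := abs_add_le (A * x) (B * y)
        have h2 : |A * x| ≤ a * m ^ 3 * Mx := by
          rw [abs_mul]
          exact mul_le_mul hA (le_max_left _ _) (abs_nonneg _) ((abs_nonneg _).trans hA)
        have h3 : |B * y| ≤ b * m ^ 3 * Mx := by
          rw [abs_mul]
          exact mul_le_mul hB (le_max_right _ _) (abs_nonneg _) ((abs_nonneg _).trans hB)
        linarith
      rcases hm with hmp | hmq
      · have b1 := MA_cub 19456 58496 58696 19683 p q m hpm hq0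
        have b2 := MA_cub 0 155648 (-57344) 6464 p q m hpm hq0
        have b3 := hle _ _ _ _ b1 b2
        rw [← e2] at b3
        have b4 : |19683 * p ^ 7| = 19683 * m ^ 7 := by
          rw [abs_mul, abs_pow, ← hmp]
          norm_num
        rw [b4] at b3
        have b5 : m ^ 3 * (19683 * m ^ 4) ≤ m ^ 3 * (375787 * Mx) := by
          have e3 : (|(19456 : ℤ)| + |58496| + |58696| + |19683| + (|0| + |155648| + |(-57344 : ℤ)| + |6464|)) = 375787 := by
            norm_num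
          rw [e3] at b3
          linarith
        have b6 := le_of_mul_le_mul_left b5 hm3
        linarith
      · have b1 := MA_cub 6464 7168 2432 0 p q m hpm hq0
        have b2 := MA_cub 19683 (-7337) 914 (-38) p q m hpm hq0
        have b3 := hle _ _ _ _ b1 b2
        rw [← e1] at b3
        have b4 : |1259712 * q ^ 7| = 1259712 * m ^ 7 := by
          rw [abs_mul, abs_pow, abs_of_nonneg (by linarith : 0 ≤ q), ← hmq]
          norm_num
        rw [b4] at b3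
        have b5 : m ^ 3 * (1259712 * m ^ 4) ≤ m ^ 3 * (44036 * Mx) := by
          have e3 : (|(6464 : ℤ)| + |7168| + |2432| + |0| + (|19683| + |(-7337 : ℤ)| + |914| + |(-38 : ℤ)|)) = 44036 := by
            norm_num
          rw [e3] at b3
          linarith
        have b6 := le_of_mul_le_mul_left b5 hm3
        have b7 : 0 ≤ m ^ 4 := by positivity
        linarith
    linarith

theorem dup_height : ∃ C : ℝ, 0 ≤ C ∧ ∀ X : ℚ, X ≠ -1 →
    |logHeight₁ (X * (X - 8) ^ 3 / (64 * (X + 1) ^ 3)) - 4 * logHeight₁ X| ≤ C := by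
  refine ⟨Real.log 25194240, Real.log_nonneg (by norm_num), fun X hX => ?_⟩
  obtain ⟨p, hp⟩ : ∃ p, p = X.num := ⟨_, rfl⟩
  obtain ⟨q, hq⟩ : ∃ q : ℤ, q = X.den := ⟨_, rfl⟩
  have hq1 : 1 ≤ q := by
    rw [hq]
    exact_mod_cast X.den_pos
  have hqQ : (q : ℚ) ≠ 0 := by
    have h1 : q ≠ 0 := by linarith
    exact_mod_cast h1
  have hXpq : X = (p : ℚ) / q := by
    rw [hp, hq]
    push_cast
    exact (Rat.num_div_den X).symm
  have hpq : p + q ≠ 0 := by
    intro h0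
    apply hX
    have h1 : p = -q := by linarith
    rw [hXpq, h1]
    push_cast
    field_simp
  have hpqQ : (p : ℚ) + q ≠ 0 := by exact_mod_cast hpq
  have hy0 : 64 * q * (p + q) ^ 3 ≠ 0 := by
    have h1 : q ≠ 0 := by linarith
    positivity
  obtain ⟨t, hN, hD⟩ := Rat.exists_eq_mul_div_num_and_eq_mul_div_den (p * (p - 8 * q) ^ 3) hy0
  have hval : X * (X - 8) ^ 3 / (64 * (X + 1) ^ 3) =
      ((p * (p - 8 * q) ^ 3 : ℤ) : ℚ) / ((64 * q * (p + q) ^ 3 : ℤ) : ℚ) := by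
    have h1 : (p : ℚ) / q + 1 ≠ 0 := by
      rw [div_add_one hqQ]
      exact div_ne_zero hpqQ hqQ
    rw [hXpq]
    push_cast
    rw [div_eq_div_iff (by positivity) (by positivity)]
    field_simp
  have ht : t ≠ 0 := by
    rintro rfl
    rw [zero_mul] at hD
    exact hy0 hD
  have hc : IsCoprime p q := by
    rw [hp, hq, Int.isCoprime_iff_gcd_eq_one]
    exact X.reduced
  rw [hval]
  obtain ⟨Y, hY⟩ : ∃ Y : ℚ, Y = ((p * (p - 8 * q) ^ 3 : ℤ) : ℚ) / ((64 * q * (p + q) ^ 3 : ℤ) : ℚ) :=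
    ⟨_, rfl⟩
  rw [← hY] at hN hD ⊢
  obtain ⟨m, hm⟩ : ∃ m : ℕ, m = max X.num.natAbs X.den := ⟨_, rfl⟩
  obtain ⟨M, hM⟩ : ∃ M : ℕ, M = max Y.num.natAbs Y.den := ⟨_, rfl⟩
  have hmZ : (m : ℤ) = max |p| q := by
    rw [hm, hp, hq]
    push_cast
    rfl
  have hMZ : (M : ℤ) = max |Y.num| |(Y.den : ℤ)| := by
    rw [hM]
    push_cast
    rw [Nat.abs_cast]
  have hcore := MA_core p q m _ _ t Y.num Y.den hq1 (by rw [hmZ]; exact le_max_left _ _)
    (by rw [hmZ]; exact le_max_right _ _) (by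
      rw [hmZ]
      rcases le_total |p| q with h | h
      · exact Or.inr (max_eq_right h)
      · exact Or.inl (max_eq_left h)) hc rfl rfl hN hD ht
  obtain ⟨c1, c2, c3⟩ := hcore
  rw [← hMZ] at c3
  have c4 : (M : ℤ) ≤ 729 * m ^ 4 := by
    rw [hMZ]
    exact max_le c1 c2
  rw [Rat.logHeight₁_eq_log_max, Rat.logHeight₁_eq_log_max, ← hm, ← hM]
  have hm1 : 1 ≤ m := by
    rw [hm]
    exact le_max_of_le_right X.den_pos
  have hM1 : 1 ≤ M := by
    rw [hM]
    exact le_max_of_le_right Y.den_pos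
  have hm1r : (1 : ℝ) ≤ m := by exact_mod_cast hm1
  have hM1r : (1 : ℝ) ≤ M := by exact_mod_cast hM1
  have c3r : (m : ℝ) ^ 4 ≤ 25194240 * M := by exact_mod_cast c3
  have c4r : (M : ℝ) ≤ 25194240 * m ^ 4 := by
    have h1 : (M : ℝ) ≤ 729 * m ^ 4 := by exact_mod_cast c4
    have h2 : (0 : ℝ) ≤ (m : ℝ) ^ 4 := by positivity
    linarith
  have l1 := Real.log_le_log (by positivity) c3r
  have l2 := Real.log_le_log (by positivity) c4r
  rw [Real.log_mul (by norm_num) (by positivity), Real.log_pow] at l1 l2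
  push_cast at l1 l2
  rw [abs_le]
  constructor <;> linarith

end Pool.Agent.LibDM24
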