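import Pool.Agent.LibDM24.Defs
import Pool.Agent.LibDM24.MA

/-!
ROW MB (MEDIUM). `fh` under duplication (absolute constant) and against the naive height (cites MA as stated).

PLAN. `fh_dup`: `R = 0` trivial. `R = some x y`, `y² = x³ + k` (from the nonsingular hypothesis, `Affine.equation_iff`; `E 0 k` has
`a₁ = a₂ = a₃ = 0`, `a₄ = ((0 : ℤ) : ℚ) = 0`, `a₆ = k`). `y = 0`: `R + R = 0` (`Affine.Point.add_self_of_Y_eq`), `x³/k = -1`, `logHeight₁ (-1) = 0`.
`y ≠ 0`: `R + R = some x₂ _`, `x₂ = ((3x²)/(2y))² - 2x` (`add_self_of_Y_ne`, `slope_of_Y_ne`, `addX`) `= x (x³ - 8k) / (4 (x³ + k))`, and with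
`X = x³/k` (so `X + 1 = y²/k ≠ 0`): `x₂³/k = X (X-8)³/(64 (X+1)³)` (`field_simp; ring`). `dup_height`, factor `1/3`.
`fh_nh`: `nh (some x y) = logHeight ![x, 1] = logHeight₁ x`; `|logHeight₁ (x³/k) - 3 logHeight₁ x| ≤ logHeight₁ k`
(`logHeight₁_pow`, `logHeight₁_mul_le`, `logHeight₁_inv`: `x³/k = x³ * k⁻¹` and `x³ = (x³/k) * k`).
-/

set_option autoImplicit false

open WeierstrassCurve Height Pool.Agent.LibDP24

namespace Pool.Agent.LibDM24

theorem fh_nonneg {k : ℤ} (R : Pt 0 k) : 0 ≤ fh R := by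
  match R with
  | .zero => exact le_refl 0
  | .some x y h => exact mul_nonneg (by norm_num) (zero_le_logHeight₁ _)

private theorem MB_eq {k : ℤ} {x y : ℚ} (h : (E 0 k).toAffine.Nonsingular x y) : y ^ 2 = x ^ 3 + (k : ℚ) := by
  have h1 := ((E 0 k).toAffine.equation_iff x y).1 h.1
  simp only [E, Int.cast_zero, zero_mul, add_zero] at h1
  linarith

private theorem MB_alg {x y k : ℚ} (hk : k ≠ 0) (hy : y ≠ 0) (h : y ^ 2 = x ^ 3 + k) :
    ((3 * x ^ 2 / (2 * y)) ^ 2 - 2 * x) ^ 3 / k =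
      (x ^ 3 / k) * (x ^ 3 / k - 8) ^ 3 / (64 * (x ^ 3 / k + 1) ^ 3) := by
  have hs : x ^ 3 + k ≠ 0 := by
    rw [← h]
    exact pow_ne_zero 2 hy
  have e1 : (3 * x ^ 2 / (2 * y)) ^ 2 - 2 * x = x * (x ^ 3 - 8 * k) / (4 * (x ^ 3 + k)) := by
    have e2 : (3 * x ^ 2 / (2 * y)) ^ 2 = 9 * x ^ 4 / (4 * (x ^ 3 + k)) := by
      rw [← h]
      field_simp
      ring
    rw [e2]
    field_simp
    ring
  have e3 : x ^ 3 / k + 1 = (x ^ 3 + k) / k := by
    field_simp
  have e4 : x ^ 3 / k - 8 = (x ^ 3 - 8 * k) / k := by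
    field_simp
  rw [e1, e3, e4]
  field_simp
  ring

theorem fh_dup : ∃ C : ℝ, 0 ≤ C ∧ ∀ k : ℤ, k ≠ 0 → ∀ R : Pt 0 k, |fh (R + R) - 4 * fh R| ≤ C := by
  obtain ⟨C, hC0, hC⟩ := dup_height
  refine ⟨C / 3, by positivity, ?_⟩
  intro k hk R
  have hk' : (k : ℚ) ≠ 0 := by exact_mod_cast hk
  match R with
  | .zero =>
    have h1 : (Affine.Point.zero + Affine.Point.zero : Pt 0 k) = Affine.Point.zero := add_zero (0 : Pt 0 k)
    rw [h1]
    have h2 : fh (Affine.Point.zero : Pt 0 k) = 0 := rfl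
    rw [h2]
    simp only [mul_zero, sub_zero, abs_zero]
    positivity
  | .some x y h =>
    have he := MB_eq h
    have hf : fh (Affine.Point.some x y h : Pt 0 k) = 1 / 3 * logHeight₁ (x ^ 3 / (k : ℚ)) := rfl
    have hneg : (E 0 k).toAffine.negY x y = -y := by
      simp [Affine.negY, E]
    by_cases hy : y = 0
    · have h1 : (Affine.Point.some x y h + Affine.Point.some x y h : Pt 0 k) = 0 :=
        Affine.Point.add_self_of_Y_eq (by rw [hneg, hy, neg_zero])
      have h2 : fh (0 : Pt 0 k) = 0 := rfl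
      have h3 : x ^ 3 / (k : ℚ) = -1 := by
        rw [hy] at he
        rw [div_eq_iff hk']
        linarith
      rw [h1, h2, hf, h3, logHeight₁_neg, logHeight₁_one]
      simp only [mul_zero, sub_zero, abs_zero]
      positivity
    · have hne : y ≠ (E 0 k).toAffine.negY x y := by
        rw [hneg]
        intro h1
        apply hy
        linarith
      have h1 := Affine.Point.add_self_of_Y_ne (h₁ := h) hne
      have h2 : fh (Affine.Point.some x y h + Affine.Point.some x y h : Pt 0 k) =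
          1 / 3 * logHeight₁ (((E 0 k).toAffine.addX x x ((E 0 k).toAffine.slope x x y y)) ^ 3 / (k : ℚ)) := by
        rw [h1]
        rfl
      have h3 : (E 0 k).toAffine.addX x x ((E 0 k).toAffine.slope x x y y) =
          (3 * x ^ 2 / (2 * y)) ^ 2 - 2 * x := by
        rw [Affine.slope_of_Y_ne rfl hne, hneg]
        simp only [Affine.addX, E, Int.cast_zero, zero_mul, mul_zero, add_zero, sub_zero, sub_neg_eq_add]
        rw [← two_mul]
        ring
      have h4 : x ^ 3 / (k : ℚ) ≠ -1 := by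
        intro h5
        rw [div_eq_iff hk'] at h5
        apply pow_ne_zero 2 hy
        rw [he, h5]
        ring
      rw [h2, h3, MB_alg hk' hy he, hf]
      have h5 := hC (x ^ 3 / (k : ℚ)) h4
      rw [abs_le] at h5 ⊢
      constructor
      · linarith [h5.1]
      · linarith [h5.2]

theorem fh_nh (k : ℤ) (hk : k ≠ 0) : ∃ D : ℝ, ∀ R : Pt 0 k, |fh R - nh R| ≤ D := by
  have hk' : (k : ℚ) ≠ 0 := by exact_mod_cast hk
  have h0 := zero_le_logHeight₁ (k : ℚ)
  refine ⟨1 / 3 * logHeight₁ (k : ℚ), ?_⟩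
  intro R
  match R with
  | .zero =>
    have h1 : fh (Affine.Point.zero : Pt 0 k) = 0 := rfl
    have h2 : nh (Affine.Point.zero : Pt 0 k) = 0 := by
      have h3 : nh (Affine.Point.zero : Pt 0 k) = logHeight ![(1 : ℚ), 0] := rfl
      rw [h3, ← logHeight₁_div_eq_logHeight, div_zero, logHeight₁_zero]
    rw [h1, h2, sub_zero, abs_zero]
    positivity
  | .some x y h =>
    have h1 : fh (Affine.Point.some x y h : Pt 0 k) = 1 / 3 * logHeight₁ (x ^ 3 / (k : ℚ)) := rfl
    have h2 : nh (Affine.Point.some x y h : Pt 0 k) = logHeight₁ x := by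
      have h3 : nh (Affine.Point.some x y h : Pt 0 k) = logHeight ![x, 1] := rfl
      rw [h3, ← logHeight₁_eq_logHeight]
    have h3 : logHeight₁ (x ^ 3) = 3 * logHeight₁ x := by
      rw [logHeight₁_pow]
      norm_num
    have h4 : logHeight₁ (x ^ 3 / (k : ℚ)) ≤ 3 * logHeight₁ x + logHeight₁ (k : ℚ) := by
      have h5 := logHeight₁_mul_le (x ^ 3) ((k : ℚ)⁻¹)
      rw [logHeight₁_inv, h3] at h5
      rw [div_eq_mul_inv]
      exact h5
    have h6 : 3 * logHeight₁ x ≤ logHeight₁ (x ^ 3 / (k : ℚ)) + logHeight₁ (k : ℚ) := by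
      have h5 := logHeight₁_mul_le (x ^ 3 / (k : ℚ)) (k : ℚ)
      rw [div_mul_cancel₀ _ hk', h3] at h5
      exact h5
    rw [h1, h2, abs_le]
    constructor <;> linarith

end Pool.Agent.LibDM24
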