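import Pool.Agent.LibDM24.MB
import Pool.Agent.LibDP24.H2

/-!
ROW MC (SHORT/MEDIUM). The canonical height of a Mordell curve is `(1/3) h(x³/k)` up to an ABSOLUTE constant (cites MB, LibDP24.H2 as stated).

PLAN. `Pool.Agent.LibDP24.exists_can` for `A = 0, B = k` (`4*0+27*k² ≠ 0`) gives `hh` with `|hh - nh| ≤ C ell`, `par`, `nonneg`. With `fh_nh`: `|hh R - fh R| ≤ D'` for all
`R`, some `D'` (depending on `k`). `hh (R + R) = 4 hh R` (`par R R`, `hh 0 = 0`). Let `s = ⨆ |hh R - fh R|` (bounded): `4 |hh R - fh R| = |hh (R+R) - 4 fh R| ≤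
|hh (R+R) - fh (R+R)| + C₁ ≤ s + C₁`, so `4 s ≤ s + C₁`, `s ≤ C₁/3`. (Or: by induction `|hh R - fh R| ≤ D'/4^n + C₁/3` for all `n`.)
-/

set_option autoImplicit false

open WeierstrassCurve Height Pool.Agent.LibDP24

namespace Pool.Agent.LibDM24

theorem exists_canM : ∃ C : ℝ, 1 ≤ C ∧ ∀ k : ℤ, k ≠ 0 → ∃ hh : Pt 0 k → ℝ, IsCanM C hh := by
  obtain ⟨C₁, hC₁, hdup⟩ := fh_dup
  obtain ⟨C₂, -, hcan⟩ := exists_can
  refine ⟨C₁ + 1, by linarith, fun k hk => ?_⟩
  have hD : 4 * (0 : ℤ) ^ 3 + 27 * k ^ 2 ≠ 0 := by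
    have h1 : k ^ 2 ≠ 0 := pow_ne_zero 2 hk
    intro h2
    apply h1
    linarith
  obtain ⟨hh, hc⟩ := hcan 0 k hD
  obtain ⟨D, hfn⟩ := fh_nh k hk
  refine ⟨hh, ?_, hc.par, hc.nonneg⟩
  obtain ⟨D0, hD0⟩ : ∃ D0 : ℝ, D0 = C₂ * ell 0 k + D := ⟨_, rfl⟩
  have hb : ∀ R, |hh R - fh R| ≤ D0 := by
    intro R
    have h1 := hc.close R
    have h2 := hfn R
    have h3 : hh R - fh R = (hh R - nh R) - (fh R - nh R) := by ring
    rw [h3, hD0]
    exact (abs_sub _ _).trans (add_le_add h1 h2)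
  have h0 : hh 0 = 0 := by
    have h1 := hc.par 0 0
    rw [add_zero, sub_zero] at h1
    linarith
  have hd : ∀ R, hh (R + R) = 4 * hh R := by
    intro R
    have h1 := hc.par R R
    rw [sub_self, h0] at h1
    linarith
  have key : ∀ n : ℕ, ∀ R, |hh R - fh R| ≤ D0 / 4 ^ n + C₁ / 3 := by
    intro n
    induction n with
    | zero =>
      intro R
      have h1 := hb R
      rw [pow_zero, div_one]
      linarith
    | succ n ih =>
      intro R
      have h1 := ih (R + R)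
      have h2 := hdup k hk R
      have h3 : 4 * (hh R - fh R) = (hh (R + R) - fh (R + R)) + (fh (R + R) - 4 * fh R) := by
        rw [hd]
        ring
      have h4 : |4 * (hh R - fh R)| ≤ (D0 / 4 ^ n + C₁ / 3) + C₁ := by
        rw [h3]
        exact (abs_add_le _ _).trans (add_le_add h1 h2)
      rw [abs_mul, abs_of_pos (by norm_num : (0 : ℝ) < 4)] at h4
      have h5 : D0 / 4 ^ (n + 1) = D0 / 4 ^ n / 4 := by
        rw [pow_succ, div_div]
      rw [h5]
      linarith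
  intro R
  obtain ⟨n, hn⟩ := pow_unbounded_of_one_lt D0 (by norm_num : (1 : ℝ) < 4)
  have h1 : D0 / 4 ^ n ≤ 1 := by
    rw [div_le_one (by positivity)]
    exact hn.le
  have h2 := key n R
  linarith

end Pool.Agent.LibDM24
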