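import Pool.Agent.LibDM24.Defs
import Pool.Agent.LibDP24.H3

/-!
ROW MD (MEDIUM). Absolute lower bound for the canonical height; heights against sizes (cites LibDP24.H3 as stated).

PLAN. `canM_lower`: the set of rationals `X` with `logHeight₁ X ≤ 3 (1 + C₀)` is finite (`NumberField.finite_setOfPred_logHeight₁_le ℚ _`), say `n` elements
(independent of `k`). For `R = some x y`, `x³/k = X` determines `x` (`x ↦ x³` is injective on `ℚ`: `Odd.strictMono_pow`), and `x` determines `R` up to sign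
(`Affine.Point.eq_or_eq_neg_of_xRep_eq_xRep` or `y² = x³ + k`). So at most `2 n + 1` points have `fh ≤ 1 + C₀`. If `N = 2 n + 1` and
`N² hh R ≤ 1`, then the `N + 1` different points `j • R`, `0 ≤ j ≤ N`, have `hh ≤ 1` (`hh_zsmul`), `fh ≤ 1 + C₀`: contradiction. `c₀ = 1 / N²`.
`canM_ge`: `log |q| ≤ logHeight₁ q` for `q = x³/k` (`|q| = |num|/den ≤ max`). `canM_le`: `x³ ≥ |k| > 0`, `logHeight₁ (x³/k) = log (max(|num|, den)) ≤ log (x³)`
because `num ∣ x³`, `den ∣ k` (or `logHeight₁ (a/b) ≤ log (max |a| |b|)` for integers).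
-/

set_option autoImplicit false

open WeierstrassCurve Height Pool.Agent.LibDP24

namespace Pool.Agent.LibDM24

private theorem MD_xRep {k : ℤ} {R : Pt 0 k} (hR : R ≠ 0) : R.xRep = ![R.xRep 0, 1] := by
  rcases R with _ | ⟨x, y, h⟩
  · exact absurd rfl hR
  · rfl

private theorem MD_fh {k : ℤ} {R : Pt 0 k} (hR : R ≠ 0) :
    fh R = 1 / 3 * logHeight₁ ((R.xRep 0) ^ 3 / (k : ℚ)) := by
  rcases R with _ | ⟨x, y, h⟩
  · exact absurd rfl hR
  · rfl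

private theorem MD_fibre {k : ℤ} (hk : k ≠ 0) {R S : Pt 0 k} (hR : R ≠ 0) (hS : S ≠ 0)
    (h : (R.xRep 0) ^ 3 / (k : ℚ) = (S.xRep 0) ^ 3 / (k : ℚ)) : R = S ∨ R = -S := by
  have hk' : (k : ℚ) ≠ 0 := by exact_mod_cast hk
  have h1 : (R.xRep 0) ^ 3 = (S.xRep 0) ^ 3 := by
    rwa [div_left_inj' hk'] at h
  have h2 : R.xRep 0 = S.xRep 0 := (Odd.strictMono_pow (R := ℚ) (n := 3) (by decide)).injective h1
  refine Affine.Point.eq_or_eq_neg_of_xRep_eq_xRep ?_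
  rw [MD_xRep hR, MD_xRep hS, h2]

theorem canM_lower (C₀ : ℝ) (hC₀ : 0 ≤ C₀) : ∃ c₀ : ℝ, 0 < c₀ ∧ ∀ k : ℤ, k ≠ 0 → ∀ hh : Pt 0 k → ℝ,
    IsCanM C₀ hh → ∀ R : Pt 0 k, ¬ IsOfFinAddOrder R → c₀ ≤ hh R := by
  classical
  have hfin := NumberField.finite_setOfPred_logHeight₁_le ℚ (3 * (1 + C₀))
  obtain ⟨T, hT⟩ : ∃ T : Finset ℚ, T = hfin.toFinset := ⟨_, rfl⟩
  obtain ⟨N, hN⟩ : ∃ N : ℕ, N = 2 * T.card + 1 := ⟨_, rfl⟩
  have hN0 : (0 : ℝ) < N := by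
    rw [hN]
    positivity
  refine ⟨1 / (N : ℝ) ^ 2, by positivity, fun k hk hh hc R hR => ?_⟩
  by_contra hcon
  rw [not_le, lt_div_iff₀ (by positivity)] at hcon
  have hR0 : 0 ≤ hh R := hc.nonneg R
  have hinj : Function.Injective (fun n : ℕ => n • R) := injective_nsmul_iff_not_isOfFinAddOrder.2 hR
  obtain ⟨s, hs⟩ : ∃ s : Finset (Pt 0 k), s = (Finset.range (N + 1)).image fun n : ℕ => n • R :=
    ⟨_, rfl⟩
  have hcard : s.card = N + 1 := by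
    rw [hs, Finset.card_image_of_injective _ hinj, Finset.card_range]
  obtain ⟨f, hf⟩ : ∃ f : Pt 0 k → ℚ, f = fun S => (S.xRep 0) ^ 3 / (k : ℚ) := ⟨_, rfl⟩
  have h1 : (s.erase 0).image f ⊆ T := by
    intro a ha
    obtain ⟨S, hS, rfl⟩ := Finset.mem_image.1 ha
    have hS0 : S ≠ 0 := Finset.ne_of_mem_erase hS
    have hS1 : S ∈ s := Finset.mem_of_mem_erase hS
    rw [hs] at hS1
    obtain ⟨j, hj, rfl⟩ := Finset.mem_image.1 hS1
    rw [Finset.mem_range] at hj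
    have h2 : hh (j • R) = (j : ℝ) ^ 2 * hh R := by
      have h3 := hh_zsmul hc.par (j : ℤ) R
      rw [natCast_zsmul] at h3
      rw [h3]
      push_cast
      ring
    have h3 : (j : ℝ) ≤ N := by exact_mod_cast Nat.lt_succ_iff.1 hj
    have h4 : (j : ℝ) ^ 2 ≤ (N : ℝ) ^ 2 := pow_le_pow_left₀ (Nat.cast_nonneg j) h3 2
    have h5 : hh (j • R) ≤ 1 := by
      rw [h2]
      have := mul_le_mul_of_nonneg_right h4 hR0
      linarith
    have h6 := (abs_le.1 (hc.close (j • R))).1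
    have h7 : fh (j • R) = 1 / 3 * logHeight₁ (f (j • R)) := by
      rw [hf]
      exact MD_fh hS0
    rw [hT, Set.Finite.mem_toFinset]
    change logHeight₁ (f (j • R)) ≤ 3 * (1 + C₀)
    linarith
  have h2 : (s.erase 0).card ≤ 2 * ((s.erase 0).image f).card := by
    refine Finset.card_le_mul_card_image _ _ fun a ha => ?_
    obtain ⟨R', hR', rfl⟩ := Finset.mem_image.1 ha
    have h3 : (s.erase 0).filter (fun S => f S = f R') ⊆ ({R', -R'} : Finset (Pt 0 k)) := by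
      intro S hS
      rw [Finset.mem_filter] at hS
      rw [Finset.mem_insert, Finset.mem_singleton]
      have h4 := hS.2
      rw [hf] at h4
      exact MD_fibre hk (Finset.ne_of_mem_erase hS.1) (Finset.ne_of_mem_erase hR') h4
    exact (Finset.card_le_card h3).trans Finset.card_le_two
  have h3 := Finset.card_le_card h1
  have h4 : s.card ≤ (s.erase 0).card + 1 := by
    have := Finset.pred_card_le_card_erase (s := s) (a := 0)
    omega
  omega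

private theorem MD_log_le {q : ℚ} (hq : q ≠ 0) : Real.log |(q : ℝ)| ≤ logHeight₁ q := by
  rw [Rat.logHeight₁_eq_log_max]
  have hq' : (0 : ℝ) < |(q : ℝ)| := abs_pos.2 (by exact_mod_cast hq)
  refine Real.log_le_log hq' ?_
  have h1 : |(q : ℝ)| = (q.num.natAbs : ℝ) / (q.den : ℝ) := by
    rw [Nat.cast_natAbs, Int.cast_abs, Rat.cast_def, abs_div, Nat.abs_cast]
  have hd : (1 : ℝ) ≤ (q.den : ℝ) := by exact_mod_cast q.den_pos
  rw [h1]
  refine (div_le_self (Nat.cast_nonneg _) hd).trans ?_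
  exact_mod_cast le_max_left _ _

private theorem MD_le_log {a b : ℤ} (ha : a ≠ 0) (hb : b ≠ 0) (hab : |b| ≤ |a|) :
    logHeight₁ ((a : ℚ) / (b : ℚ)) ≤ Real.log |(a : ℝ)| := by
  rw [Rat.logHeight₁_eq_log_max]
  have h1 : ((a : ℚ) / (b : ℚ)) = Rat.divInt a b := (Rat.divInt_eq_div a b).symm
  have hnum : ((a : ℚ) / (b : ℚ)).num ∣ a := by
    rw [h1]
    exact Rat.num_dvd a hb
  have hden : (((a : ℚ) / (b : ℚ)).den : ℤ) ∣ b := by
    rw [h1]
    exact Rat.den_dvd a b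
  have h2 : ((a : ℚ) / (b : ℚ)).num.natAbs ≤ a.natAbs :=
    Nat.le_of_dvd (Int.natAbs_pos.2 ha) (Int.natAbs_dvd_natAbs.2 hnum)
  have h3 : ((a : ℚ) / (b : ℚ)).den ≤ b.natAbs :=
    Nat.le_of_dvd (Int.natAbs_pos.2 hb) (Int.natCast_dvd.1 hden)
  have h4 : b.natAbs ≤ a.natAbs := by
    zify
    exact hab
  have h5 : max ((a : ℚ) / (b : ℚ)).num.natAbs ((a : ℚ) / (b : ℚ)).den ≤ a.natAbs :=
    max_le h2 (h3.trans h4)
  have h6 : (0 : ℝ) < ((max ((a : ℚ) / (b : ℚ)).num.natAbs ((a : ℚ) / (b : ℚ)).den : ℕ) : ℝ) := by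
    exact_mod_cast lt_of_lt_of_le ((a : ℚ) / (b : ℚ)).den_pos (le_max_right _ _)
  have h7 : |(a : ℝ)| = (a.natAbs : ℝ) := by rw [Nat.cast_natAbs, Int.cast_abs]
  rw [h7]
  exact Real.log_le_log h6 (by exact_mod_cast h5)

theorem canM_ge {C₀ : ℝ} {k : ℤ} (hk : k ≠ 0) {hh : Pt 0 k → ℝ} (hc : IsCanM C₀ hh) {x y : ℚ}
    (h : (E 0 k).toAffine.Nonsingular x y) (hx : x ≠ 0) :
    Real.log |((x : ℚ) : ℝ)| - 1 / 3 * Real.log |(k : ℝ)| - C₀ ≤
      hh (Affine.Point.some x y h : Pt 0 k) := by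
  have h1 := (abs_le.1 (hc.close (Affine.Point.some x y h : Pt 0 k))).1
  have h2 : fh (Affine.Point.some x y h : Pt 0 k) = 1 / 3 * logHeight₁ (x ^ 3 / (k : ℚ)) := rfl
  have hkq : (k : ℚ) ≠ 0 := by exact_mod_cast hk
  have h3 := MD_log_le (q := x ^ 3 / (k : ℚ)) (div_ne_zero (pow_ne_zero 3 hx) hkq)
  have hxr : |((x : ℚ) : ℝ)| ≠ 0 := abs_ne_zero.2 (by exact_mod_cast hx)
  have hkr : |(k : ℝ)| ≠ 0 := abs_ne_zero.2 (by exact_mod_cast hk)
  have h4 : Real.log |((x ^ 3 / (k : ℚ) : ℚ) : ℝ)| =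
      3 * Real.log |((x : ℚ) : ℝ)| - Real.log |(k : ℝ)| := by
    rw [Rat.cast_div, Rat.cast_pow, Rat.cast_intCast, abs_div, abs_pow,
      Real.log_div (pow_ne_zero 3 hxr) hkr, Real.log_pow]
    norm_num
  rw [h4] at h3
  linarith

theorem canM_le {C₀ : ℝ} {k : ℤ} (hk : k ≠ 0) {hh : Pt 0 k → ℝ} (hc : IsCanM C₀ hh) {R : Pt 0 k}
    {x : ℤ} (hR : IsInt R x) (hx0 : 0 < x) (hx : |(k : ℝ)| ≤ (x : ℝ) ^ 3) :
    hh R ≤ Real.log x + C₀ := by
  obtain ⟨y, h, rfl⟩ := hR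
  have h1 := (abs_le.1 (hc.close (Affine.Point.some (x : ℚ) (y : ℚ) h : Pt 0 k))).2
  have h2 : fh (Affine.Point.some (x : ℚ) (y : ℚ) h : Pt 0 k) =
      1 / 3 * logHeight₁ ((x : ℚ) ^ 3 / (k : ℚ)) := rfl
  have h3 : logHeight₁ ((x : ℚ) ^ 3 / (k : ℚ)) ≤ Real.log |((x ^ 3 : ℤ) : ℝ)| := by
    have h4 := MD_le_log (a := x ^ 3) (b := k) (pow_ne_zero 3 hx0.ne') hk (by
      rw [abs_of_pos (pow_pos hx0 3)]
      exact_mod_cast hx)
    rw [Int.cast_pow] at h4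
    exact h4
  have hx0' : (0 : ℝ) < x := by exact_mod_cast hx0
  have h5 : Real.log |((x ^ 3 : ℤ) : ℝ)| = 3 * Real.log x := by
    rw [Int.cast_pow, abs_of_pos (pow_pos hx0' 3), Real.log_pow]
    norm_num
  rw [h5] at h3
  linarith

end Pool.Agent.LibDM24
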