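import Pool.Agent.LibDM24.Defs
import Pool.Agent.LibDP24.R1

/-!
ROW MF (MEDIUM). The group law near infinity on `y² = x³ + k`, scaled version (compare LibDP24/R1.lean, DP24_R1.lean in the store, by helper28:
most of its algebra can be copied with `A = 0`).

PLAN. `κ = |k|`, `U = |uu R| + |uu S|`, `κ U⁶ ≤ 10^-6`. Cases `R = 0`, `S = 0`, `S = -R` (error 0) as in R1. Otherwise with `u_i = x_i/y_i`, `w_i = 1/y_i`,
`w = u³ + k w³`, `|w_i| ≤ 2|u_i|³`, slope `l`, `c = y₁ - l x₁ ≠ 0`, `lam = -l/c`, `nu = 1/c = w₁ - lam u₁`: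
 `lam (1 - k (w₁²+w₁w₂+w₂²)) = u₁²+u₁u₂+u₂²`, so `|lam| ≤ 1.01 U²`;
 the error is `uu (R+S) - u₁ - u₂ = 3 k lam² nu / (1 + k lam³)` up to sign (R1, (c) with A = 0).
NEW: `|nu| ≤ 1.1 U |u₁||u₂|`. Secant (`u₁ ≠ u₂`): with `v = w/u` (`v = u² + k u² v³`, `|v| ≤ 2u²`): `nu = u₁u₂ (v₂ - v₁)/(u₁ - u₂)` and
 `(v₂ - v₁)(1 - k u₁² (v₁²+v₁v₂+v₂²)) = (u₂² - u₁²)(1 + k v₂³)`, so `|v₂ - v₁| ≤ 1.1 |u₂ - u₁| U`. Tangent: `nu = w - lam u`, `lam = 3u²/(1-3kw²)`,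
 `w = u³ (1 + O(κ u⁶))`: `|nu| ≤ 2.1 |u|³ ≤ 1.1 U u²`.
 Error `≤ 3 κ (1.02 U⁴)(1.1 U |u₁||u₂|)·1.01 ≤ 4 κ U⁵ |u₁||u₂|`. `Near`: `|w₃| ≤ |lam||u₃| + |nu| ≤ 3 U³`, `w₃ = u₃³ + k w₃³`.
-/

set_option autoImplicit false

open WeierstrassCurve Pool.Agent.LibDP24

namespace Pool.Agent.LibDM24

/-- the key identity, as a polynomial identity -/
private lemma MF_ident (B x1 y1 x2 y2 x3 l c : ℝ) (e1 : y1 = l * x1 + c) (e2 : y2 = l * x2 + c)
    (hx3 : x3 = l ^ 2 - x1 - x2)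
    (V1 : x1 * x2 + x1 * x3 + x2 * x3 = -2 * l * c) (V2 : x1 * x2 * x3 = c ^ 2 - B) :
    -l * (y1 ^ 2 * y2 ^ 2 - B * (y1 ^ 2 + y1 * y2 + y2 ^ 2)) =
      c * (x1 ^ 2 * y2 ^ 2 + x1 * x2 * y1 * y2 + x2 ^ 2 * y1 ^ 2) := by
  have hA : (0 : ℝ) = x1 * x2 + x1 * x3 + x2 * x3 + 2 * l * c := by linarith
  have hB : B = c ^ 2 - x1 * x2 * x3 := by linarith
  have h0 : -l * (y1 ^ 2 * y2 ^ 2 - (x1 * x2 + x1 * x3 + x2 * x3 + 2 * l * c) * x2 * y1 * (y1 + y2) -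
      B * (y1 ^ 2 + y1 * y2 + y2 ^ 2)) =
      c * (x1 ^ 2 * y2 ^ 2 + x1 * x2 * y1 * y2 + x2 ^ 2 * y1 ^ 2 +
        (x1 * x2 + x1 * x3 + x2 * x3 + 2 * l * c) * y2 ^ 2) := by
    subst e1 e2 hB hx3
    ring
  rw [← hA] at h0
  linarith

/-- product of the three ordinates -/
private lemma MF_prod (B x1 x2 x3 l c : ℝ)
    (hx3 : x3 = l ^ 2 - x1 - x2)
    (V1 : x1 * x2 + x1 * x3 + x2 * x3 = -2 * l * c) (V2 : x1 * x2 * x3 = c ^ 2 - B) :
    (l * x1 + c) * (l * x2 + c) * (l * x3 + c) = c ^ 3 - B * l ^ 3 := by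
  have hA : (0 : ℝ) = x1 * x2 + x1 * x3 + x2 * x3 + 2 * l * c := by linarith
  have hB : B = c ^ 2 - x1 * x2 * x3 := by linarith
  have h0 : (l * x1 + c) * (l * x2 + c) * (l * x3 + c) =
      c ^ 3 + (x1 * x2 + x1 * x3 + x2 * x3 + 2 * l * c) * l ^ 2 * c - B * l ^ 3 := by
    subst hB hx3
    ring
  rw [← hA] at h0
  linarith

/-- numerator of the sum of the three parameters -/
private lemma MF_num (B x1 x2 x3 l c : ℝ)
    (hx3 : x3 = l ^ 2 - x1 - x2)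
    (V1 : x1 * x2 + x1 * x3 + x2 * x3 = -2 * l * c) (V2 : x1 * x2 * x3 = c ^ 2 - B) :
    x1 * (l * x2 + c) * (l * x3 + c) + x2 * (l * x1 + c) * (l * x3 + c) + x3 * (l * x1 + c) * (l * x2 + c) =
      -(3 * B * l ^ 2) := by
  have hA : (0 : ℝ) = x1 * x2 + x1 * x3 + x2 * x3 + 2 * l * c := by linarith
  have hB : B = c ^ 2 - x1 * x2 * x3 := by linarith
  have h0 : x1 * (l * x2 + c) * (l * x3 + c) + x2 * (l * x1 + c) * (l * x3 + c) +
      x3 * (l * x1 + c) * (l * x2 + c) =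
      2 * (x1 * x2 + x1 * x3 + x2 * x3 + 2 * l * c) * l * c - 3 * B * l ^ 2 := by
    subst hB hx3
    ring
  rw [← hA] at h0
  linarith

/-- the third point is on the curve -/
private lemma MF_third (B x1 x2 x3 l c : ℝ)
    (hx3 : x3 = l ^ 2 - x1 - x2)
    (V1 : x1 * x2 + x1 * x3 + x2 * x3 = -2 * l * c) (V2 : x1 * x2 * x3 = c ^ 2 - B) :
    (l * x3 + c) ^ 2 = x3 ^ 3 + B := by
  have hA : (0 : ℝ) = x1 * x2 + x1 * x3 + x2 * x3 + 2 * l * c := by linarith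
  have hB : B = c ^ 2 - x1 * x2 * x3 := by linarith
  have h0 : (l * x3 + c) ^ 2 = x3 ^ 3 + (x1 * x2 + x1 * x3 + x2 * x3 + 2 * l * c) * x3 + B := by
    subst hB hx3
    ring
  rw [← hA] at h0
  linarith

private lemma MF_form (x y : ℝ) : |x ^ 2 + x * y + y ^ 2| ≤ (|x| + |y|) ^ 2 := by
  have h3 := sq_abs x
  have h4 := sq_abs y
  have h5 : x * y ≤ |x| * |y| := by rw [← abs_mul]; exact le_abs_self _
  have h6 := mul_nonneg (abs_nonneg x) (abs_nonneg y)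
  rw [abs_of_nonneg (by nlinarith [sq_nonneg (x + y), sq_nonneg x, sq_nonneg y])]
  nlinarith

private lemma MF_cube (x y : ℝ) (hx : 0 ≤ x) (hy : 0 ≤ y) : x ^ 3 + y ^ 3 ≤ (x + y) ^ 3 := by
  have h1 := mul_nonneg (mul_nonneg hx hy) hx
  have h2 := mul_nonneg (mul_nonneg hx hy) hy
  have h3 : (x + y) ^ 3 = x ^ 3 + y ^ 3 + 3 * (x * y * x) + 3 * (x * y * y) := by ring
  linarith

private lemma MF_frac (x1 x2 x3 y1 y2 z : ℝ) (h1 : y1 ≠ 0) (h2 : y2 ≠ 0) (h3 : z ≠ 0) :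
    x3 / (-z) - x1 / y1 - x2 / y2 = -((x1 * y2 * z + x2 * y1 * z + x3 * y1 * y2) / (y1 * y2 * z)) := by
  field_simp
  ring

/-- the formula for `nu` -/
private lemma MF_nu (B u1 u2 w1 w2 lam Br : ℝ) (hBr : Br = 1 - B * (w1 ^ 2 + w1 * w2 + w2 ^ 2)) (hBr0 : Br ≠ 0)
    (h1 : w1 = u1 ^ 3 + B * w1 ^ 3) (hl : lam * Br = u1 ^ 2 + u1 * u2 + u2 ^ 2) (h0 : 1 - B * w1 ^ 2 ≠ 0) :
    w1 - lam * u1 = -(u1 * u2 * (u1 + u2)) / Br - B * u1 ^ 3 * (w2 * (w1 + w2)) / (Br * (1 - B * w1 ^ 2)) := by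
  have hlam : lam = (u1 ^ 2 + u1 * u2 + u2 ^ 2) / Br := by
    rw [eq_div_iff hBr0]
    exact hl
  have hu : u1 ^ 3 = w1 * (1 - B * w1 ^ 2) := by linarith
  have hlu : lam * u1 = (w1 * (1 - B * w1 ^ 2) + u1 * u2 * (u1 + u2)) / Br := by
    rw [hlam, div_mul_eq_mul_div, ← hu]
    congr 1
    ring
  have hE : B * (w1 * (1 - B * w1 ^ 2)) * (w2 * (w1 + w2)) / (Br * (1 - B * w1 ^ 2)) =
      B * w1 * (w2 * (w1 + w2)) / Br := by
    rw [show B * (w1 * (1 - B * w1 ^ 2)) * (w2 * (w1 + w2)) =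
      (B * w1 * (w2 * (w1 + w2))) * (1 - B * w1 ^ 2) by ring]
    exact mul_div_mul_right _ _ h0
  have hW : w1 = w1 * Br / Br := by
    rw [mul_div_assoc, div_self hBr0, mul_one]
  rw [hlu, hu, hE, div_sub_div_same]
  rw [eq_div_iff hBr0, sub_mul, div_mul_cancel₀ _ hBr0]
  have hX : w1 * Br = w1 - B * w1 * (w1 ^ 2 + w1 * w2 + w2 ^ 2) := by
    rw [hBr]
    ring
  rw [hX]
  ring

/-- real form of the row -/
private lemma MF_core (B κ x1 y1 x2 y2 x3 y3 l c : ℝ) (hκ : 0 ≤ κ) (hB : |B| ≤ κ)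
    (hy1 : y1 ≠ 0) (hy2 : y2 ≠ 0) (e1 : y1 = l * x1 + c) (e2 : y2 = l * x2 + c)
    (hx3 : x3 = l ^ 2 - x1 - x2) (hy3 : y3 = -(l * x3 + c)) (q1 : y1 ^ 2 = x1 ^ 3 + B)
    (V1 : x1 * x2 + x1 * x3 + x2 * x3 = -2 * l * c) (V2 : x1 * x2 * x3 = c ^ 2 - B)
    (n1 : |1 / y1| ≤ 2 * |x1 / y1| ^ 3) (n2 : |1 / y2| ≤ 2 * |x2 / y2| ^ 3)
    (hU : κ * (|x1 / y1| + |x2 / y2|) ^ 6 ≤ 1 / 10 ^ 6) :
    (y3 ≠ 0 ∧ |1 / y3| ≤ 2 * |x3 / y3| ^ 3) ∧
      |x3 / y3 - x1 / y1 - x2 / y2| ≤ 100 * κ * (|x1 / y1| + |x2 / y2|) ^ 5 * |x1 / y1| * |x2 / y2| := by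
  obtain ⟨u1, hu1⟩ : ∃ u, u = x1 / y1 := ⟨_, rfl⟩
  obtain ⟨u2, hu2⟩ : ∃ u, u = x2 / y2 := ⟨_, rfl⟩
  obtain ⟨w1, hw1⟩ : ∃ u, u = 1 / y1 := ⟨_, rfl⟩
  obtain ⟨w2, hw2⟩ : ∃ u, u = 1 / y2 := ⟨_, rfl⟩
  rw [← hu1, ← hw1] at n1
  rw [← hu2, ← hw2] at n2
  rw [← hu1, ← hu2] at hU ⊢
  obtain ⟨U, hUd⟩ : ∃ U, U = |u1| + |u2| := ⟨_, rfl⟩
  rw [← hUd] at hU ⊢
  have hp1 := abs_nonneg u1
  have hp2 := abs_nonneg u2
  have hU0 : 0 ≤ U := by linarith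
  have hU1 : |u1| ≤ U := by linarith
  have hU2 : |u2| ≤ U := by linarith
  have hV0 : 0 ≤ U ^ 2 := sq_nonneg U
  have hU3 : 0 ≤ U ^ 3 := by positivity
  obtain ⟨ε, hε⟩ : ∃ ε, ε = κ * U ^ 6 := ⟨_, rfl⟩
  have hε0 : 0 ≤ ε := by rw [hε]; positivity
  have hε1 : ε ≤ 1 / 10 ^ 6 := by rw [hε]; exact hU
  have hp : |u1| * |u2| ≤ U ^ 2 := by
    calc |u1| * |u2| ≤ U * U := by gcongr
      _ = U ^ 2 := by ring
  have hpp : 0 ≤ |u1| * |u2| := mul_nonneg hp1 hp2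
  -- bounds for w1, w2
  have hb1 : |w1| ≤ 2 * U ^ 3 := n1.trans (by gcongr)
  have hb2 : |w2| ≤ 2 * U ^ 3 := n2.trans (by gcongr)
  have hb12 : |w1| + |w2| ≤ 2 * U ^ 3 := by
    have h1 : |u1| ^ 3 + |u2| ^ 3 ≤ U ^ 3 := by
      rw [hUd]
      exact MF_cube _ _ hp1 hp2
    linarith
  -- the curve at the first point
  have hcv1 : w1 = u1 ^ 3 + B * w1 ^ 3 := by
    rw [hw1, hu1]
    field_simp
    linarith
  -- the line
  have hl1 : l * u1 + c * w1 = 1 := by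
    rw [hu1, hw1]; field_simp; linarith
  -- the bracket
  have key : -l * (1 - B * (w1 ^ 2 + w1 * w2 + w2 ^ 2)) = c * (u1 ^ 2 + u1 * u2 + u2 ^ 2) := by
    have h := MF_ident B x1 y1 x2 y2 x3 l c e1 e2 hx3 V1 V2
    rw [hu1, hu2, hw1, hw2]
    field_simp
    linarith
  have hq : |w1 ^ 2 + w1 * w2 + w2 ^ 2| ≤ (2 * U ^ 3) ^ 2 := by
    refine (MF_form w1 w2).trans ?_
    have := abs_nonneg w1
    have := abs_nonneg w2
    gcongr
  have hBr2 : |B * (w1 ^ 2 + w1 * w2 + w2 ^ 2)| ≤ 1 / 1000 := by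
    rw [abs_mul]
    calc |B| * |w1 ^ 2 + w1 * w2 + w2 ^ 2| ≤ κ * (2 * U ^ 3) ^ 2 := by gcongr
      _ = 4 * ε := by rw [hε]; ring
      _ ≤ 1 / 1000 := by linarith
  obtain ⟨Br, hBrd⟩ : ∃ Br, Br = 1 - B * (w1 ^ 2 + w1 * w2 + w2 ^ 2) := ⟨_, rfl⟩
  have hBr : 99 / 100 ≤ Br := by
    have h2 := (abs_le.mp hBr2).2
    rw [hBrd]
    linarith
  obtain ⟨Rt, hRtd⟩ : ∃ Rt, Rt = u1 ^ 2 + u1 * u2 + u2 ^ 2 := ⟨_, rfl⟩
  rw [← hBrd, ← hRtd] at key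
  have hRt : |Rt| ≤ U ^ 2 := by
    rw [hRtd, hUd]
    exact MF_form u1 u2
  have hBr0 : Br ≠ 0 := by linarith
  have hc : c ≠ 0 := by
    intro hc
    rw [hc, zero_mul] at key
    have hl : l = 0 := by
      rcases mul_eq_zero.mp key with h | h
      · linarith
      · linarith
    rw [hc, hl] at hl1
    linarith
  obtain ⟨lam, hlam⟩ : ∃ lam, lam = -l / c := ⟨_, rfl⟩
  obtain ⟨nu, hnu⟩ : ∃ nu, nu = 1 / c := ⟨_, rfl⟩
  have hlB : lam * Br = Rt := by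
    rw [hlam, div_mul_eq_mul_div, key, mul_comm c Rt, mul_div_assoc, div_self hc, mul_one]
  have hlamb : |lam| ≤ 102 / 100 * U ^ 2 := by
    have h1 : |lam| * Br = |Rt| := by
      rw [← hlB, abs_mul, abs_of_nonneg (by linarith : (0 : ℝ) ≤ Br)]
    have h2 := mul_le_mul_of_nonneg_left hBr (abs_nonneg lam)
    linarith
  have hnu1 : nu = w1 - lam * u1 := by
    rw [hnu, hlam]
    field_simp
    linarith
  have hBw : |B * w1 ^ 2| ≤ 1 / 1000 := by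
    rw [abs_mul, abs_pow]
    calc |B| * |w1| ^ 2 ≤ κ * (2 * U ^ 3) ^ 2 := by gcongr
      _ = 4 * ε := by rw [hε]; ring
      _ ≤ 1 / 1000 := by linarith
  have hD : 99 / 100 ≤ 1 - B * w1 ^ 2 := by
    have h2 := (abs_le.mp hBw).2
    linarith
  have hnub : |nu| ≤ 11 / 10 * U * (|u1| * |u2|) := by
    rw [hnu1, MF_nu B u1 u2 w1 w2 lam Br hBrd hBr0 hcv1 (by rw [hlB, hRtd]) (by linarith)]
    have h1 : |-(u1 * u2 * (u1 + u2)) / Br| ≤ 102 / 100 * (U * (|u1| * |u2|)) := by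
      rw [abs_div, abs_neg, abs_of_pos (by linarith : (0 : ℝ) < Br), div_le_iff₀ (by linarith), abs_mul, abs_mul]
      have h2 : |u1 + u2| ≤ U := by rw [hUd]; exact abs_add_le _ _
      have h3 : 0 ≤ U * (|u1| * |u2|) := mul_nonneg hU0 hpp
      calc |u1| * |u2| * |u1 + u2| ≤ |u1| * |u2| * U := by gcongr
        _ = U * (|u1| * |u2|) := by ring
        _ ≤ 102 / 100 * (U * (|u1| * |u2|)) * (99 / 100) := by linarith
        _ ≤ 102 / 100 * (U * (|u1| * |u2|)) * Br := by gcongr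
    have h2 : |B * u1 ^ 3 * (w2 * (w1 + w2)) / (Br * (1 - B * w1 ^ 2))| ≤ 1 / 100 * (U * (|u1| * |u2|)) := by
      have hD2 : 98 / 100 ≤ Br * (1 - B * w1 ^ 2) := by
        have := mul_le_mul hBr hD (by norm_num) (by linarith)
        linarith
      rw [abs_div, abs_of_pos (by linarith : (0 : ℝ) < Br * (1 - B * w1 ^ 2)), div_le_iff₀ (by linarith),
        abs_mul, abs_mul, abs_mul, abs_pow]
      have h3 : |w1 + w2| ≤ 2 * U ^ 3 := (abs_add_le _ _).trans hb12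
      have h4 : 0 ≤ U * (|u1| * |u2|) := mul_nonneg hU0 hpp
      calc |B| * |u1| ^ 3 * (|w2| * |w1 + w2|) ≤ κ * |u1| ^ 3 * (2 * |u2| ^ 3 * (2 * U ^ 3)) := by gcongr
        _ = 4 * κ * U ^ 3 * (|u1| * |u2|) ^ 2 * (|u1| * |u2|) := by ring
        _ ≤ 4 * κ * U ^ 3 * (U ^ 2) ^ 2 * (|u1| * |u2|) := by gcongr
        _ = 4 * ε * (U * (|u1| * |u2|)) := by rw [hε]; ring
        _ ≤ 4 * (1 / 10 ^ 6) * (U * (|u1| * |u2|)) := by gcongr
        _ ≤ 1 / 100 * (U * (|u1| * |u2|)) * (98 / 100) := by linarith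
        _ ≤ 1 / 100 * (U * (|u1| * |u2|)) * (Br * (1 - B * w1 ^ 2)) := by gcongr
    have h4 : 0 ≤ U * (|u1| * |u2|) := mul_nonneg hU0 hpp
    refine (abs_sub _ _).trans ?_
    linarith
  have hnub2 : |nu| ≤ 11 / 10 * U ^ 3 := by
    refine hnub.trans ?_
    calc 11 / 10 * U * (|u1| * |u2|) ≤ 11 / 10 * U * U ^ 2 := by gcongr
      _ = 11 / 10 * U ^ 3 := by ring
  -- the third ordinate
  obtain ⟨K0, hK0d⟩ : ∃ K0, K0 = 1 + B * lam ^ 3 := ⟨_, rfl⟩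
  have hK0 : 9 / 10 ≤ K0 := by
    have h2 : |B * lam ^ 3| ≤ 1 / 100 := by
      rw [abs_mul, abs_pow]
      calc |B| * |lam| ^ 3 ≤ κ * (102 / 100 * U ^ 2) ^ 3 := by gcongr
        _ = (102 / 100) ^ 3 * ε := by rw [hε]; ring
        _ ≤ (102 / 100) ^ 3 * (1 / 10 ^ 6) := by gcongr
        _ ≤ 1 / 100 := by norm_num
    have h4 := (abs_le.mp h2).1
    rw [hK0d]
    linarith
  have hprod : y1 * y2 * (l * x3 + c) = c ^ 3 * K0 := by
    rw [e1, e2, MF_prod B x1 x2 x3 l c hx3 V1 V2, hK0d, hlam]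
    field_simp
    ring
  have hl3 : l * x3 + c ≠ 0 := by
    intro h
    rw [h, mul_zero] at hprod
    have : c ^ 3 * K0 ≠ 0 := mul_ne_zero (pow_ne_zero 3 hc) (by linarith)
    exact this hprod.symm
  have hy3' : y3 ≠ 0 := by
    rw [hy3]
    exact neg_ne_zero.mpr hl3
  -- the sum of the parameters
  have hsum : x3 / y3 - u1 - u2 = (3 * B * lam ^ 2) * nu / K0 := by
    have hK0' : K0 ≠ 0 := by linarith
    have hn := MF_num B x1 x2 x3 l c hx3 V1 V2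
    have h1 : x3 / y3 - u1 - u2 = -((x1 * (l * x2 + c) * (l * x3 + c) + x2 * (l * x1 + c) * (l * x3 + c) +
        x3 * (l * x1 + c) * (l * x2 + c)) / (y1 * y2 * (l * x3 + c))) := by
      rw [hy3, hu1, hu2, ← e1, ← e2]
      exact MF_frac x1 x2 x3 y1 y2 (l * x3 + c) hy1 hy2 hl3
    rw [h1, hn, hprod, hlam, hnu]
    field_simp
  have herr : |x3 / y3 - u1 - u2| ≤ 4 * κ * U ^ 5 * (|u1| * |u2|) := by
    rw [hsum, abs_div, abs_of_pos (by linarith : (0 : ℝ) < K0), div_le_iff₀ (by linarith), abs_mul]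
    have h1 : |3 * B * lam ^ 2| ≤ 3 * κ * (102 / 100 * U ^ 2) ^ 2 := by
      rw [abs_mul, abs_mul, abs_pow, abs_of_pos (by norm_num : (0 : ℝ) < 3)]
      gcongr
    calc |3 * B * lam ^ 2| * |nu| ≤ 3 * κ * (102 / 100 * U ^ 2) ^ 2 * (11 / 10 * U * (|u1| * |u2|)) := by
          gcongr
      _ = κ * U ^ 5 * (|u1| * |u2|) * (3 * (102 / 100) ^ 2 * (11 / 10)) := by ring
      _ ≤ κ * U ^ 5 * (|u1| * |u2|) * (4 * (9 / 10)) :=
        mul_le_mul_of_nonneg_left (by norm_num) (by positivity)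
      _ = 4 * κ * U ^ 5 * (|u1| * |u2|) * (9 / 10) := by ring
      _ ≤ 4 * κ * U ^ 5 * (|u1| * |u2|) * K0 := by gcongr
  have hu3 : |x3 / y3| ≤ 11 / 10 * U := by
    have h1 : |x3 / y3| ≤ |x3 / y3 - u1 - u2| + (|u1| + |u2|) := by
      calc |x3 / y3| = |(x3 / y3 - u1 - u2) + (u1 + u2)| := by congr 1; ring
        _ ≤ |x3 / y3 - u1 - u2| + |u1 + u2| := abs_add_le _ _
        _ ≤ _ := by gcongr; exact abs_add_le _ _
    have h2 : 4 * κ * U ^ 5 * (|u1| * |u2|) ≤ 1 / 10 * U := by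
      calc 4 * κ * U ^ 5 * (|u1| * |u2|) ≤ 4 * κ * U ^ 5 * U ^ 2 := by gcongr
        _ = 4 * ε * U := by rw [hε]; ring
        _ ≤ 4 * (1 / 10 ^ 6) * U := by gcongr
        _ ≤ 1 / 10 * U := by linarith
    rw [← hUd] at h1
    linarith
  obtain ⟨u3, hu3d⟩ : ∃ u, u = x3 / y3 := ⟨_, rfl⟩
  obtain ⟨w3, hw3d⟩ : ∃ u, u = 1 / y3 := ⟨_, rfl⟩
  have hw3 : w3 = lam * u3 - nu := by
    rw [hw3d, hu3d, hlam, hnu]
    field_simp
    rw [hy3]
    ring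
  have hw3b : |w3| ≤ 3 * U ^ 3 := by
    rw [hw3]
    rw [← hu3d] at hu3
    calc |lam * u3 - nu| ≤ |lam * u3| + |nu| := abs_sub _ _
      _ ≤ 102 / 100 * U ^ 2 * (11 / 10 * U) + 11 / 10 * U ^ 3 := by
        rw [abs_mul]
        gcongr
      _ = 2222 / 1000 * U ^ 3 := by ring
      _ ≤ 3 * U ^ 3 := by linarith
  have hcv : w3 = u3 ^ 3 + B * w3 ^ 3 := by
    have h := MF_third B x1 x2 x3 l c hx3 V1 V2
    have h2 : y3 ^ 2 = x3 ^ 3 + B := by rw [hy3, neg_sq]; exact h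
    rw [hw3d, hu3d]
    field_simp
    linarith
  refine ⟨⟨hy3', ?_⟩, herr.trans ?_⟩
  · rw [← hu3d, ← hw3d]
    rw [← hu3d] at hu3
    have h1 : |w3| ≤ |u3| ^ 3 + |B| * |w3| ^ 3 := by
      calc |w3| = |u3 ^ 3 + B * w3 ^ 3| := by rw [← hcv]
        _ ≤ |u3 ^ 3| + |B * w3 ^ 3| := abs_add_le _ _
        _ = _ := by rw [abs_mul, abs_pow, abs_pow]
    have h3 : |B| * |w3| ^ 3 ≤ 1 / 4 * |w3| := by
      calc |B| * |w3| ^ 3 = |B| * |w3| ^ 2 * |w3| := by ring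
        _ ≤ κ * (3 * U ^ 3) ^ 2 * |w3| := by gcongr
        _ = 9 * ε * |w3| := by rw [hε]; ring
        _ ≤ 9 * (1 / 10 ^ 6) * |w3| := by gcongr
        _ ≤ 1 / 4 * |w3| := by linarith [abs_nonneg w3]
    have h4 : 0 ≤ |u3| ^ 3 := by positivity
    linarith
  · have : 0 ≤ κ * U ^ 5 * (|u1| * |u2|) := by positivity
    have h5 : 100 * κ * U ^ 5 * |u1| * |u2| = 100 * (κ * U ^ 5 * (|u1| * |u2|)) := by ring
    rw [h5]
    linarith

private lemma MF_eq {k : ℤ} {x y : ℚ} (h : (E 0 k).toAffine.Nonsingular x y) :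
    y ^ 2 = x ^ 3 + k := by
  have h1 := (Affine.equation_iff _ _).mp h.left
  simp only at h1
  push_cast at h1
  linarith

theorem near_addM {k : ℤ} (R S : Pt 0 k) (hR : Near R) (hS : Near S)
    (h : |(k : ℝ)| * (|uu R| + |uu S|) ^ 6 ≤ 1 / 10 ^ 6) :
    Near (R + S) ∧ |uu (R + S) - uu R - uu S| ≤
      100 * |(k : ℝ)| * (|uu R| + |uu S|) ^ 5 * |uu R| * |uu S| := by
  have hpos : 0 ≤ 100 * |(k : ℝ)| * (|uu R| + |uu S|) ^ 5 * |uu R| * |uu S| := by positivity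
  rcases R with _ | ⟨x1, y1, h1⟩
  · have e : ((Affine.Point.zero : Pt 0 k) + S) = S := zero_add S
    rw [e]
    refine ⟨hS, ?_⟩
    have e2 : uu (Affine.Point.zero : Pt 0 k) = 0 := rfl
    rw [e2] at hpos ⊢
    rw [sub_zero, sub_self, abs_zero (α := ℝ)]
    rw [abs_zero] at hpos
    exact hpos
  rcases S with _ | ⟨x2, y2, h2⟩
  · have e : ((Affine.Point.some x1 y1 h1 : Pt 0 k) + Affine.Point.zero) = Affine.Point.some x1 y1 h1 :=
      add_zero _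
    rw [e]
    refine ⟨hR, ?_⟩
    have e2 : uu (Affine.Point.zero : Pt 0 k) = 0 := rfl
    rw [e2] at hpos ⊢
    rw [sub_zero, sub_self, abs_zero (α := ℝ)]
    rw [abs_zero] at hpos
    exact hpos
  have q1 := MF_eq h1
  have q2 := MF_eq h2
  obtain ⟨hy1, n1⟩ := hR
  obtain ⟨hy2, n2⟩ := hS
  by_cases hxy : x1 = x2 ∧ y1 = (E 0 k).toAffine.negY x2 y2
  · have e : (Affine.Point.some x1 y1 h1 : Pt 0 k) + Affine.Point.some x2 y2 h2 = 0 :=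
      Affine.Point.add_of_Y_eq hxy.1 hxy.2
    rw [e]
    refine ⟨trivial, ?_⟩
    have e2 : uu (0 : Pt 0 k) = 0 := rfl
    have e3 : y1 = -y2 := by
      have := hxy.2
      simp only [Affine.negY] at this
      linarith
    have e4 : uu (Affine.Point.some x1 y1 h1 : Pt 0 k) = ((x1 : ℚ) : ℝ) / ((y1 : ℚ) : ℝ) := rfl
    have e5 : uu (Affine.Point.some x2 y2 h2 : Pt 0 k) = ((x2 : ℚ) : ℝ) / ((y2 : ℚ) : ℝ) := rfl
    have e6 : uu (0 : Pt 0 k) - uu (Affine.Point.some x1 y1 h1 : Pt 0 k) -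
        uu (Affine.Point.some x2 y2 h2 : Pt 0 k) = 0 := by
      rw [e2, e4, e5, hxy.1, e3]
      push_cast
      rw [div_neg]
      ring
    rw [e6, abs_zero]
    exact hpos
  · -- the line through the two points
    have e : (Affine.Point.some x1 y1 h1 : Pt 0 k) + Affine.Point.some x2 y2 h2 = _ :=
      Affine.Point.add_some hxy
    rw [e]
    obtain ⟨l, hl⟩ : ∃ l, l = (E 0 k).toAffine.slope x1 x2 y1 y2 := ⟨_, rfl⟩
    obtain ⟨x3, hx3⟩ : ∃ x3, x3 = (E 0 k).toAffine.addX x1 x2 ((E 0 k).toAffine.slope x1 x2 y1 y2) := ⟨_, rfl⟩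
    obtain ⟨y3, hy3⟩ : ∃ y3, y3 = (E 0 k).toAffine.addY x1 x2 y1 ((E 0 k).toAffine.slope x1 x2 y1 y2) := ⟨_, rfl⟩
    obtain ⟨c, hc⟩ : ∃ c, c = y1 - l * x1 := ⟨_, rfl⟩
    have hx3' : x3 = l ^ 2 - x1 - x2 := by
      rw [hx3, ← hl]
      simp only [Affine.addX]
      ring
    have hy3' : y3 = -(l * x3 + c) := by
      rw [hy3, ← hl]
      simp only [Affine.addY, Affine.negY, Affine.negAddY]
      rw [← hl] at hx3
      rw [← hx3, hc]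
      ring
    have e1 : y1 = l * x1 + c := by rw [hc]; ring
    -- slope
    have hsl : y2 = l * x2 + c ∧ x1 * x2 + x1 * x3 + x2 * x3 = -2 * l * c := by
      by_cases hx : x1 = x2
      · have hy : y1 ≠ (E 0 k).toAffine.negY x2 y2 := fun hy => hxy ⟨hx, hy⟩
        have hyy : y1 = y2 := by
          have h3 : (y1 - y2) * (y1 + y2) = 0 := by
            have : y1 ^ 2 = y2 ^ 2 := by rw [q1, q2, hx]
            linarith
          rcases mul_eq_zero.mp h3 with h4 | h4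
          · linarith
          · exfalso
            apply hy
            simp only [Affine.negY]
            linarith
        have hl' : l * (2 * y1) = 3 * x1 ^ 2 := by
          rw [hl, Affine.slope_of_Y_ne hx hy]
          simp only [Affine.negY]
          have h2y : y1 - (-y1 - 0 * x1 - 0) ≠ 0 := by
            intro h5
            apply hy1
            linarith
          rw [div_mul_eq_mul_div, div_eq_iff h2y]
          push_cast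
          ring
        refine ⟨by rw [← hyy, ← hx]; exact e1, ?_⟩
        rw [hx3', ← hx, hc]
        linarith
      · have hl' : l * (x1 - x2) = y1 - y2 := by
          rw [hl, Affine.slope_of_X_ne hx, div_mul_cancel₀ _ (sub_ne_zero.mpr hx)]
        have e2 : y2 = l * x2 + c := by rw [hc]; linarith
        refine ⟨e2, ?_⟩
        have h3 : (x1 - x2) * (x1 * x2 + x1 * x3 + x2 * x3 - (-2 * l * c)) = 0 := by
          rw [hx3']
          have h4 : (l * x1 + c) ^ 2 - (l * x2 + c) ^ 2 = (x1 ^ 3 + k) - (x2 ^ 3 + k) := by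
            rw [← e1, ← e2, q1, q2]
          linarith
        rcases mul_eq_zero.mp h3 with h4 | h4
        · exact absurd (sub_eq_zero.mp h4) hx
        · linarith
    obtain ⟨e2, V1⟩ := hsl
    have V2 : x1 * x2 * x3 = c ^ 2 - k := by
      have h4 : (l * x1 + c) ^ 2 = x1 ^ 3 + k := by rw [← e1, q1]
      have h5 : (0 : ℚ) = x1 * x2 + x1 * x3 + x2 * x3 + 2 * l * c := by linarith
      have h6 : x1 ^ 3 = x1 ^ 3 + x1 * (x1 * x2 + x1 * x3 + x2 * x3 + 2 * l * c) := by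
        rw [← h5]; ring
      rw [h6] at h4
      rw [hx3'] at h4 ⊢
      linarith
    have hmain := MF_core (k : ℝ) |(k : ℝ)| (x1 : ℝ) (y1 : ℝ) (x2 : ℝ) (y2 : ℝ) (x3 : ℝ) (y3 : ℝ) (l : ℝ) (c : ℝ)
      (abs_nonneg _) le_rfl (by exact_mod_cast hy1) (by exact_mod_cast hy2) (by exact_mod_cast e1) (by exact_mod_cast e2)
      (by exact_mod_cast hx3') (by exact_mod_cast hy3') (by exact_mod_cast q1) (by exact_mod_cast V1)
      (by exact_mod_cast V2) n1 n2 h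
    obtain ⟨⟨g1, g2⟩, g3⟩ := hmain
    refine ⟨?_, ?_⟩
    · show (E 0 k).toAffine.addY x1 x2 y1 ((E 0 k).toAffine.slope x1 x2 y1 y2) ≠ 0 ∧ _
      rw [← hy3, ← hx3]
      exact ⟨by exact_mod_cast g1, g2⟩
    · show |(((E 0 k).toAffine.addX x1 x2 ((E 0 k).toAffine.slope x1 x2 y1 y2) : ℚ) : ℝ) /
        (((E 0 k).toAffine.addY x1 x2 y1 ((E 0 k).toAffine.slope x1 x2 y1 y2) : ℚ) : ℝ) - _ - _| ≤ _
      rw [← hy3, ← hx3]
      exact g3

end Pool.Agent.LibDM24
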