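import Pool.Agent.LibDM24.MF
import Pool.Agent.LibDP24.R2

/-!
ROW MG (SHORT/MEDIUM). Sums of many points near infinity on `y² = x³ + k` (cites MF and LibDP24.R2 `near_neg`, `uu_neg` as stated; compare
DP24_R2.lean by helper76).

PLAN. `near_listM` by induction on `l` with the error `48600 κ S⁶ * (∑ |uu|)` (`κ = |k|`): adding `R` to `l.sum`, `|uu l.sum| ≤ 2 S`, `|uu R| ≤ S`, `U ≤ 3 S`,
`κ U⁶ ≤ 729·10^-9 ≤ 10^-6`, new error `≤ 100 κ (3S)⁵ (2S) |uu R| = 48600 κ S⁶ |uu R|`; total `≤ 48600·10^-9 S ≤ S/100`. NO factor `l.length`.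
`near_zsumM`: the list with `|a i|` copies of `(sign a i) • P i`, exactly as in `Pool.Agent.LibDP24.near_zsum`.
-/

set_option autoImplicit false

open WeierstrassCurve Pool.Agent.LibDP24

namespace Pool.Agent.LibDM24

private theorem MG_zero_near {A B : ℤ} : Near (0 : Pt A B) := trivial

private theorem MG_zero_uu {A B : ℤ} : uu (0 : Pt A B) = 0 := rfl

private theorem MG_abs {A B : ℤ} (t : List (Pt A B)) :
    |(t.map uu).sum| ≤ (t.map fun R => |uu R|).sum := by
  induction t with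
  | nil => simp
  | cons R t ih =>
    rw [List.map_cons, List.sum_cons, List.map_cons, List.sum_cons]
    have := abs_add_le (uu R) ((t.map uu).sum)
    linarith

private theorem MG_nonneg {A B : ℤ} (t : List (Pt A B)) : 0 ≤ (t.map fun R => |uu R|).sum := by
  apply List.sum_nonneg
  intro x hx
  simp only [List.mem_map] at hx
  obtain ⟨q, _, rfl⟩ := hx
  exact abs_nonneg _

private theorem MG_step {k : ℤ} (S : ℝ) (hS0 : 0 ≤ S)
    (h : |(k : ℝ)| * S ^ 6 ≤ 1 / 10 ^ 9) (l : List (Pt 0 k)) :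
    (∀ R ∈ l, Near R) → (l.map fun R => |uu R|).sum ≤ S →
    Near l.sum ∧ |uu l.sum - (l.map uu).sum| ≤
      48600 * (|(k : ℝ)| * S ^ 6) * (l.map fun R => |uu R|).sum := by
  have hk0 : 0 ≤ |(k : ℝ)| := abs_nonneg _
  have hkS : 0 ≤ |(k : ℝ)| * S ^ 6 := by positivity
  induction l with
  | nil =>
    intro _ _
    refine ⟨MG_zero_near, ?_⟩
    simp [MG_zero_uu]
  | cons R t ih =>
    intro hl hs
    have hRn : Near R := hl R (by simp)
    have htn : ∀ R ∈ t, Near R := fun Q hQ => hl Q (by simp [hQ])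
    rw [List.map_cons, List.sum_cons] at hs
    have habs : 0 ≤ |uu R| := abs_nonneg _
    have habs2 : 0 ≤ (t.map fun R => |uu R|).sum := MG_nonneg t
    have hts : (t.map fun R => |uu R|).sum ≤ S := by linarith
    obtain ⟨h1, h2⟩ := ih htn hts
    have hte : 48600 * (|(k : ℝ)| * S ^ 6) * (t.map fun R => |uu R|).sum ≤ S := by
      have h3 : 48600 * (|(k : ℝ)| * S ^ 6) ≤ 1 := by
        have : (48600 : ℝ) * (1 / 10 ^ 9) ≤ 1 := by norm_num
        linarith
      have h4 : 48600 * (|(k : ℝ)| * S ^ 6) * (t.map fun R => |uu R|).sum ≤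
          1 * (t.map fun R => |uu R|).sum := mul_le_mul_of_nonneg_right h3 habs2
      linarith
    have hsum : |(t.map uu).sum| ≤ (t.map fun R => |uu R|).sum := MG_abs t
    have hut : |uu t.sum| ≤ 2 * S := by
      have h3 : |uu t.sum| ≤ |uu t.sum - (t.map uu).sum| + |(t.map uu).sum| := by
        have := abs_add_le (uu t.sum - (t.map uu).sum) ((t.map uu).sum)
        simpa using this
      linarith
    have hU : |uu R| + |uu t.sum| ≤ 3 * S := by linarith
    have hU0 : 0 ≤ |uu R| + |uu t.sum| := by positivity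
    have hU6 : |(k : ℝ)| * (|uu R| + |uu t.sum|) ^ 6 ≤ 1 / 10 ^ 6 := by
      have h3 : (|uu R| + |uu t.sum|) ^ 6 ≤ (3 * S) ^ 6 := pow_le_pow_left₀ hU0 hU 6
      have h4 := mul_le_mul_of_nonneg_left h3 hk0
      have h5 : |(k : ℝ)| * (3 * S) ^ 6 = 729 * (|(k : ℝ)| * S ^ 6) := by ring
      rw [h5] at h4
      have : (729 : ℝ) * (1 / 10 ^ 9) ≤ 1 / 10 ^ 6 := by norm_num
      linarith
    obtain ⟨h6, h7⟩ := near_addM R t.sum hRn h1 hU6
    have hU5 : 100 * |(k : ℝ)| * (|uu R| + |uu t.sum|) ^ 5 * |uu R| * |uu t.sum| ≤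
        48600 * (|(k : ℝ)| * S ^ 6) * |uu R| := by
      have h3 : (|uu R| + |uu t.sum|) ^ 5 ≤ (3 * S) ^ 5 := pow_le_pow_left₀ hU0 hU 5
      have h4 : 100 * |(k : ℝ)| * (|uu R| + |uu t.sum|) ^ 5 ≤ 100 * |(k : ℝ)| * (3 * S) ^ 5 :=
        mul_le_mul_of_nonneg_left h3 (by positivity)
      have h5 : 100 * |(k : ℝ)| * (|uu R| + |uu t.sum|) ^ 5 * |uu R| ≤
          100 * |(k : ℝ)| * (3 * S) ^ 5 * |uu R| := mul_le_mul_of_nonneg_right h4 habs
      have h8 : 100 * |(k : ℝ)| * (|uu R| + |uu t.sum|) ^ 5 * |uu R| * |uu t.sum| ≤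
          100 * |(k : ℝ)| * (3 * S) ^ 5 * |uu R| * (2 * S) :=
        mul_le_mul h5 hut (abs_nonneg _) (by positivity)
      have h9 : 100 * |(k : ℝ)| * (3 * S) ^ 5 * |uu R| * (2 * S) =
          48600 * (|(k : ℝ)| * S ^ 6) * |uu R| := by ring
      linarith
    refine ⟨by rw [List.sum_cons]; exact h6, ?_⟩
    rw [List.sum_cons, List.map_cons, List.sum_cons, List.map_cons, List.sum_cons]
    have h8 : uu (R + t.sum) - (uu R + (t.map uu).sum) =
        (uu (R + t.sum) - uu R - uu t.sum) + (uu t.sum - (t.map uu).sum) := by ring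
    rw [h8, mul_add]
    have h9 := abs_add_le (uu (R + t.sum) - uu R - uu t.sum) (uu t.sum - (t.map uu).sum)
    linarith

theorem near_listM {k : ℤ} (l : List (Pt 0 k)) (hl : ∀ R ∈ l, Near R) (S : ℝ)
    (hS : (l.map fun R => |uu R|).sum ≤ S) (h : |(k : ℝ)| * S ^ 6 ≤ 1 / 10 ^ 9) :
    Near l.sum ∧ |uu l.sum - (l.map uu).sum| ≤ S / 100 := by
  have habs2 : 0 ≤ (l.map fun R => |uu R|).sum := MG_nonneg l
  have hS0 : 0 ≤ S := habs2.trans hS
  obtain ⟨h1, h2⟩ := MG_step S hS0 h l hl hS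
  refine ⟨h1, h2.trans ?_⟩
  have h3 : 48600 * (|(k : ℝ)| * S ^ 6) ≤ 1 / 100 := by
    have : (48600 : ℝ) * (1 / 10 ^ 9) ≤ 1 / 100 := by norm_num
    linarith
  have h4 : 48600 * (|(k : ℝ)| * S ^ 6) * (l.map fun R => |uu R|).sum ≤
      1 / 100 * (l.map fun R => |uu R|).sum := mul_le_mul_of_nonneg_right h3 habs2
  linarith

private theorem MG_flat {X M : Type*} [AddCommMonoid M] {m : ℕ} (k : Fin m → ℕ) (Q : Fin m → X)
    (g : X → M) :
    (((List.finRange m).flatMap fun i => List.replicate (k i) (Q i)).map g).sum =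
      ∑ i, k i • g (Q i) := by
  rw [Fin.sum_univ_def]
  induction (List.finRange m) with
  | nil => simp
  | cons i t ih =>
    rw [List.flatMap_cons, List.map_append, List.sum_append, ih, List.map_cons, List.sum_cons,
      List.map_replicate, List.sum_replicate]

theorem near_zsumM {k : ℤ} {m : ℕ} (P : Fin m → Pt 0 k) (a : Fin m → ℤ) (hP : ∀ i, Near (P i))
    (S : ℝ) (hS : ∑ i, |(a i : ℝ)| * |uu (P i)| ≤ S) (h : |(k : ℝ)| * S ^ 6 ≤ 1 / 10 ^ 9) :
    Near (∑ i, a i • P i) ∧ |uu (∑ i, a i • P i) - ∑ i, (a i : ℝ) * uu (P i)| ≤ S / 100 := by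
  classical
  set Q : Fin m → Pt 0 k := fun i => if a i < 0 then -P i else P i with hQ
  set L : List (Pt 0 k) := (List.finRange m).flatMap fun i => List.replicate (a i).natAbs (Q i)
    with hL
  have hsum : L.sum = ∑ i, a i • P i := by
    have h1 := MG_flat (fun i => (a i).natAbs) Q (id : Pt 0 k → Pt 0 k)
    rw [List.map_id] at h1
    rw [hL, h1]
    refine Finset.sum_congr rfl fun i _ => ?_
    simp only [id, hQ]
    rcases lt_or_ge (a i) 0 with h0 | h0
    · rw [if_pos h0]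
      have h2 : a i = -((a i).natAbs : ℤ) := by omega
      conv_rhs => rw [h2]
      rw [neg_smul, natCast_zsmul, neg_nsmul]
    · rw [if_neg (not_lt.2 h0)]
      have h2 : a i = ((a i).natAbs : ℤ) := by omega
      conv_rhs => rw [h2]
      rw [natCast_zsmul]
  have huu : (L.map uu).sum = ∑ i, (a i : ℝ) * uu (P i) := by
    rw [hL, MG_flat (fun i => (a i).natAbs) Q uu]
    refine Finset.sum_congr rfl fun i _ => ?_
    simp only [hQ]
    rcases lt_or_ge (a i) 0 with h0 | h0
    · rw [if_pos h0, uu_neg, nsmul_eq_mul]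
      have h2 : (a i : ℝ) = -((a i).natAbs : ℝ) := by
        have h3 : a i = -((a i).natAbs : ℤ) := by omega
        have h4 := congrArg (fun z : ℤ => (z : ℝ)) h3
        push_cast at h4
        simpa using h4
      rw [h2]
      ring
    · rw [if_neg (not_lt.2 h0), nsmul_eq_mul]
      have h2 : (a i : ℝ) = ((a i).natAbs : ℝ) := by
        have h3 : a i = ((a i).natAbs : ℤ) := by omega
        have h4 := congrArg (fun z : ℤ => (z : ℝ)) h3
        push_cast at h4
        simpa using h4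
      rw [h2]
  have habs : (L.map fun R => |uu R|).sum = ∑ i, |(a i : ℝ)| * |uu (P i)| := by
    rw [hL, MG_flat (fun i => (a i).natAbs) Q (fun R => |uu R|)]
    refine Finset.sum_congr rfl fun i _ => ?_
    have h1 : |uu (Q i)| = |uu (P i)| := by
      simp only [hQ]
      split_ifs
      · rw [uu_neg, abs_neg]
      · rfl
    show (a i).natAbs • |uu (Q i)| = |(a i : ℝ)| * |uu (P i)|
    rw [h1, nsmul_eq_mul, Nat.cast_natAbs, Int.cast_abs]
  have hnear : ∀ R ∈ L, Near R := by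
    intro R hR
    rw [hL, List.mem_flatMap] at hR
    obtain ⟨i, _, hi⟩ := hR
    rw [List.eq_of_mem_replicate hi]
    simp only [hQ]
    split_ifs
    · exact near_neg (hP i)
    · exact hP i
  have := near_listM L hnear S (by rw [habs]; exact hS) h
  rw [hsum, huu] at this
  exact this

end Pool.Agent.LibDM24
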