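import Pool.Agent.LibDM24.MD

/-!
ROW MH (SHORT/MEDIUM). Sizes near infinity, scaled (cites MD, LibDP24.H3; compare LibDP24/R3.lean, DP24_R3.lean by helper21).

PLAN. `near_xM`: `w = u³ + k w³`, `|w| ≤ 2|u|³`, so `|w - u³| ≤ 8 κ u⁶ * |u|³ ≤ |u|³/100`, `u ≠ 0`, `x u² = u³/w`.
`near_intM`: `y² = x³ + k ∈ [0.99 x³, 1.01 x³]`, `x > 0` because `x³ > 0`; `x u² = x³/y²`; `|1/y| ≤ 2|x|³/|y|³` iff `y² ≤ 2x³`.
`torsion_zeroM`: `c = min (10^-6) (exp (-3 C₀) / 16)`. `hh T = 0` (`hh_of_finite`). If `T = some x y`, `near_xM` gives `x ≥ 1/(2u²)`, `x³ ≥ 1/(8u⁶) ≥ κ/(8c) ≥ 2 exp (3C₀) κ`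
(`uu T ≠ 0` because `Near` and `y ≠ 0`), against `canM_ge` (`log x - (1/3) log κ - C₀ ≤ 0`).
`x_geM`: `x³ = y² - k ≥ -κ`, so `x³ < -κ` is impossible.
-/

set_option autoImplicit false

open WeierstrassCurve Pool.Agent.LibDP24

namespace Pool.Agent.LibDM24

private theorem MH_eqn {k : ℤ} {x y : ℚ} (h : (E 0 k).toAffine.Nonsingular x y) :
    (y : ℝ) ^ 2 = (x : ℝ) ^ 3 + (k : ℝ) := by
  have h1 := (Affine.equation_iff _ _).mp h.1
  have h2 : y ^ 2 = x ^ 3 + (k : ℚ) := by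
    simpa using h1
  exact_mod_cast congrArg (fun q : ℚ => (q : ℝ)) h2

private theorem MH_nearx_real {b x y u : ℝ} (hE : y ^ 2 = x ^ 3 + b) (hy : y ≠ 0)
    (hu : u = x / y) (hN : |1 / y| ≤ 2 * |u| ^ 3) (hs : |b| * u ^ 6 ≤ 1 / 10 ^ 6) :
    1 / 2 ≤ x * u ^ 2 ∧ x * u ^ 2 ≤ 2 ∧ u ≠ 0 := by
  have hb := abs_nonneg b
  obtain ⟨w, hw⟩ : ∃ w, w = 1 / y := ⟨_, rfl⟩
  have hw0 : w ≠ 0 := by rw [hw]; exact one_div_ne_zero hy
  rw [← hw] at hN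
  have hyw : y = 1 / w := by rw [hw]; field_simp
  have hx : x = u / w := by
    rw [hu, hw]; field_simp
  have hW : w = u ^ 3 + b * w ^ 3 := by
    rw [hyw, hx] at hE
    field_simp at hE
    linarith
  have hu0 : u ≠ 0 := by
    intro h0
    rw [h0] at hN
    have : |w| ≤ 0 := by simpa using hN
    exact hw0 (abs_eq_zero.mp (le_antisymm this (abs_nonneg w)))
  have hup : 0 < |u| := abs_pos.mpr hu0
  have hs6 : |u| ^ 6 = u ^ 6 := by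
    calc |u| ^ 6 = (|u| ^ 2) ^ 3 := by ring
      _ = (u ^ 2) ^ 3 := by rw [sq_abs]
      _ = u ^ 6 := by ring
  have hw3 : |w| ^ 3 ≤ 8 * |u| ^ 9 := by
    have h1 : |w| ^ 3 ≤ (2 * |u| ^ 3) ^ 3 := pow_le_pow_left₀ (abs_nonneg w) hN 3
    calc |w| ^ 3 ≤ (2 * |u| ^ 3) ^ 3 := h1
      _ = 8 * |u| ^ 9 := by ring
  have hu3 : 0 < |u| ^ 3 := by positivity
  have e5 : |w - u ^ 3| ≤ |u| ^ 3 * (1 / 50) := by
    have h1 : w - u ^ 3 = b * w ^ 3 := by linarith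
    rw [h1, abs_mul, abs_pow]
    calc |b| * |w| ^ 3 ≤ |b| * (8 * |u| ^ 9) := by gcongr
      _ = |u| ^ 3 * (8 * (|b| * |u| ^ 6)) := by ring
      _ = |u| ^ 3 * (8 * (|b| * u ^ 6)) := by rw [hs6]
      _ ≤ |u| ^ 3 * (1 / 50) := by
        apply mul_le_mul_of_nonneg_left _ hu3.le
        norm_num at hs ⊢
        linarith
  have hu3' : u ^ 3 ≠ 0 := pow_ne_zero 3 hu0
  obtain ⟨q, hq⟩ : ∃ q, q = w / u ^ 3 := ⟨_, rfl⟩
  have hwq : w = q * u ^ 3 := by rw [hq]; field_simp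
  have e6 : |q - 1| ≤ 1 / 50 := by
    have h1 : |w - u ^ 3| = |q - 1| * |u| ^ 3 := by
      rw [← abs_pow, ← abs_mul, hwq]
      congr 1
      ring
    rw [h1] at e5
    have h2 : |q - 1| * |u| ^ 3 ≤ (1 / 50) * |u| ^ 3 := by linarith
    exact le_of_mul_le_mul_right h2 hu3
  obtain ⟨q1, q2⟩ := abs_le.mp e6
  have hqp : 0 < q := by linarith
  have hxu : x * u ^ 2 = 1 / q := by
    rw [hx, hwq]
    field_simp
  rw [hxu]
  refine ⟨?_, ?_, hu0⟩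
  · rw [div_le_div_iff₀ (by norm_num) hqp]
    linarith
  · rw [div_le_iff₀ hqp]
    linarith

private theorem MH_int_real {b x y : ℝ} (hE : y ^ 2 = x ^ 3 + b) (hb : 0 < |b|)
    (hx : 10 ^ 6 * |b| ≤ x ^ 3) :
    y ≠ 0 ∧ |1 / y| ≤ 2 * |x / y| ^ 3 ∧ 1 / 2 ≤ x * (x / y) ^ 2 ∧ x * (x / y) ^ 2 ≤ 2 ∧ x / y ≠ 0 := by
  have hx3 : 0 < x ^ 3 := by
    have : 0 < (10 : ℝ) ^ 6 * |b| := by positivity
    linarith
  have hxp : 0 < x := by
    by_contra h0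
    push Not at h0
    have h1 : x ^ 3 ≤ 0 := by
      have h2 : x ^ 3 = x * x ^ 2 := by ring
      rw [h2]
      exact mul_nonpos_of_nonpos_of_nonneg h0 (sq_nonneg x)
    linarith
  have h2 : |b| ≤ x ^ 3 / 100 := by
    norm_num at hx
    linarith
  obtain ⟨h3, h4⟩ := abs_le.mp h2
  have hy1 : 99 / 100 * x ^ 3 ≤ y ^ 2 := by rw [hE]; linarith
  have hy2 : y ^ 2 ≤ 101 / 100 * x ^ 3 := by rw [hE]; linarith
  have hyp : 0 < y ^ 2 := by linarith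
  have hy0 : y ≠ 0 := by
    intro h0
    rw [h0] at hyp
    simp at hyp
  have hay : 0 < |y| := abs_pos.mpr hy0
  refine ⟨hy0, ?_, ?_, ?_, div_ne_zero hxp.ne' hy0⟩
  · rw [abs_div, abs_div, abs_one, abs_of_pos hxp, div_pow, ← mul_div_assoc,
      div_le_div_iff₀ hay (by positivity)]
    have : |y| ^ 2 = y ^ 2 := sq_abs y
    calc 1 * |y| ^ 3 = |y| ^ 2 * |y| := by ring
      _ = y ^ 2 * |y| := by rw [this]
      _ ≤ (2 * x ^ 3) * |y| := by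
        apply mul_le_mul_of_nonneg_right _ hay.le
        linarith
  · rw [div_pow, ← mul_div_assoc, div_le_div_iff₀ (by norm_num) hyp]
    nlinarith
  · rw [div_pow, ← mul_div_assoc, div_le_iff₀ hyp]
    nlinarith

theorem near_xM {k : ℤ} {x y : ℚ} (h : (E 0 k).toAffine.Nonsingular x y)
    (hN : Near (Affine.Point.some x y h : Pt 0 k))
    (hu : |(k : ℝ)| * uu (Affine.Point.some x y h : Pt 0 k) ^ 6 ≤ 1 / 10 ^ 6) :
    1 / 2 ≤ (x : ℝ) * uu (Affine.Point.some x y h : Pt 0 k) ^ 2 ∧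
      (x : ℝ) * uu (Affine.Point.some x y h : Pt 0 k) ^ 2 ≤ 2 ∧
      uu (Affine.Point.some x y h : Pt 0 k) ≠ 0 := by
  obtain ⟨hy, hN⟩ := hN
  have hy' : (y : ℝ) ≠ 0 := by exact_mod_cast hy
  exact MH_nearx_real (b := (k : ℝ)) (x := (x : ℝ)) (y := (y : ℝ))
    (u := uu (Affine.Point.some x y h : Pt 0 k)) (MH_eqn h) hy' rfl hN hu

theorem near_intM {k x : ℤ} (hk : k ≠ 0) {R : Pt 0 k} (hR : IsInt R x)
    (hx : 10 ^ 6 * |(k : ℝ)| ≤ (x : ℝ) ^ 3) :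
    Near R ∧ 1 / 2 ≤ (x : ℝ) * uu R ^ 2 ∧ (x : ℝ) * uu R ^ 2 ≤ 2 ∧ uu R ≠ 0 ∧ R ≠ 0 := by
  obtain ⟨y, h, rfl⟩ := hR
  have hE := MH_eqn h
  have e1 : (((x : ℚ) : ℝ)) = (x : ℝ) := by push_cast; rfl
  have e2 : (((y : ℚ) : ℝ)) = (y : ℝ) := by push_cast; rfl
  rw [e1, e2] at hE
  have hk' : (k : ℝ) ≠ 0 := by exact_mod_cast hk
  obtain ⟨h1, h2, h3, h4, h5⟩ := MH_int_real (b := (k : ℝ)) hE (abs_pos.mpr hk') hx
  have hu : uu (Affine.Point.some (x : ℚ) (y : ℚ) h : Pt 0 k) = (x : ℝ) / (y : ℝ) := by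
    unfold uu
    simp only [e1, e2]
  refine ⟨⟨?_, ?_⟩, ?_, ?_, ?_, ?_⟩
  · intro h0
    apply h1
    have : y = 0 := by exact_mod_cast h0
    rw [this]; simp
  · rw [e1, e2]; exact h2
  · rw [hu]; exact h3
  · rw [hu]; exact h4
  · rw [hu]; exact h5
  · exact Affine.Point.some_ne_zero h

theorem torsion_zeroM (C₀ : ℝ) (hC₀ : 0 ≤ C₀) : ∃ c : ℝ, 0 < c ∧ ∀ k : ℤ, k ≠ 0 → ∀ hh : Pt 0 k → ℝ,
    IsCanM C₀ hh → ∀ T : Pt 0 k, IsOfFinAddOrder T → Near T → |(k : ℝ)| * uu T ^ 6 ≤ c → T = 0 := by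
  refine ⟨min (1 / 10 ^ 6) (Real.exp (-(3 * C₀)) / 16), lt_min (by norm_num) (by positivity), ?_⟩
  intro k hk hh hc T hT hN hu
  have h0 : hh T = 0 := hh_of_finite hc.par hT
  have hk' : (k : ℝ) ≠ 0 := by exact_mod_cast hk
  have hkp : 0 < |(k : ℝ)| := abs_pos.mpr hk'
  cases T with
  | zero => rfl
  | some x y h =>
    exfalso
    obtain ⟨hx1, _, hu0⟩ := near_xM h hN (hu.trans (min_le_left _ _))
    obtain ⟨u, hudef⟩ : ∃ u, u = uu (Affine.Point.some x y h : Pt 0 k) := ⟨_, rfl⟩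
    rw [← hudef] at hx1 hu0 hu
    have hu2 : 0 < u ^ 2 := by positivity
    have hxp : 0 < (x : ℝ) := by
      by_contra hneg
      push Not at hneg
      have : (x : ℝ) * u ^ 2 ≤ 0 := mul_nonpos_of_nonpos_of_nonneg hneg hu2.le
      linarith
    have hx0 : x ≠ 0 := by
      intro h1
      rw [h1] at hxp
      simp at hxp
    have hge := canM_ge hk hc h hx0
    rw [h0, abs_of_pos hxp] at hge
    have hu6 : |(k : ℝ)| * u ^ 6 ≤ Real.exp (-(3 * C₀)) / 16 := hu.trans (min_le_right _ _)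
    have hu6p : 0 < u ^ 6 := by positivity
    -- the cube of x
    have hcube : 1 / 8 ≤ (x : ℝ) ^ 3 * u ^ 6 := by
      have h1 : (1 / 2 : ℝ) ^ 3 ≤ ((x : ℝ) * u ^ 2) ^ 3 := pow_le_pow_left₀ (by norm_num) hx1 3
      calc (1 / 8 : ℝ) = (1 / 2) ^ 3 := by norm_num
        _ ≤ ((x : ℝ) * u ^ 2) ^ 3 := h1
        _ = (x : ℝ) ^ 3 * u ^ 6 := by ring
    have hlow : 2 * (Real.exp (3 * C₀) * |(k : ℝ)|) ≤ (x : ℝ) ^ 3 := by
      have h1 : 2 * (Real.exp (3 * C₀) * |(k : ℝ)|) * u ^ 6 ≤ (x : ℝ) ^ 3 * u ^ 6 := by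
        calc 2 * (Real.exp (3 * C₀) * |(k : ℝ)|) * u ^ 6
            = 2 * Real.exp (3 * C₀) * (|(k : ℝ)| * u ^ 6) := by ring
          _ ≤ 2 * Real.exp (3 * C₀) * (Real.exp (-(3 * C₀)) / 16) := by gcongr
          _ = (Real.exp (3 * C₀) * Real.exp (-(3 * C₀))) / 8 := by ring
          _ = 1 / 8 := by rw [← Real.exp_add]; simp
          _ ≤ (x : ℝ) ^ 3 * u ^ 6 := hcube
      exact le_of_mul_le_mul_right h1 hu6p
    have hep : 0 < Real.exp (3 * C₀) * |(k : ℝ)| := by positivity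
    have hlog : 3 * C₀ + Real.log |(k : ℝ)| < 3 * Real.log (x : ℝ) := by
      calc 3 * C₀ + Real.log |(k : ℝ)| = Real.log (Real.exp (3 * C₀) * |(k : ℝ)|) := by
            rw [Real.log_mul (Real.exp_pos _).ne' hkp.ne', Real.log_exp]
        _ < Real.log ((x : ℝ) ^ 3) := Real.log_lt_log hep (by linarith)
        _ = 3 * Real.log (x : ℝ) := by rw [Real.log_pow]; norm_num
    linarith

theorem x_geM {k x : ℤ} {R : Pt 0 k} (hR : IsInt R x) : -|(k : ℝ)| ≤ (x : ℝ) ^ 3 := by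
  obtain ⟨y, h, -⟩ := hR
  have hE := MH_eqn h
  have e1 : (((x : ℚ) : ℝ)) = (x : ℝ) := by push_cast; rfl
  rw [e1] at hE
  have h1 := sq_nonneg (((y : ℚ) : ℝ))
  have h2 := le_abs_self (k : ℝ)
  linarith

end Pool.Agent.LibDM24
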