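import Pool.Agent.LibDP24.H3
import Pool.Agent.LibDP24.D1

/-!
ROW MI (SHORT/MEDIUM). Small relations with the sharp exponent (`DP24_D2.lean` by helper80 with the Dirichlet theorem in `r` instead of `r + 1`
dimensions).

PLAN. As LibDP24/D2.lean: `m ≠ 0`, `∑ m i • P i = 0`, `|m i₀|` maximal, `c i = m i / m i₀`. Apply `dirichlet r` to the `r` numbers `c (i₀.succAbove j)`,
`j : Fin r`: `1 ≤ t ≤ L^r`, and put `a i₀ = t`, `a (i₀.succAbove j) = a' j`. Everything else is unchanged: `|a i| ≤ t |c i| + 1 ≤ L^r + 1`.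
-/

set_option autoImplicit false

namespace Pool.Agent.LibDM24

open Pool.Agent.LibDP24

theorem small_relation' {G : Type*} [AddCommGroup G] {hh : G → ℝ}
    (par : ∀ R S, hh (R + S) + hh (R - S) = 2 * hh R + 2 * hh S) (nonneg : ∀ R, 0 ≤ hh R)
    {lam Q : ℝ} (hlow : ∀ R, ¬ IsOfFinAddOrder R → lam ≤ hh R)
    {r : ℕ} (P : Fin (r + 1) → G) (hP : ¬ LinearIndependent ℤ P) (hQ : ∀ i, hh (P i) ≤ Q)
    (L : ℕ) (hL : 0 < L) (hLQ : ((r : ℝ) + 1) ^ 2 * Q < lam * (L : ℝ) ^ 2) :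
    ∃ a : Fin (r + 1) → ℤ, a ≠ 0 ∧ (∀ i, |a i| ≤ (L : ℤ) ^ r + 1) ∧
      IsOfFinAddOrder (∑ i, a i • P i) := by
  classical
  obtain ⟨m, hm, i1, hi1⟩ := Fintype.not_linearIndependent_iff.1 hP
  obtain ⟨i₀, -, hmax⟩ := Finset.exists_max_image (Finset.univ : Finset (Fin (r + 1))) (fun i => |m i|)
    ⟨0, Finset.mem_univ _⟩
  have hm0 : m i₀ ≠ 0 := by
    intro h
    have h1 := hmax i1 (Finset.mem_univ _)
    simp only [h, abs_zero] at h1
    exact hi1 (abs_eq_zero.1 (le_antisymm h1 (abs_nonneg _)))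
  have hm0R : (m i₀ : ℝ) ≠ 0 := by exact_mod_cast hm0
  have hm0P : 0 < |(m i₀ : ℝ)| := abs_pos.2 hm0R
  have hmaxR : ∀ i, |(m i : ℝ)| ≤ |(m i₀ : ℝ)| := by
    intro i
    have h1 := hmax i (Finset.mem_univ _)
    exact_mod_cast h1
  obtain ⟨t, ht1, ht2, a', ha⟩ := dirichlet r (fun j => (m (i₀.succAbove j) : ℝ) / m i₀) L hL
  have hLR : (0 : ℝ) < L := by exact_mod_cast hL
  have hL1 : (1 : ℝ) / L ≤ 1 := by
    rw [div_le_one hLR]
    exact_mod_cast hL
  have hQ0 : 0 ≤ Q := (nonneg (P 0)).trans (hQ 0)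
  have htR : (t : ℝ) ≤ (L : ℝ) ^ r := by exact_mod_cast ht2
  have ht0 : (0 : ℝ) ≤ t := by positivity
  -- the new coefficients
  obtain ⟨b, hb0, hbs⟩ : ∃ b : Fin (r + 1) → ℤ, b i₀ = t ∧ ∀ j, b (i₀.succAbove j) = a' j :=
    ⟨Fin.insertNth i₀ (t : ℤ) a', Fin.insertNth_apply_same _ _ _, fun j => Fin.insertNth_apply_succAbove _ _ _ _⟩
  have key : ∀ i, |(t : ℝ) * ((m i : ℝ) / m i₀) - (b i : ℤ)| ≤ 1 / L := by
    intro i
    rcases Fin.eq_self_or_eq_succAbove i₀ i with h | ⟨j, h⟩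
    · rw [h, hb0, div_self hm0R]
      simp
    · rw [h, hbs]
      exact ha j
  refine ⟨b, ?_, ?_, ?_⟩
  · intro h
    have h1 := congrFun h i₀
    rw [hb0, Pi.zero_apply] at h1
    have : t = 0 := by exact_mod_cast h1
    omega
  · intro i
    have h1 := key i
    have h2 : |(t : ℝ) * ((m i : ℝ) / m i₀)| ≤ t := by
      rw [abs_mul, abs_of_nonneg ht0, abs_div]
      have h3 : |(m i : ℝ)| / |(m i₀ : ℝ)| ≤ 1 := (div_le_one hm0P).2 (hmaxR i)
      nlinarith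
    have h3 : |((b i : ℤ) : ℝ)| ≤ (L : ℝ) ^ r + 1 := by
      have h4 := abs_sub_abs_le_abs_sub ((b i : ℤ) : ℝ)
        ((t : ℝ) * ((m i : ℝ) / m i₀))
      rw [abs_sub_comm] at h4
      linarith
    have h5 : ((|b i| : ℤ) : ℝ) ≤ (((L : ℤ) ^ r + 1 : ℤ) : ℝ) := by
      push_cast
      exact h3
    exact_mod_cast h5
  · by_contra hS
    have h1 := hlow _ hS
    have h2 : m i₀ • ∑ i, b i • P i =
        ∑ i, (m i₀ * b i - t * m i) • P i := by
      rw [Finset.smul_sum]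
      have h3 : ∀ i, (m i₀ * b i - t * m i) • P i =
          m i₀ • b i • P i - (t : ℤ) • m i • P i := by
        intro i
        rw [sub_smul, mul_smul, mul_smul]
      rw [Finset.sum_congr rfl fun i _ => h3 i, Finset.sum_sub_distrib, ← Finset.smul_sum (r := (t : ℤ)), hm,
        smul_zero, sub_zero]
    have h4 := sqrt_hh_sum par nonneg Finset.univ
      (fun i => m i₀ * b i - t * m i) P
    rw [← h2, hh_zsmul par, Real.sqrt_mul (sq_nonneg _), Real.sqrt_sq_eq_abs] at h4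
    have h5 : ∀ i ∈ (Finset.univ : Finset (Fin (r + 1))),
        |((m i₀ * b i - t * m i : ℤ) : ℝ)| * √(hh (P i)) ≤
          |(m i₀ : ℝ)| / L * √Q := by
      intro i _
      have h6 : |((m i₀ * b i - t * m i : ℤ) : ℝ)| ≤ |(m i₀ : ℝ)| / L := by
        have e : ((m i₀ * b i - t * m i : ℤ) : ℝ) =
            -((m i₀ : ℝ) * ((t : ℝ) * ((m i : ℝ) / m i₀) - (b i : ℤ))) := by
          push_cast
          field_simp
          ring
        rw [e, abs_neg, abs_mul]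
        have h7 := mul_le_mul_of_nonneg_left (key i) (abs_nonneg (m i₀ : ℝ))
        calc |(m i₀ : ℝ)| * |(t : ℝ) * ((m i : ℝ) / m i₀) - (b i : ℤ)|
            ≤ |(m i₀ : ℝ)| * (1 / L) := h7
          _ = |(m i₀ : ℝ)| / L := by ring
      exact mul_le_mul h6 (Real.sqrt_le_sqrt (hQ i)) (Real.sqrt_nonneg _) (by positivity)
    have h8 := Finset.sum_le_sum h5
    rw [Finset.sum_const, Finset.card_univ, Fintype.card_fin, nsmul_eq_mul] at h8
    have h9 : |(m i₀ : ℝ)| * √(hh (∑ i, b i • P i)) ≤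
        |(m i₀ : ℝ)| * (((r : ℝ) + 1) * √Q / L) := by
      refine h4.trans (h8.trans (le_of_eq ?_))
      push_cast
      ring
    have h10 := le_of_mul_le_mul_left h9 hm0P
    have h11 := pow_le_pow_left₀ (Real.sqrt_nonneg _) h10 2
    rw [Real.sq_sqrt (nonneg _), div_pow, mul_pow, Real.sq_sqrt hQ0] at h11
    have h12 : ((r : ℝ) + 1) ^ 2 * Q / (L : ℝ) ^ 2 < lam := by
      rw [div_lt_iff₀ (by positivity)]
      exact hLQ
    linarith

end Pool.Agent.LibDM24
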