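import Pool.Agent.LibDM24.MG
import Pool.Agent.LibDM24.MH

/-!
ROW MJ (MEDIUM). Combinations of large integral points on `y² = x³ + k` (cites MD, MG, MH as stated; compare LibDP24/G1.lean).

PLAN. `κ = |k| ≥ 1`. From `A⁶ κ ≤ c₁ X³`, `A ≥ 1`, `X ≤ x i`: `10^6 κ ≤ x_i³` for `c₁ ≤ 10^-6`, `near_intM`: `u_i² ≤ 2/X`; `S = ∑ |a i||u_i|`, `S² ≤ (N A)² * 2 / X`,
`κ S⁶ ≤ 8 N⁶ κ A⁶/X³ ≤ 8 N⁶ c₁`: choose `c₁` small in terms of `N` and of the constant of `torsion_zeroM` (`|uu T| ≤ 2 S`, so `κ uu⁶ ≤ 64·8 N⁶ c₁`). First claim: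
`near_zsumM` (`S/100 ≤ S/4`). Third: `κ (2S)⁶ ≤ 10^-9`. Fourth: `T = some x y ≠ 0`, `near_xM`: `x ≥ 1/(2u²)`, `x > 0`, `log x ≥ -2 log |u| - log 2`, `canM_ge`: `C₁ = C₀ + 1`.
-/

set_option autoImplicit false

open WeierstrassCurve Pool.Agent.LibDP24

namespace Pool.Agent.LibDM24

/-- the last statement for one point -/
private theorem MJ_pt {C₀ : ℝ} {k : ℤ} (hk : k ≠ 0) {hh : Pt 0 k → ℝ} (hc : IsCanM C₀ hh) (T : Pt 0 k) (hN : Near T)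
    (hu : |(k : ℝ)| * |uu T| ^ 6 ≤ 1 / 10 ^ 9) (hT : T ≠ 0) :
    uu T ≠ 0 ∧ -2 * Real.log |uu T| - 1 / 3 * Real.log |(k : ℝ)| - (C₀ + 1) ≤ hh T := by
  rcases T with _ | ⟨x, y, h⟩
  · exact absurd rfl hT
  · have hu' : |(k : ℝ)| * uu (Affine.Point.some x y h : Pt 0 k) ^ 6 ≤ 1 / 10 ^ 6 := by
      have h6 : uu (Affine.Point.some x y h : Pt 0 k) ^ 6 = |uu (Affine.Point.some x y h : Pt 0 k)| ^ 6 :=
        (Even.pow_abs (by decide) _).symm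
      rw [h6]
      exact hu.trans (by norm_num)
    obtain ⟨h1, -, h3⟩ := near_xM h hN hu'
    refine ⟨h3, ?_⟩
    obtain ⟨u, hud⟩ : ∃ u, u = uu (Affine.Point.some x y h : Pt 0 k) := ⟨_, rfl⟩
    rw [← hud] at h1 h3 ⊢
    have hu2 : 0 < u ^ 2 := by positivity
    have hx0 : (0 : ℝ) < (x : ℝ) := by
      by_contra hcon
      rw [not_lt] at hcon
      have : (x : ℝ) * u ^ 2 ≤ 0 := mul_nonpos_of_nonpos_of_nonneg hcon hu2.le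
      linarith
    have hxne : x ≠ 0 := by
      rintro rfl
      simp at hx0
    have h4 := canM_ge hk hc h hxne
    have h5 := Real.log_le_log (by norm_num) h1
    rw [Real.log_mul hx0.ne' hu2.ne', Real.log_pow, ← Real.log_abs u, one_div, Real.log_inv] at h5
    have h6 : Real.log |((x : ℚ) : ℝ)| = Real.log (x : ℝ) := Real.log_abs _
    rw [h6] at h4
    have h7 : Real.log 2 ≤ 1 := by
      have := Real.log_two_lt_d9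
      linarith
    push_cast at h5
    linarith

theorem comboM (C₀ : ℝ) (hC₀ : 0 ≤ C₀) (N : ℕ) : ∃ c₁ : ℝ, 0 < c₁ ∧ c₁ ≤ 1 / 10 ^ 6 ∧
    ∀ k : ℤ, k ≠ 0 → ∀ hh : Pt 0 k → ℝ, IsCanM C₀ hh →
    ∀ (P : Fin N → Pt 0 k) (x : Fin N → ℤ), (∀ i, IsInt (P i) (x i)) →
    ∀ X A : ℝ, 0 < X → 1 ≤ A → (∀ i, X ≤ x i) → A ^ 6 * |(k : ℝ)| ≤ c₁ * X ^ 3 →
    ∀ a : Fin N → ℤ, (∀ i, |(a i : ℝ)| ≤ A) →
      |uu (∑ i, a i • P i) - ∑ i, (a i : ℝ) * uu (P i)| ≤ 1 / 4 * ∑ i, |(a i : ℝ)| * |uu (P i)| ∧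
      (IsOfFinAddOrder (∑ i, a i • P i) → ∑ i, a i • P i = 0) ∧
      (Near (∑ i, a i • P i) ∧ |(k : ℝ)| * |uu (∑ i, a i • P i)| ^ 6 ≤ 1 / 10 ^ 9) ∧
      (∑ i, a i • P i ≠ 0 → uu (∑ i, a i • P i) ≠ 0 ∧
        -2 * Real.log |uu (∑ i, a i • P i)| - 1 / 3 * Real.log |(k : ℝ)| - (C₀ + 1) ≤
          hh (∑ i, a i • P i)) := by
  obtain ⟨c, hc0, hct⟩ := torsion_zeroM C₀ hC₀
  obtain ⟨m, hm⟩ : ∃ m : ℝ, m = min c (1 / 10 ^ 9) := ⟨_, rfl⟩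
  have hm0 : 0 < m := by
    rw [hm]
    exact lt_min hc0 (by norm_num)
  have hmc : m ≤ c := by
    rw [hm]
    exact min_le_left _ _
  have hm9 : m ≤ 1 / 10 ^ 9 := by
    rw [hm]
    exact min_le_right _ _
  have hN6 : (0 : ℝ) < 512 * ((N : ℝ) + 1) ^ 6 := by positivity
  obtain ⟨c₁, hc₁⟩ : ∃ c₁ : ℝ, c₁ = min (1 / 10 ^ 6) (m / (512 * ((N : ℝ) + 1) ^ 6)) := ⟨_, rfl⟩
  have hc10 : 0 < c₁ := by
    rw [hc₁]
    exact lt_min (by norm_num) (div_pos hm0 hN6)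
  have hc16 : c₁ ≤ 1 / 10 ^ 6 := by
    rw [hc₁]
    exact min_le_left _ _
  have hcN : 512 * (N : ℝ) ^ 6 * c₁ ≤ m := by
    have h1 : c₁ ≤ m / (512 * ((N : ℝ) + 1) ^ 6) := by
      rw [hc₁]
      exact min_le_right _ _
    rw [le_div_iff₀ hN6] at h1
    have h2 : (N : ℝ) ^ 6 ≤ ((N : ℝ) + 1) ^ 6 := pow_le_pow_left₀ (Nat.cast_nonneg N) (by linarith) 6
    nlinarith
  refine ⟨c₁, hc10, hc16, fun k hk hh hcan P x hPx X A hX hA hXx hAk a ha => ?_⟩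
  obtain ⟨κ, hκ⟩ : ∃ κ : ℝ, κ = |(k : ℝ)| := ⟨_, rfl⟩
  have hκ0 : 0 ≤ κ := by
    rw [hκ]
    exact abs_nonneg _
  rw [← hκ] at hAk
  have hA6 : 1 ≤ A ^ 6 := one_le_pow₀ hA
  have hX3 : 0 < X ^ 3 := by positivity
  have hκX : 10 ^ 6 * κ ≤ X ^ 3 := by
    have h1 : κ ≤ A ^ 6 * κ := le_mul_of_one_le_left hκ0 hA6
    have h2 : c₁ * X ^ 3 ≤ 1 / 10 ^ 6 * X ^ 3 := mul_le_mul_of_nonneg_right hc16 hX3.le
    linarith
  obtain ⟨t, ht⟩ : ∃ t : ℝ, t = Real.sqrt (2 / X) := ⟨_, rfl⟩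
  have ht0 : 0 ≤ t := by
    rw [ht]
    exact Real.sqrt_nonneg _
  have ht2 : t ^ 2 = 2 / X := by
    rw [ht]
    exact Real.sq_sqrt (by positivity)
  -- the single points
  have hpt : ∀ i, Near (P i) ∧ |uu (P i)| ≤ t := by
    intro i
    have h1 : 10 ^ 6 * |(k : ℝ)| ≤ (x i : ℝ) ^ 3 := by
      rw [← hκ]
      exact hκX.trans (pow_le_pow_left₀ hX.le (hXx i) 3)
    obtain ⟨h2, -, h3, -, -⟩ := near_intM hk (hPx i) h1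
    refine ⟨h2, abs_le_of_sq_le_sq ?_ ht0⟩
    rw [ht2, le_div_iff₀ hX]
    have h4 : uu (P i) ^ 2 * X ≤ uu (P i) ^ 2 * (x i : ℝ) := mul_le_mul_of_nonneg_left (hXx i) (sq_nonneg _)
    linarith
  obtain ⟨S, hS⟩ : ∃ S : ℝ, S = ∑ i, |(a i : ℝ)| * |uu (P i)| := ⟨_, rfl⟩
  have hS0 : 0 ≤ S := by
    rw [hS]
    exact Finset.sum_nonneg fun i _ => mul_nonneg (abs_nonneg _) (abs_nonneg _)
  have hSle : S ≤ N * (A * t) := by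
    rw [hS]
    calc ∑ i, |(a i : ℝ)| * |uu (P i)| ≤ ∑ _i : Fin N, A * t :=
          Finset.sum_le_sum fun i _ => mul_le_mul (ha i) (hpt i).2 (abs_nonneg _) (by linarith)
      _ = N * (A * t) := by
          rw [Finset.sum_const, Finset.card_univ, Fintype.card_fin, nsmul_eq_mul]
  have hS6 : κ * S ^ 6 ≤ 8 * (N : ℝ) ^ 6 * c₁ := by
    have h1 : S ^ 6 ≤ (N * (A * t)) ^ 6 := pow_le_pow_left₀ hS0 hSle 6
    have h2 : (N * (A * t)) ^ 6 = (N : ℝ) ^ 6 * A ^ 6 * (t ^ 2) ^ 3 := by ring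
    have h3 : (t ^ 2) ^ 3 = 8 / X ^ 3 := by
      rw [ht2]
      ring
    rw [h2, h3] at h1
    calc κ * S ^ 6 ≤ κ * ((N : ℝ) ^ 6 * A ^ 6 * (8 / X ^ 3)) := mul_le_mul_of_nonneg_left h1 hκ0
      _ = 8 * (N : ℝ) ^ 6 * ((A ^ 6 * κ) / X ^ 3) := by ring
      _ ≤ 8 * (N : ℝ) ^ 6 * c₁ := by
          refine mul_le_mul_of_nonneg_left ?_ (by positivity)
          rw [div_le_iff₀ hX3]
          exact hAk
  have hS64 : κ * (2 * S) ^ 6 ≤ m := by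
    have h1 : κ * (2 * S) ^ 6 = 64 * (κ * S ^ 6) := by ring
    rw [h1]
    linarith
  have hS9 : |(k : ℝ)| * S ^ 6 ≤ 1 / 10 ^ 9 := by
    rw [← hκ]
    have h1 : κ * (2 * S) ^ 6 = 64 * (κ * S ^ 6) := by ring
    have h2 : 0 ≤ κ * S ^ 6 := by positivity
    linarith
  obtain ⟨hN1, hN2⟩ := near_zsumM P a (fun i => (hpt i).1) S hS.ge hS9
  obtain ⟨T, hT⟩ : ∃ T, T = ∑ i, a i • P i := ⟨_, rfl⟩
  rw [← hT] at hN1 hN2 ⊢
  have hsum : |∑ i, (a i : ℝ) * uu (P i)| ≤ S := by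
    rw [hS]
    refine (Finset.abs_sum_le_sum_abs _ _).trans (le_of_eq ?_)
    exact Finset.sum_congr rfl fun i _ => abs_mul _ _
  have huT : |uu T| ≤ 2 * S := by
    have h1 := abs_sub_abs_le_abs_sub (uu T) (∑ i, (a i : ℝ) * uu (P i))
    linarith
  have huT6 : κ * |uu T| ^ 6 ≤ m :=
    (mul_le_mul_of_nonneg_left (pow_le_pow_left₀ (abs_nonneg _) huT 6) hκ0).trans hS64
  have huT9 : |(k : ℝ)| * |uu T| ^ 6 ≤ 1 / 10 ^ 9 := by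
    rw [← hκ]
    exact huT6.trans hm9
  refine ⟨?_, ?_, ⟨hN1, huT9⟩, ?_⟩
  · rw [← hS]
    linarith
  · intro hfin
    refine hct k hk hh hcan T hfin hN1 ?_
    have h6 : uu T ^ 6 = |uu T| ^ 6 := (Even.pow_abs (by decide) _).symm
    rw [h6, ← hκ]
    exact huT6.trans hmc
  · intro hne
    exact MJ_pt hk hcan T hN1 huT9 hne

end Pool.Agent.LibDM24
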