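import Pool.Agent.LibDM24.MI
import Pool.Agent.LibDM24.MJ

/-!
ROW MK (MEDIUM). Relations and comparison of sizes with explicit powers of `q` (cites MD, MI, MJ as stated; compare LibDP24/G2.lean, DP24_G2.lean by helper15).

PLAN. `zero_relationM`: `c₀` from `canM_lower`; `Q = q²`, `L = ⌈(s+1) q / √c₀⌉₊ + 1 ≤ C' q` (`q ≥ 1`), `(s+1)² q² < c₀ L²`; `small_relation'`: `|a i| ≤ L^s + 1 ≤ C q^s`.
`compareM`: relation for `Fin.cons P₀ Q` (`s + 1` points, hypothesis rank via the dependent family), `A = C q^s`, torsion hence `= 0` by `comboM` with `N = s + 1` and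
`min(x₀, X) `: use `comboM` with the common lower bound `Y` of all `x` (hypotheses `Y ≤ x₀`, `∀ i, Y ≤ x i`, `(C q^s)⁶ κ ≤ c Y³`). `a 0 ≠ 0` by independence of `Q`.
`(3/4)|a 0 u₀| ≤ (5/4) ∑ |a_j||u_j|`, so `|u₀| ≤ 2 s A max|u_j|`, `1/(2x₀) ≤ u₀² ≤ 4 s² A² * 2/X`, i.e. `X ≤ 16 s² A² x₀` (`X > 0`; trivial otherwise; `s = 0` absurd).
-/

set_option autoImplicit false

open WeierstrassCurve Pool.Agent.LibDP24

namespace Pool.Agent.LibDM24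

/-- the size of the multiplier -/
private theorem MK_size (s : ℕ) {c₀ : ℝ} (hc₀ : 0 < c₀) : ∃ B : ℝ, 1 ≤ B ∧ ∀ q : ℝ, 1 ≤ q →
    ∃ L : ℕ, 0 < L ∧ ((s : ℝ) + 1) ^ 2 * q ^ 2 < c₀ * (L : ℝ) ^ 2 ∧ (L : ℝ) ≤ B * q := by
  have hs : (0 : ℝ) ≤ s := Nat.cast_nonneg s
  have hr : 0 < √c₀ := Real.sqrt_pos.2 hc₀
  have hr2 : √c₀ ^ 2 = c₀ := Real.sq_sqrt hc₀.le
  have hd : 0 ≤ ((s : ℝ) + 1) / √c₀ := by positivity
  refine ⟨((s : ℝ) + 1) / √c₀ + 2, by linarith, fun q hq => ?_⟩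
  refine ⟨⌈((s : ℝ) + 1) / √c₀ * q⌉₊ + 1, Nat.succ_pos _, ?_, ?_⟩
  · have h1 := Nat.le_ceil (((s : ℝ) + 1) / √c₀ * q)
    push_cast
    have h2 : ((s : ℝ) + 1) / √c₀ * q < (⌈((s : ℝ) + 1) / √c₀ * q⌉₊ : ℝ) + 1 := by linarith
    have h3 : ((s : ℝ) + 1) * q < √c₀ * ((⌈((s : ℝ) + 1) / √c₀ * q⌉₊ : ℝ) + 1) := by
      have h4 := mul_lt_mul_of_pos_left h2 hr
      have h5 : √c₀ * (((s : ℝ) + 1) / √c₀ * q) = ((s : ℝ) + 1) * q := by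
        field_simp
      rwa [h5] at h4
    have h6 : 0 ≤ ((s : ℝ) + 1) * q := by positivity
    have h7 := pow_lt_pow_left₀ h3 h6 (two_ne_zero)
    calc ((s : ℝ) + 1) ^ 2 * q ^ 2 = (((s : ℝ) + 1) * q) ^ 2 := by ring
      _ < (√c₀ * ((⌈((s : ℝ) + 1) / √c₀ * q⌉₊ : ℝ) + 1)) ^ 2 := h7
      _ = c₀ * ((⌈((s : ℝ) + 1) / √c₀ * q⌉₊ : ℝ) + 1) ^ 2 := by rw [mul_pow, hr2]
  · have h1 := Nat.ceil_lt_add_one (show (0 : ℝ) ≤ ((s : ℝ) + 1) / √c₀ * q by positivity)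
    push_cast
    nlinarith

theorem zero_relationM (C₀ : ℝ) (hC₀ : 0 ≤ C₀) (s : ℕ) : ∃ C : ℝ, 1 ≤ C ∧
    ∀ k : ℤ, k ≠ 0 → ∀ hh : Pt 0 k → ℝ, IsCanM C₀ hh →
    ∀ (q : ℝ), 1 ≤ q → ∀ P : Fin (s + 1) → Pt 0 k, (∀ i, hh (P i) ≤ q ^ 2) →
      ¬ LinearIndependent ℤ P →
      ∃ a : Fin (s + 1) → ℤ, a ≠ 0 ∧ (∀ i, |(a i : ℝ)| ≤ C * q ^ s) ∧
        IsOfFinAddOrder (∑ i, a i • P i) := by
  obtain ⟨c₀, hc₀, hlo⟩ := canM_lower C₀ hC₀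
  obtain ⟨B, hB, hBL⟩ := MK_size s hc₀
  have hB0 : 0 ≤ B ^ s := by positivity
  refine ⟨B ^ s + 1, by linarith, fun k hk hh hcan q hq P hP hdep => ?_⟩
  obtain ⟨L, hL, hL1, hL2⟩ := hBL q hq
  obtain ⟨a, ha0, ha, hT⟩ := small_relation' (hh := hh) hcan.par hcan.nonneg
    (lam := c₀) (Q := q ^ 2) (fun R hR => hlo k hk hh hcan R hR) P hdep hP L hL hL1
  refine ⟨a, ha0, fun i => ?_, hT⟩
  have h1 : |(a i : ℝ)| ≤ (L : ℝ) ^ s + 1 := by exact_mod_cast ha i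
  have h2 : (L : ℝ) ^ s ≤ (B * q) ^ s := pow_le_pow_left₀ (Nat.cast_nonneg L) hL2 s
  have h3 : (1 : ℝ) ≤ q ^ s := one_le_pow₀ hq
  rw [mul_pow] at h2
  nlinarith

/-- the comparison of sizes, only real numbers -/
private theorem MK_real {s : ℕ} {e X x₀ a₀ u₀ : ℝ} {b u x : Fin s → ℝ} (he : 0 < e) (hX : 0 < X)
    (hx₀ : 0 < x₀) (ha₀ : 1 ≤ |a₀|) (h0 : 1 / 2 ≤ x₀ * u₀ ^ 2) (hb : ∀ i, |b i| ≤ e)
    (hx : ∀ i, X ≤ x i) (hu : ∀ i, x i * u i ^ 2 ≤ 2)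
    (h : |a₀ * u₀ + ∑ i, b i * u i| ≤ 1 / 4 * (|a₀| * |u₀| + ∑ i, |b i| * |u i|)) :
    X ≤ 16 * (s : ℝ) ^ 2 * e ^ 2 * x₀ := by
  obtain ⟨v, hv, hv2⟩ : ∃ v : ℝ, 0 ≤ v ∧ v ^ 2 = 2 / X :=
    ⟨√(2 / X), Real.sqrt_nonneg _, Real.sq_sqrt (by positivity)⟩
  have hui : ∀ i, |u i| ≤ v := fun i => by
    apply abs_le_of_sq_le_sq _ hv
    rw [hv2, le_div_iff₀ hX]
    have h1 := hu i
    have h2 : X * u i ^ 2 ≤ x i * u i ^ 2 := mul_le_mul_of_nonneg_right (hx i) (sq_nonneg _)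
    linarith
  obtain ⟨U, hU⟩ : ∃ U, U = ∑ i, |b i| * |u i| := ⟨_, rfl⟩
  have hU1 : U ≤ s * (e * v) := by
    rw [hU]
    refine (Finset.sum_le_sum fun i _ => mul_le_mul (hb i) (hui i) (abs_nonneg _) he.le).trans ?_
    rw [Finset.sum_const, Finset.card_univ, Fintype.card_fin, nsmul_eq_mul]
  have hU2 : |∑ i, b i * u i| ≤ U := by
    rw [hU]
    refine (Finset.abs_sum_le_sum_abs _ _).trans (le_of_eq ?_)
    exact Finset.sum_congr rfl fun i _ => abs_mul _ _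
  have h1 : |a₀| * |u₀| ≤ |a₀ * u₀ + ∑ i, b i * u i| + |∑ i, b i * u i| := by
    rw [← abs_mul]
    have h2 := abs_sub (a₀ * u₀ + ∑ i, b i * u i) (∑ i, b i * u i)
    rwa [add_sub_cancel_right] at h2
  have h2 : |u₀| ≤ |a₀| * |u₀| := le_mul_of_one_le_left (abs_nonneg _) ha₀
  have hU0 : 0 ≤ U := (abs_nonneg _).trans hU2
  have h3 : |u₀| ≤ 2 * (s * (e * v)) := by
    rw [← hU] at h
    linarith
  have h4 : u₀ ^ 2 ≤ (2 * (s * (e * v))) ^ 2 := by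
    rw [← sq_abs u₀]
    exact pow_le_pow_left₀ (abs_nonneg _) h3 2
  have h5 : (2 * (s * (e * v))) ^ 2 = 8 * (s : ℝ) ^ 2 * e ^ 2 / X := by
    have : (2 * (s * (e * v))) ^ 2 = 4 * (s : ℝ) ^ 2 * e ^ 2 * v ^ 2 := by ring
    rw [this, hv2]
    ring
  rw [h5] at h4
  have h6 : 1 / 2 ≤ x₀ * (8 * (s : ℝ) ^ 2 * e ^ 2 / X) :=
    h0.trans (mul_le_mul_of_nonneg_left h4 hx₀.le)
  have h7 : x₀ * (8 * (s : ℝ) ^ 2 * e ^ 2 / X) = (8 * (s : ℝ) ^ 2 * e ^ 2 * x₀) / X := by ring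
  rw [h7, le_div_iff₀ hX] at h6
  linarith

theorem compareM (C₀ : ℝ) (hC₀ : 0 ≤ C₀) (s : ℕ) : ∃ C : ℝ, 1 ≤ C ∧
    ∀ k : ℤ, k ≠ 0 → ∀ hh : Pt 0 k → ℝ, IsCanM C₀ hh →
    ∀ (q Y : ℝ), 1 ≤ q → 0 < Y → C * q ^ (6 * s) * |(k : ℝ)| ≤ Y ^ 3 →
    ∀ (P₀ : Pt 0 k) (x₀ : ℤ) (Q : Fin s → Pt 0 k) (x : Fin s → ℤ), IsInt P₀ x₀ →
      (∀ i, IsInt (Q i) (x i)) → hh P₀ ≤ q ^ 2 → (∀ i, hh (Q i) ≤ q ^ 2) → Y ≤ x₀ →
      (∀ i, Y ≤ x i) → LinearIndependent ℤ Q →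
      ¬ LinearIndependent ℤ (Fin.cons P₀ Q : Fin (s + 1) → Pt 0 k) →
      ∀ X : ℝ, (∀ i, X ≤ x i) → X ≤ C * q ^ (2 * s) * x₀ := by
  obtain ⟨C₁, hC₁, hrel⟩ := zero_relationM C₀ hC₀ s
  obtain ⟨c₁, hc₁, hc₁', hcomb⟩ := comboM C₀ hC₀ (s + 1)
  have hs : (0 : ℝ) ≤ s := Nat.cast_nonneg s
  have hD1 : 0 ≤ C₁ ^ 6 / c₁ := by positivity
  have hD2 : 0 ≤ 16 * (s : ℝ) ^ 2 * C₁ ^ 2 := by positivity
  refine ⟨C₁ ^ 6 / c₁ + 10 ^ 6 + 16 * (s : ℝ) ^ 2 * C₁ ^ 2, by linarith,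
    fun k hk hh hcan q Y hq hY hqY P₀ x₀ Q x hP₀ hQ hhP₀ hhQ hx₀ hx hind hdep X hX => ?_⟩
  have hκ : 0 ≤ |(k : ℝ)| := abs_nonneg _
  have hq6 : (1 : ℝ) ≤ q ^ (6 * s) := one_le_pow₀ hq
  have hq2 : (1 : ℝ) ≤ q ^ (2 * s) := one_le_pow₀ hq
  have hx₀p : (0 : ℝ) < x₀ := lt_of_lt_of_le hY hx₀
  have hqκ : 0 ≤ q ^ (6 * s) * |(k : ℝ)| := by positivity
  rcases le_or_gt X 0 with hX0 | hX0
  · exact hX0.trans (by positivity)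
  have hK1 : (C₁ * q ^ s) ^ 6 * |(k : ℝ)| ≤ c₁ * Y ^ 3 := by
    have h1 : C₁ ^ 6 / c₁ * (q ^ (6 * s) * |(k : ℝ)|) ≤ Y ^ 3 := by
      refine le_trans ?_ hqY
      rw [mul_assoc]
      exact mul_le_mul_of_nonneg_right (by linarith) hqκ
    have h2 := mul_le_mul_of_nonneg_left h1 hc₁.le
    have h3 : c₁ * (C₁ ^ 6 / c₁ * (q ^ (6 * s) * |(k : ℝ)|)) = (C₁ * q ^ s) ^ 6 * |(k : ℝ)| := by
      rw [mul_pow, ← pow_mul, mul_comm s 6]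
      field_simp
    rwa [h3] at h2
  have hK2 : ∀ z : ℝ, Y ≤ z → 10 ^ 6 * |(k : ℝ)| ≤ z ^ 3 := by
    intro z hz
    have h1 : Y ^ 3 ≤ z ^ 3 := pow_le_pow_left₀ hY.le hz 3
    have h2 : (10 : ℝ) ^ 6 * |(k : ℝ)| ≤
        (C₁ ^ 6 / c₁ + 10 ^ 6 + 16 * (s : ℝ) ^ 2 * C₁ ^ 2) * q ^ (6 * s) * |(k : ℝ)| := by
      apply mul_le_mul_of_nonneg_right _ hκ
      nlinarith
    linarith
  have hP : ∀ i, IsInt ((Fin.cons P₀ Q : Fin (s + 1) → Pt 0 k) i) ((Fin.cons x₀ x : Fin (s + 1) → ℤ) i) := by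
    intro i
    refine Fin.cases ?_ (fun j => ?_) i
    · simpa using hP₀
    · simpa using hQ j
  have hxx : ∀ i, Y ≤ (((Fin.cons x₀ x : Fin (s + 1) → ℤ) i : ℤ) : ℝ) := by
    intro i
    refine Fin.cases ?_ (fun j => ?_) i
    · simpa using hx₀
    · simpa using hx j
  have hhh : ∀ i, hh ((Fin.cons P₀ Q : Fin (s + 1) → Pt 0 k) i) ≤ q ^ 2 := by
    intro i
    refine Fin.cases ?_ (fun j => ?_) i
    · simpa using hhP₀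
    · simpa using hhQ j
  obtain ⟨a, ha0, hac, hT⟩ := hrel k hk hh hcan q hq _ hhh hdep
  have hA : 1 ≤ C₁ * q ^ s := by
    have h1 : (1 : ℝ) ≤ q ^ s := one_le_pow₀ hq
    nlinarith
  have hc4 := hcomb k hk hh hcan _ _ hP Y (C₁ * q ^ s) hY hA hxx hK1 a hac
  have hz := hc4.2.1 hT
  have hco := hc4.1
  rw [hz] at hco
  rw [Fin.sum_univ_succ] at hz
  simp only [Fin.cons_zero, Fin.cons_succ] at hz
  have ha00 : a 0 ≠ 0 := by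
    intro h0
    rw [h0, zero_zsmul, zero_add] at hz
    have h1 := Fintype.linearIndependent_iff.1 hind (fun i => a i.succ) hz
    apply ha0
    funext i
    refine Fin.cases ?_ (fun j => ?_) i
    · exact h0
    · exact h1 j
  have hu0 : uu (0 : Pt 0 k) = 0 := rfl
  rw [hu0, Fin.sum_univ_succ, Fin.sum_univ_succ] at hco
  simp only [Fin.cons_zero, Fin.cons_succ] at hco
  rw [zero_sub, abs_neg] at hco
  have hmain := MK_real (s := s) (e := C₁ * q ^ s) (X := X) (x₀ := x₀) (a₀ := a 0)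
    (u₀ := uu P₀) (b := fun i => (a i.succ : ℝ)) (u := fun i => uu (Q i)) (x := fun i => (x i : ℝ))
    (by linarith) hX0 hx₀p (by
      have h1 : 1 ≤ |a 0| := Int.one_le_abs ha00
      exact_mod_cast h1) (near_intM hk hP₀ (hK2 _ hx₀)).2.1 (fun i => hac i.succ) hX
    (fun i => (near_intM hk (hQ i) (hK2 _ (hx i))).2.2.1) hco
  refine hmain.trans (mul_le_mul_of_nonneg_right ?_ hx₀p.le)
  have h1 : 16 * (s : ℝ) ^ 2 * (C₁ * q ^ s) ^ 2 = 16 * (s : ℝ) ^ 2 * C₁ ^ 2 * q ^ (2 * s) := by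
    rw [mul_pow, ← pow_mul, mul_comm s 2]
    ring
  rw [h1]
  apply mul_le_mul_of_nonneg_right _ (by positivity)
  linarith

end Pool.Agent.LibDM24
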