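import Pool.Agent.LibDM24.MK
import Pool.Agent.LibDP24.G4A

/-!
ROW ML (MEDIUM/STRONG). `2^s` integral points of `y² = x³ + k` of comparable size in rank `≤ s` (cites LibDP24.H3, LibDP24.G4A `parity`, MD, MF, MJ, MK;
compare LibDP24/G4.lean, DP24_G4.lean by helper50).

PLAN. `t = 2^s`. Suppose `X³ > C q^(6s) κ`. `zero_relationM n`, `n ≤ s`: common constant `C'`, `B = ⌊C' q^s⌋₊`. `parity`: `i, j, c`, `|c k| ≤ t B + 2 ≤ C'' q^s =: A/4`. All
combinations (`R = ∑ c k • P k`, `P i - 2R`, `P i - P j - 2R`, `S = P i - R`) have coefficients `≤ A`, and `A⁶ κ ≤ c₁ X³` for `C` large: `comboM`. The torsion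
element is 0.
KEY ESTIMATE `|uu R|² ≤ 8/X` (no factor `A`): `near_addM R R` (third claim of comboM: `κ (2|uu R|)⁶ ≤ 10^-6`) gives `|uu (2R)| ≥ (2 - 0.01)|uu R|`; and `2R = P i` or `P i - P j`
with `near_addM` (`near_neg`, `uu_neg`): `|uu (2R)| ≤ 1.01 (|u_i| + |u_j|) ≤ 2.02 √(2/X)`. The same for `S` (`2 S = P i + P j`). So by the fourth claim
`hh R, hh S ≥ log X - 3 - (1/3) log κ - (C₀+1)` (R, S ≠ 0).
Case `P i - P j = 2R` (`i ≠ j`): `hh (P i) + hh (P j) = 2 hh R + 2 hh S` (`P i = S + R`, `P j = S - R`), `hh (P i) + hh (P j) ≤ log x_i + log x_j + 2 C₀` (`canM_le`). BETTER LOWER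
BOUND: let `x_i, x_j ∈ [x_min, x_max]`, then `|uu R|, |uu S| ≤ 1.02 √(2/x_min)`, so `2 (2 log x_min - (2/3) log κ - C) ≤ log x_min + log x_max`, i.e.
`3 log x_min ≤ log x_max + (4/3) log κ + C ≤ log (W X) + ...` and `x_max ≤ W X ≤ W x_min`: `2 log x_min ≤ log W + (4/3) log κ + C`, so `X⁶ ≤ C W³ κ⁴`.
Case `P i = 2R`: `hh (P i) = 4 hh R ≥ 4 (log x_i - (1/3) log κ - C)`, `≤ log x_i + C₀`: `x_i ≤ C κ^(4/9)`, so `X⁶ ≤ x_i⁶ ≤ C κ⁴ W³`.
-/

set_option autoImplicit false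

open WeierstrassCurve Pool.Agent.LibDP24

namespace Pool.Agent.LibDM24

private theorem ML_abs {a : ℤ} {b : ℝ} (h : |(a : ℝ)| ≤ b) : |a| ≤ ((⌊b⌋₊ : ℕ) : ℤ) := by
  have h1 : ((a.natAbs : ℕ) : ℝ) ≤ b := by
    rw [Nat.cast_natAbs]
    push_cast
    exact h
  have h2 : a.natAbs ≤ ⌊b⌋₊ := Nat.le_floor h1
  have h3 : |a| = ((a.natAbs : ℕ) : ℤ) := Int.abs_eq_natAbs a
  rw [h3]
  exact_mod_cast h2

private theorem ML_sum_single {G : Type*} [AddCommGroup G] {t : ℕ} (P : Fin t → G) (i : Fin t) :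
    ∑ k, (if k = i then (1 : ℤ) else 0) • P k = P i := by
  rw [Finset.sum_eq_single i]
  · simp
  · intro b _ hb
    simp [hb]
  · intro h
    exact absurd (Finset.mem_univ i) h

private theorem ML_x_eq {A B : ℤ} {R S : Pt A B} {x x' : ℤ} (hR : IsInt R x) (hS : IsInt S x')
    (h : R = S ∨ R = -S) : x = x' := by
  obtain ⟨y, h1, rfl⟩ := hR
  obtain ⟨y', h2, rfl⟩ := hS
  have : (x : ℚ) = (x' : ℚ) := by
    rcases h with h | h
    · exact (Affine.Point.some.inj h).1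
    · rw [Affine.Point.neg_some] at h
      exact (Affine.Point.some.inj h).1
  exact_mod_cast this

private theorem ML_double {k : ℤ} {R T : Pt 0 k} (hN : Near R)
    (hu : |(k : ℝ)| * |uu R| ^ 6 ≤ 1 / 10 ^ 9) (hT : R + R = T) :
    99 / 50 * |uu R| ≤ |uu T| := by
  have h1 : |(k : ℝ)| * (|uu R| + |uu R|) ^ 6 ≤ 1 / 10 ^ 6 := by
    have h0 : |(k : ℝ)| * (|uu R| + |uu R|) ^ 6 = 64 * (|(k : ℝ)| * |uu R| ^ 6) := by ring
    rw [h0]
    linarith
  obtain ⟨_, h2⟩ := near_addM R R hN hN h1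
  rw [hT] at h2
  have h3 : 100 * |(k : ℝ)| * (|uu R| + |uu R|) ^ 5 * |uu R| * |uu R| =
      3200 * (|(k : ℝ)| * |uu R| ^ 6) * |uu R| := by ring
  rw [h3] at h2
  have h4 := abs_nonneg (uu R)
  have h5 : 3200 * (|(k : ℝ)| * |uu R| ^ 6) * |uu R| ≤ 1 / 100 * |uu R| := by
    apply mul_le_mul_of_nonneg_right _ h4
    linarith
  have h6 : |2 * uu R| ≤ |uu T| + |uu T - uu R - uu R| := by
    have h7 := abs_sub (uu T) (uu T - uu R - uu R)
    have h8 : uu T - (uu T - uu R - uu R) = 2 * uu R := by ring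
    rw [h8] at h7
    exact h7
  rw [abs_mul, abs_two] at h6
  linarith

private theorem ML_add {k : ℤ} {P Q : Pt 0 k} (hP : Near P) (hQ : Near Q) {X : ℝ} (hX : 0 < X)
    (hk : 512 * 10 ^ 6 * |(k : ℝ)| ≤ X ^ 3) (hp : X * uu P ^ 2 ≤ 2) (hq : X * uu Q ^ 2 ≤ 2) :
    X * uu (P + Q) ^ 2 ≤ 9 := by
  set U : ℝ := |uu P| + |uu Q| with hU
  have hU0 : 0 ≤ U := by positivity
  have hU2 : X * U ^ 2 ≤ 8 := by
    have h1 : U ^ 2 ≤ 2 * (uu P ^ 2 + uu Q ^ 2) := by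
      rw [hU]
      have h2 := sq_abs (uu P)
      have h3 := sq_abs (uu Q)
      nlinarith [sq_nonneg (|uu P| - |uu Q|)]
    have h4 : X * U ^ 2 ≤ X * (2 * (uu P ^ 2 + uu Q ^ 2)) := mul_le_mul_of_nonneg_left h1 hX.le
    linarith
  have hk0 : 0 ≤ |(k : ℝ)| := abs_nonneg _
  have hU6 : |(k : ℝ)| * U ^ 6 ≤ 1 / 10 ^ 6 := by
    have h1 : (X * U ^ 2) ^ 3 ≤ 8 ^ 3 := pow_le_pow_left₀ (by positivity) hU2 3
    have h2 : (X * U ^ 2) ^ 3 = X ^ 3 * U ^ 6 := by ring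
    rw [h2] at h1
    have h3 : 512 * 10 ^ 6 * |(k : ℝ)| * U ^ 6 ≤ X ^ 3 * U ^ 6 :=
      mul_le_mul_of_nonneg_right hk (by positivity)
    linarith
  obtain ⟨_, h2⟩ := near_addM P Q hP hQ hU6
  have hPQ : |uu P| * |uu Q| ≤ U ^ 2 := by
    rw [hU]
    nlinarith [abs_nonneg (uu P), abs_nonneg (uu Q), mul_nonneg (abs_nonneg (uu P)) (abs_nonneg (uu Q))]
  have h3 : 100 * |(k : ℝ)| * U ^ 5 * |uu P| * |uu Q| ≤ 1 / 100 * U := by
    have h4 : 100 * |(k : ℝ)| * U ^ 5 * |uu P| * |uu Q| = 100 * |(k : ℝ)| * U ^ 5 * (|uu P| * |uu Q|) := by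
      ring
    have h5 : 100 * |(k : ℝ)| * U ^ 5 * (|uu P| * |uu Q|) ≤ 100 * |(k : ℝ)| * U ^ 5 * U ^ 2 :=
      mul_le_mul_of_nonneg_left hPQ (by positivity)
    have h6 : 100 * |(k : ℝ)| * U ^ 5 * U ^ 2 = 100 * (|(k : ℝ)| * U ^ 6) * U := by ring
    have h7 : 100 * (|(k : ℝ)| * U ^ 6) * U ≤ 1 / 100 * U := by
      apply mul_le_mul_of_nonneg_right _ hU0
      linarith
    linarith
  have h4 : |uu (P + Q)| ≤ 101 / 100 * U := by
    have h5 : uu (P + Q) = (uu (P + Q) - uu P - uu Q) + uu P + uu Q := by ring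
    have h6 : |(uu (P + Q) - uu P - uu Q) + uu P + uu Q| ≤
        |uu (P + Q) - uu P - uu Q| + |uu P| + |uu Q| := abs_add_three _ _ _
    rw [← h5] at h6
    linarith
  have h5 : uu (P + Q) ^ 2 ≤ (101 / 100 * U) ^ 2 := by
    rw [← sq_abs]
    exact pow_le_pow_left₀ (abs_nonneg _) h4 2
  have h6 : X * uu (P + Q) ^ 2 ≤ X * (101 / 100 * U) ^ 2 := mul_le_mul_of_nonneg_left h5 hX.le
  have h7 : X * (101 / 100 * U) ^ 2 = (101 / 100) ^ 2 * (X * U ^ 2) := by ring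
  rw [h7] at h6
  have h8 : (101 / 100 : ℝ) ^ 2 * (X * U ^ 2) ≤ (101 / 100) ^ 2 * 8 :=
    mul_le_mul_of_nonneg_left hU2 (by positivity)
  norm_num at h8 h6 ⊢
  linarith

private theorem ML_log {X u : ℝ} (hX : 0 < X) (hu0 : u ≠ 0) (hu : X * u ^ 2 ≤ 3) :
    Real.log X - Real.log 3 ≤ -2 * Real.log |u| := by
  have hu2 : 0 < u ^ 2 := by positivity
  have h1 : Real.log (X * u ^ 2) ≤ Real.log 3 := Real.log_le_log (by positivity) hu
  rw [Real.log_mul hX.ne' hu2.ne', Real.log_pow] at h1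
  rw [Real.log_abs]
  push_cast at h1
  linarith

private theorem ML_final {X W κ K : ℝ} (hX : 0 < X) (hW : 1 ≤ W) (hκ : 1 ≤ κ)
    (h : 6 * Real.log X ≤ 3 * Real.log W + 4 * Real.log κ + K) :
    X ^ 6 ≤ Real.exp K * W ^ 3 * κ ^ 4 := by
  have hW0 : 0 < W := by linarith
  have hκ0 : 0 < κ := by linarith
  have h1 : X ^ 6 = Real.exp (6 * Real.log X) := by
    rw [show (6 : ℝ) * Real.log X = ((6 : ℕ) : ℝ) * Real.log X by norm_num, Real.exp_nat_mul,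
      Real.exp_log hX]
  have h2 : Real.exp K * W ^ 3 * κ ^ 4 = Real.exp (3 * Real.log W + 4 * Real.log κ + K) := by
    rw [Real.exp_add, Real.exp_add, show (3 : ℝ) * Real.log W = ((3 : ℕ) : ℝ) * Real.log W by norm_num,
      show (4 : ℝ) * Real.log κ = ((4 : ℕ) : ℝ) * Real.log κ by norm_num, Real.exp_nat_mul,
      Real.exp_nat_mul, Real.exp_log hW0, Real.exp_log hκ0]
    ring
  rw [h1, h2]
  exact Real.exp_le_exp.2 h

theorem class_windowM (C₀ : ℝ) (hC₀ : 0 ≤ C₀) (s : ℕ) : ∃ C : ℝ, 1 ≤ C ∧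
    ∀ k : ℤ, k ≠ 0 → ∀ hh : Pt 0 k → ℝ, IsCanM C₀ hh →
    ∀ (q X W : ℝ), 1 ≤ q → 0 < X → 1 ≤ W →
    ∀ (P : Fin (2 ^ s) → Pt 0 k) (x : Fin (2 ^ s) → ℤ), (∀ i, IsInt (P i) (x i)) →
      Function.Injective x → (∀ i, hh (P i) ≤ q ^ 2) →
      (∀ f : Fin (s + 1) → Fin (2 ^ s), ¬ LinearIndependent ℤ (P ∘ f)) →
      (∀ i, X ≤ x i) → (∀ i, (x i : ℝ) ≤ W * X) →
      X ^ 3 ≤ C * q ^ (6 * s) * |(k : ℝ)| ∨ X ^ 6 ≤ C * W ^ 3 * |(k : ℝ)| ^ 4 := by
  choose Cf hC1 hrelf using fun n => zero_relationM C₀ hC₀ n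
  set c : ℝ := ∑ n ∈ Finset.range (s + 1), Cf n with hcdef
  have hcle : ∀ n ≤ s, Cf n ≤ c := fun n hn =>
    Finset.single_le_sum (f := Cf) (fun i _ => by linarith [hC1 i]) (Finset.mem_range.2 (by omega))
  have hc1 : 1 ≤ c := (hC1 0).trans (hcle 0 (Nat.zero_le s))
  set t : ℕ := 2 ^ s with ht
  have htr : (0 : ℝ) ≤ (t : ℝ) := Nat.cast_nonneg t
  set G : ℝ := (t : ℝ) * c + 2 with hGdef
  have hG2 : 2 ≤ G := by
    have : 0 ≤ (t : ℝ) * c := by positivity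
    linarith
  obtain ⟨c₁, hc₁, hc₁', hcombo⟩ := comboM C₀ hC₀ t
  set K : ℝ := 12 * Real.log 3 + 18 * C₀ + 12 with hK
  have hl3 : 0 ≤ Real.log (3 : ℝ) := Real.log_nonneg (by norm_num)
  have hK0 : 0 ≤ K := by rw [hK]; linarith
  refine ⟨(4 * G) ^ 6 / c₁ + Real.exp K, ?_, ?_⟩
  · have h1 : 1 ≤ Real.exp K := Real.one_le_exp hK0
    have h2 : 0 ≤ (4 * G) ^ 6 / c₁ := by positivity
    linarith
  intro k hk hh hcan q X W hq hX hW P x hint hinj hheight hrank hXx hxW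
  by_contra hcon
  push Not at hcon
  obtain ⟨hcon1, hcon2⟩ := hcon
  have hκ : 1 ≤ |(k : ℝ)| := by
    have h1 : 1 ≤ |k| := Int.one_le_abs hk
    have h2 : ((1 : ℤ) : ℝ) ≤ ((|k| : ℤ) : ℝ) := by exact_mod_cast h1
    push_cast at h2
    exact h2
  have hκ0 : 0 < |(k : ℝ)| := by linarith
  have hlκ : 0 ≤ Real.log |(k : ℝ)| := Real.log_nonneg hκ
  have hlW : 0 ≤ Real.log W := Real.log_nonneg hW
  have hqs : 1 ≤ q ^ s := one_le_pow₀ hq
  set A : ℝ := 4 * G * q ^ s with hA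
  have hA8 : 8 ≤ A := by
    rw [hA]
    nlinarith
  have hA6 : A ^ 6 * |(k : ℝ)| ≤ c₁ * X ^ 3 := by
    have h1 : A ^ 6 = (4 * G) ^ 6 * q ^ (6 * s) := by
      rw [hA, mul_pow, ← pow_mul, mul_comm s 6]
    have h2 : (4 * G) ^ 6 / c₁ * q ^ (6 * s) * |(k : ℝ)| ≤ X ^ 3 := by
      have h3 : (4 * G) ^ 6 / c₁ * q ^ (6 * s) * |(k : ℝ)| ≤
          ((4 * G) ^ 6 / c₁ + Real.exp K) * q ^ (6 * s) * |(k : ℝ)| := by
        have h4 : 0 ≤ Real.exp K := (Real.exp_pos K).le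
        have h5 : 0 ≤ q ^ (6 * s) := by positivity
        nlinarith [mul_nonneg (mul_nonneg h4 h5) hκ0.le]
      exact h3.trans hcon1.le
    have h3 : c₁ * ((4 * G) ^ 6 / c₁ * q ^ (6 * s) * |(k : ℝ)|) = A ^ 6 * |(k : ℝ)| := by
      rw [h1]
      field_simp
    rw [← h3]
    exact mul_le_mul_of_nonneg_left h2 hc₁.le
  have hX3 : 512 * 10 ^ 6 * |(k : ℝ)| ≤ X ^ 3 := by
    have h1 : (8 : ℝ) ^ 6 ≤ A ^ 6 := pow_le_pow_left₀ (by norm_num) hA8 6
    have h2 : (8 : ℝ) ^ 6 * |(k : ℝ)| ≤ A ^ 6 * |(k : ℝ)| := mul_le_mul_of_nonneg_right h1 hκ0.le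
    have h3 : c₁ * X ^ 3 ≤ 1 / 10 ^ 6 * X ^ 3 := mul_le_mul_of_nonneg_right hc₁' (by positivity)
    norm_num at h2 h3 ⊢
    linarith
  have hx0 : ∀ i, 0 < (x i : ℝ) := fun i => lt_of_lt_of_le hX (hXx i)
  have hx0' : ∀ i, 0 < x i := fun i => by exact_mod_cast hx0 i
  have hx3 : ∀ i, X ^ 3 ≤ (x i : ℝ) ^ 3 := fun i => pow_le_pow_left₀ hX.le (hXx i) 3
  have hnear : ∀ i, Near (P i) ∧ 1 / 2 ≤ (x i : ℝ) * uu (P i) ^ 2 ∧ (x i : ℝ) * uu (P i) ^ 2 ≤ 2 ∧
      uu (P i) ≠ 0 ∧ P i ≠ 0 := fun i => near_intM hk (hint i) (by linarith [hx3 i])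
  have hupp : ∀ i, hh (P i) ≤ Real.log (x i) + C₀ := fun i =>
    canM_le hk hcan (hint i) (hx0' i) (by linarith [hx3 i])
  have hcb := hcombo k hk hh hcan P x hint X A hX (by linarith) hXx hA6
  obtain ⟨i, j, d, hd, hpar⟩ := parity (le_refl (2 ^ s)) P hrank ⌊c * q ^ s⌋₊ (by
    intro n f hn hnl
    obtain ⟨a, ha0, hab, hat⟩ := hrelf n k hk hh hcan q hq (P ∘ f) (fun i => hheight (f i)) hnl
    refine ⟨a, ha0, fun i => ML_abs ((hab i).trans ?_), hat⟩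
    have h1 : q ^ n ≤ q ^ s := pow_le_pow_right₀ hq hn
    have h2 : 0 ≤ q ^ n := by positivity
    exact mul_le_mul (hcle n hn) h1 h2 (by linarith))
  have hdk : ∀ m, |(d m : ℝ)| ≤ G * q ^ s := by
    intro m
    have h1 : ((|d m| : ℤ) : ℝ) ≤ (((2 ^ s : ℕ) : ℤ) * ((⌊c * q ^ s⌋₊ : ℕ) : ℤ) + 2 : ℤ) := by
      exact_mod_cast hd m
    have h2 : ((⌊c * q ^ s⌋₊ : ℕ) : ℝ) ≤ c * q ^ s := Nat.floor_le (by positivity)
    have h3 : |(d m : ℝ)| ≤ (t : ℝ) * ((⌊c * q ^ s⌋₊ : ℕ) : ℝ) + 2 := by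
      rw [ht]
      push_cast at h1 ⊢
      exact h1
    have h4 : (t : ℝ) * ((⌊c * q ^ s⌋₊ : ℕ) : ℝ) ≤ (t : ℝ) * (c * q ^ s) :=
      mul_le_mul_of_nonneg_left h2 htr
    rw [hGdef]
    nlinarith
  have hGq : 2 ≤ G * q ^ s := by nlinarith
  set R : Pt 0 k := ∑ m, d m • P m with hR
  have hδ : ∀ m i : Fin (2 ^ s), |(((if m = i then (1 : ℤ) else 0) : ℤ) : ℝ)| ≤ 1 := by
    intro m i
    split_ifs <;> simp
  have hz2 : (2 : ℤ) • (0 : Pt 0 k) = 0 := by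
    rw [two_zsmul]
    exact add_zero _
  have hcR := hcb d (fun m => (hdk m).trans (by rw [hA]; linarith))
  rw [← hR] at hcR
  obtain ⟨_, _, ⟨hRN, hRu⟩, hRlow⟩ := hcR
  rcases hpar with hpar | ⟨hij, hpar⟩
  · -- case P i = 2 R
    have e1 : P i - (2 : ℤ) • R = ∑ m, ((if m = i then (1 : ℤ) else 0) - 2 * d m) • P m := by
      simp only [sub_smul, Finset.sum_sub_distrib, ML_sum_single, mul_smul]
      rw [hR, Finset.smul_sum]
    have e2 : P i - (2 : ℤ) • R = 0 := by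
      have h1 := (hcb (fun m => (if m = i then (1 : ℤ) else 0) - 2 * d m) (fun m => by
        have ha := abs_sub ((if m = i then (1 : ℤ) else 0 : ℤ) : ℝ) (2 * (d m : ℝ))
        have hb := hδ m i
        have hc2 : |2 * (d m : ℝ)| = 2 * |(d m : ℝ)| := by rw [abs_mul, abs_two]
        have hd2 := hdk m
        rw [hA]
        push_cast at ha hb ⊢
        linarith)).2.1
      rw [← e1] at h1
      exact h1 hpar
    have e3 : P i = (2 : ℤ) • R := sub_eq_zero.1 e2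
    have e4 : R + R = P i := by rw [e3, two_zsmul]
    have hR0 : R ≠ 0 := by
      intro h0
      rw [h0, hz2] at e3
      exact (hnear i).2.2.2.2 e3
    obtain ⟨hRu0, hRl⟩ := hRlow hR0
    have h1 := ML_double hRN hRu e4
    have h2 : (x i : ℝ) * uu R ^ 2 ≤ 3 := by
      have h3 : (99 / 50 * |uu R|) ^ 2 ≤ |uu (P i)| ^ 2 := pow_le_pow_left₀ (by positivity) h1 2
      rw [mul_pow, sq_abs, sq_abs] at h3
      have h4 : (x i : ℝ) * ((99 / 50) ^ 2 * uu R ^ 2) ≤ x i * uu (P i) ^ 2 :=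
        mul_le_mul_of_nonneg_left h3 (hx0 i).le
      have h5 := (hnear i).2.2.1
      have h6 : 0 ≤ (x i : ℝ) * uu R ^ 2 := mul_nonneg (hx0 i).le (sq_nonneg _)
      nlinarith
    have h3 := ML_log (hx0 i) hRu0 h2
    have h4 : hh (P i) = ((2 : ℤ) : ℝ) ^ 2 * hh R := by
      rw [e3]
      exact hh_zsmul hcan.par 2 R
    have h6 := hupp i
    push_cast at h4
    have h7 : Real.log X ≤ Real.log (x i) := Real.log_le_log hX (hXx i)
    have h8 : 6 * Real.log X ≤ 3 * Real.log W + 4 * Real.log |(k : ℝ)| + K := by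
      rw [hK]
      linarith
    have h9 := ML_final hX hW hκ h8
    have h10 : Real.exp K * W ^ 3 * |(k : ℝ)| ^ 4 ≤
        ((4 * G) ^ 6 / c₁ + Real.exp K) * W ^ 3 * |(k : ℝ)| ^ 4 := by
      have h11 : 0 ≤ (4 * G) ^ 6 / c₁ := by positivity
      have h12 : 0 ≤ W ^ 3 * |(k : ℝ)| ^ 4 := by positivity
      nlinarith [mul_nonneg h11 h12]
    linarith
  · -- case P i - P j = 2 R
    have e1 : P i - P j - (2 : ℤ) • R =
        ∑ m, ((if m = i then (1 : ℤ) else 0) - (if m = j then (1 : ℤ) else 0) - 2 * d m) • P m := by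
      simp only [sub_smul, Finset.sum_sub_distrib, ML_sum_single, mul_smul]
      rw [hR, Finset.smul_sum]
    have e2 : P i - P j - (2 : ℤ) • R = 0 := by
      have h1 := (hcb (fun m => (if m = i then (1 : ℤ) else 0) - (if m = j then (1 : ℤ) else 0) - 2 * d m)
        (fun m => by
        have ha := abs_sub (((if m = i then (1 : ℤ) else 0 : ℤ) : ℝ) - ((if m = j then (1 : ℤ) else 0 : ℤ) : ℝ)) (2 * (d m : ℝ))
        have ha' := abs_sub ((if m = i then (1 : ℤ) else 0 : ℤ) : ℝ) ((if m = j then (1 : ℤ) else 0 : ℤ) : ℝ)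
        have hb := hδ m i
        have hb' := hδ m j
        have hc2 : |2 * (d m : ℝ)| = 2 * |(d m : ℝ)| := by rw [abs_mul, abs_two]
        have hd2 := hdk m
        rw [hA]
        push_cast at ha ha' hb hb' ⊢
        linarith)).2.1
      rw [← e1] at h1
      exact h1 hpar
    have e3 : P i - P j = (2 : ℤ) • R := sub_eq_zero.1 e2
    have e4 : ∑ m, ((if m = i then (1 : ℤ) else 0) - d m) • P m = P i - R := by
      simp only [sub_smul, Finset.sum_sub_distrib, ML_sum_single]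
      rw [hR]
    have hcS := hcb (fun m => (if m = i then (1 : ℤ) else 0) - d m) (fun m => by
        have ha := abs_sub ((if m = i then (1 : ℤ) else 0 : ℤ) : ℝ) (d m : ℝ)
        have hb := hδ m i
        have hd2 := hdk m
        rw [hA]
        push_cast at ha hb ⊢
        linarith)
    rw [e4] at hcS
    obtain ⟨_, _, ⟨hSN, hSu⟩, hSlow⟩ := hcS
    have hRR : (2 : ℤ) • R = R + R := two_zsmul R
    have e5 : P i - R - R = P j := by
      rw [hRR] at e3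
      have : P i - R - R = P i - (R + R) := by abel
      rw [this, ← e3]
      abel
    have e6 : P i - R + R = P i := by abel
    have e7 : R + R = P i + -P j := by
      rw [← hRR, ← e3, sub_eq_add_neg]
    have e8 : (P i - R) + (P i - R) = P i + P j := by
      rw [← e5]
      abel
    have hR0 : R ≠ 0 := by
      intro h0
      rw [h0, hz2] at e3
      exact hij (hinj (ML_x_eq (hint i) (hint j) (Or.inl (sub_eq_zero.1 e3))))
    have hS0 : P i - R ≠ 0 := by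
      intro h0
      have h1 : P i = R := sub_eq_zero.1 h0
      rw [h0, zero_sub, ← h1] at e5
      apply hij
      refine hinj (ML_x_eq (hint i) (hint j) (Or.inr ?_))
      rw [← e5, neg_neg]
    obtain ⟨hRu0, hRl⟩ := hRlow hR0
    obtain ⟨hSu0, hSl⟩ := hSlow hS0
    -- the smaller of the two coordinates
    set xm : ℝ := min (x i : ℝ) (x j : ℝ) with hxm
    have hxm0 : 0 < xm := lt_min (hx0 i) (hx0 j)
    have hXm : X ≤ xm := le_min (hXx i) (hXx j)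
    have hxi : xm ≤ x i := min_le_left _ _
    have hxj : xm ≤ x j := min_le_right _ _
    have hxm3 : 512 * 10 ^ 6 * |(k : ℝ)| ≤ xm ^ 3 :=
      hX3.trans (pow_le_pow_left₀ hX.le hXm 3)
    have hui : xm * uu (P i) ^ 2 ≤ 2 :=
      (mul_le_mul_of_nonneg_right hxi (sq_nonneg _)).trans (hnear i).2.2.1
    have huj : xm * uu (P j) ^ 2 ≤ 2 :=
      (mul_le_mul_of_nonneg_right hxj (sq_nonneg _)).trans (hnear j).2.2.1
    have huj' : xm * uu (-P j) ^ 2 ≤ 2 := by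
      rw [uu_neg, neg_sq]
      exact huj
    have hadd := ML_add (hnear i).1 (near_neg (hnear j).1) hxm0 hxm3 hui huj'
    have hadd' := ML_add (hnear i).1 (hnear j).1 hxm0 hxm3 hui huj
    have hRx : xm * uu R ^ 2 ≤ 3 := by
      have h1 := ML_double hRN hRu e7
      have h3 : (99 / 50 * |uu R|) ^ 2 ≤ |uu (P i + -P j)| ^ 2 := pow_le_pow_left₀ (by positivity) h1 2
      rw [mul_pow, sq_abs, sq_abs] at h3
      have h4 : xm * ((99 / 50) ^ 2 * uu R ^ 2) ≤ xm * uu (P i + -P j) ^ 2 :=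
        mul_le_mul_of_nonneg_left h3 hxm0.le
      have h6 : 0 ≤ xm * uu R ^ 2 := mul_nonneg hxm0.le (sq_nonneg _)
      nlinarith
    have hSx : xm * uu (P i - R) ^ 2 ≤ 3 := by
      have h1 := ML_double hSN hSu e8
      have h3 : (99 / 50 * |uu (P i - R)|) ^ 2 ≤ |uu (P i + P j)| ^ 2 :=
        pow_le_pow_left₀ (by positivity) h1 2
      rw [mul_pow, sq_abs, sq_abs] at h3
      have h4 : xm * ((99 / 50) ^ 2 * uu (P i - R) ^ 2) ≤ xm * uu (P i + P j) ^ 2 :=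
        mul_le_mul_of_nonneg_left h3 hxm0.le
      have h6 : 0 ≤ xm * uu (P i - R) ^ 2 := mul_nonneg hxm0.le (sq_nonneg _)
      nlinarith
    have hRlog := ML_log hxm0 hRu0 hRx
    have hSlog := ML_log hxm0 hSu0 hSx
    have h4 := hcan.par (P i - R) R
    rw [e5, e6] at h4
    have h7 := hupp i
    have h8 := hupp j
    have hprod : Real.log (x i) + Real.log (x j) ≤ Real.log W + 2 * Real.log xm := by
      have h9 : (x i : ℝ) * x j ≤ W * xm ^ 2 := by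
        have h10 : (x i : ℝ) * x j = xm * max (x i : ℝ) (x j : ℝ) := by
          rw [hxm, min_mul_max]
        have h11 : max (x i : ℝ) (x j : ℝ) ≤ W * xm := by
          refine (max_le (hxW i) (hxW j)).trans ?_
          exact mul_le_mul_of_nonneg_left hXm (by linarith)
        rw [h10]
        nlinarith [mul_le_mul_of_nonneg_left h11 hxm0.le]
      have h10 : Real.log ((x i : ℝ) * x j) ≤ Real.log (W * xm ^ 2) :=
        Real.log_le_log (mul_pos (hx0 i) (hx0 j)) h9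
      rw [Real.log_mul (hx0 i).ne' (hx0 j).ne', Real.log_mul (by linarith : W ≠ 0) (by positivity),
        Real.log_pow] at h10
      push_cast at h10
      exact h10
    have h9 : Real.log X ≤ Real.log xm := Real.log_le_log hX hXm
    have h10 : 6 * Real.log X ≤ 3 * Real.log W + 4 * Real.log |(k : ℝ)| + K := by
      rw [hK]
      linarith
    have h11 := ML_final hX hW hκ h10
    have h12 : Real.exp K * W ^ 3 * |(k : ℝ)| ^ 4 ≤
        ((4 * G) ^ 6 / c₁ + Real.exp K) * W ^ 3 * |(k : ℝ)| ^ 4 := by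
      have h11 : 0 ≤ (4 * G) ^ 6 / c₁ := by positivity
      have h12 : 0 ≤ W ^ 3 * |(k : ℝ)| ^ 4 := by positivity
      nlinarith [mul_nonneg h11 h12]
    linarith

end Pool.Agent.LibDM24
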