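import Pool.Agent.LibDM24.MK

/-!
ROW ML1 (MEDIUM). Two dependent integral points of `y² = x³ + k` (cites LibDP24.H3, MD, MJ, MK as stated; compare LibDP24/F2.lean, DP24_F2.lean by
helper97).

PLAN. `κ = |k|`, `ℓ = log κ ≥ 0`. Suppose `X³ > C q⁶ κ`. `zero_relationM` (s = 1): `a : Fin 2 → ℤ`, `|a i| ≤ C' q`, relation modulo torsion for `![P₀, P₁]`; `comboM` (N = 2, `A = C' q`):
exact relation `a 0 • P₀ + a 1 • P₁ = 0`, `|a 0 u₀ + a 1 u₁| ≤ (1/4)(|a 0 u₀| + |a 1 u₁|)`; so both `a i ≠ 0` (`u_i ≠ 0`) and `3 |a 0 u₀| ≥ ... `: each of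
`|a 0 u₀|, |a 1 u₁|` is `≤ (5/3)` times the other. `s_i = √(hh P_i)`: `|a 0| s₀ = |a 1| s₁` (`hh_zsmul`). Wlog `s₀ ≥ s₁` (swap), so `|a 1| ≥ |a 0|`,
`|u₀| ≥ (3/5)|u₁|`, `x₀ ≤ 2/u₀² ≤ 12 x₁` (`near_intM`). `s₀² - s₁² ≤ (log x₀ + C₀) - (log x₁ - ℓ/3 - C₀) ≤ ℓ/3 + 2 C₀ + 3` (`canM_le`, `canM_ge`). With `ε` = sign of `a 0 * a 1`,
`R = P₀ + ε • P₁`: `a 0 • R = (ε a 0 - a 1) • P₁`, `hh R = (s₀ - s₁)² ≤ s₀² - s₁²`. `R ≠ 0` (`x₀ ≠ x₁`). Fourth claim of `comboM` (coefficients `1, ε`), `|uu R| ≤ (5/4)(|u₀|+|u₁|) ≤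
2.5 √(2/X)`: `hh R ≥ log X - 3 - ℓ/3 - (C₀+1)`. So `log X ≤ (2/3) ℓ + C`, `X³ ≤ C κ²`.
-/

set_option autoImplicit false

open WeierstrassCurve Pool.Agent.LibDP24

namespace Pool.Agent.LibDM24

private theorem ML1_hh {G : Type*} [AddCommGroup G] {hh : G → ℝ}
    (par : ∀ R S, hh (R + S) + hh (R - S) = 2 * hh R + 2 * hh S) (nonneg : ∀ R, 0 ≤ hh R)
    {P Q : G} {m n : ℤ} (hm : m ≠ 0) (hn : n ≠ 0) (h : m • P + n • Q = 0) :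
    (|(m : ℝ)| * √(hh P) = |(n : ℝ)| * √(hh Q)) ∧
    ∃ ε : ℤ, (ε = 1 ∨ ε = -1) ∧ hh (P + ε • Q) ≤ |hh Q - hh P| := by
  have e1 : m • P = (-n) • Q := by
    rw [neg_smul]
    exact eq_neg_of_add_eq_zero_left h
  have e2 : (m : ℝ) ^ 2 * hh P = (n : ℝ) ^ 2 * hh Q := by
    rw [← hh_zsmul par m P, e1, hh_zsmul par (-n) Q]
    push_cast
    ring
  have hs : √(hh P) ^ 2 = hh P := Real.sq_sqrt (nonneg P)
  have ht : √(hh Q) ^ 2 = hh Q := Real.sq_sqrt (nonneg Q)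
  have hs0 : 0 ≤ √(hh P) := Real.sqrt_nonneg _
  have ht0 : 0 ≤ √(hh Q) := Real.sqrt_nonneg _
  have hmR : (m : ℝ) ≠ 0 := by exact_mod_cast hm
  have hms : |(m : ℝ)| * √(hh P) = |(n : ℝ)| * √(hh Q) := by
    have h1 : (|(m : ℝ)| * √(hh P)) ^ 2 = (|(n : ℝ)| * √(hh Q)) ^ 2 := by
      rw [mul_pow, mul_pow, sq_abs, sq_abs, hs, ht]
      exact e2
    exact (pow_left_inj₀ (by positivity) (by positivity) two_ne_zero).1 h1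
  refine ⟨hms, ?_⟩
  have key : ∀ (S : G) (k : ℤ), m • (P + S) = k • Q → (k : ℝ) ^ 2 = (|(m : ℝ)| - |(n : ℝ)|) ^ 2 →
      hh (P + S) ≤ |hh Q - hh P| := by
    intro S k hk hk2
    have e3 : (m : ℝ) ^ 2 * hh (P + S) = (k : ℝ) ^ 2 * hh Q := by
      rw [← hh_zsmul par m, hk, hh_zsmul par k]
    have e4 : (m : ℝ) ^ 2 * hh (P + S) = (m : ℝ) ^ 2 * (√(hh Q) - √(hh P)) ^ 2 := by
      rw [e3, hk2]
      nth_rewrite 1 [← ht]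
      rw [← sq_abs (m : ℝ), ← mul_pow, ← mul_pow]
      congr 1
      linarith [hms]
    have e5 : hh (P + S) = (√(hh Q) - √(hh P)) ^ 2 := mul_left_cancel₀ (pow_ne_zero 2 hmR) e4
    have e6 : |hh Q - hh P| = |√(hh Q) + √(hh P)| * |√(hh Q) - √(hh P)| := by
      rw [← abs_mul, ← sq_sub_sq, hs, ht]
    rw [e5, e6, ← sq_abs, sq]
    apply mul_le_mul_of_nonneg_right _ (abs_nonneg _)
    rw [abs_of_nonneg (add_nonneg ht0 hs0), abs_le]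
    constructor <;> linarith
  rcases lt_or_gt_of_ne (mul_ne_zero hm hn) with hlt | hgt
  · refine ⟨-1, Or.inr rfl, ?_⟩
    rw [neg_smul, one_smul]
    refine key (-Q) (-n - m) ?_ ?_
    · rw [smul_add, e1, smul_neg, sub_smul, sub_eq_add_neg]
    · have h1 : (m : ℝ) * n < 0 := by exact_mod_cast hlt
      have h2 : |(m : ℝ)| * |(n : ℝ)| = -((m : ℝ) * n) := by rw [← abs_mul, abs_of_neg h1]
      push_cast
      nlinarith [sq_abs (m : ℝ), sq_abs (n : ℝ)]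
  · refine ⟨1, Or.inl rfl, ?_⟩
    rw [one_smul]
    refine key Q (-n + m) ?_ ?_
    · rw [smul_add, e1, add_smul]
    · have h1 : 0 < (m : ℝ) * n := by exact_mod_cast hgt
      have h2 : |(m : ℝ)| * |(n : ℝ)| = (m : ℝ) * n := by rw [← abs_mul, abs_of_pos h1]
      push_cast
      nlinarith [sq_abs (m : ℝ), sq_abs (n : ℝ)]

private theorem ML1_ne {k : ℤ} {P₀ P₁ : Pt 0 k} {x₀ x₁ : ℤ} (h₀ : IsInt P₀ x₀) (h₁ : IsInt P₁ x₁)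
    (hne : x₀ ≠ x₁) {ε : ℤ} (hε : ε = 1 ∨ ε = -1) : P₀ + ε • P₁ ≠ 0 := by
  obtain ⟨y₀, n₀, rfl⟩ := h₀
  obtain ⟨y₁, n₁, rfl⟩ := h₁
  intro h
  rcases hε with rfl | rfl
  · rw [one_smul] at h
    have h1 := eq_neg_of_add_eq_zero_left h
    rw [Affine.Point.neg_some] at h1
    injection h1 with h2 h3
    exact hne (by exact_mod_cast h2)
  · rw [neg_smul, one_smul] at h
    have h1 := eq_neg_of_add_eq_zero_left h
    rw [neg_neg] at h1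
    injection h1 with h2 h3
    exact hne (by exact_mod_cast h2)

private theorem ML1_log12 : Real.log 12 ≤ 3 := by
  have h1 : Real.log 12 ≤ Real.log (Real.exp 3) := by
    apply Real.log_le_log (by norm_num)
    have h2 : (2.7 : ℝ) < Real.exp 1 := lt_trans (by norm_num) Real.exp_one_gt_d9
    have h3 : Real.exp 3 = Real.exp 1 ^ 3 := by
      rw [← Real.exp_nat_mul]
      norm_num
    rw [h3]
    have h4 : (2.7 : ℝ) ^ 3 ≤ Real.exp 1 ^ 3 := pow_le_pow_left₀ (by norm_num) h2.le 3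
    norm_num at h4 ⊢
    linarith
  rwa [Real.log_exp] at h1

private theorem ML1_log13 : Real.log (25 / 2) ≤ 3 := by
  have h1 : Real.log (25 / 2) ≤ Real.log (Real.exp 3) := by
    apply Real.log_le_log (by norm_num)
    have h2 : (2.7 : ℝ) < Real.exp 1 := lt_trans (by norm_num) Real.exp_one_gt_d9
    have h3 : Real.exp 3 = Real.exp 1 ^ 3 := by
      rw [← Real.exp_nat_mul]
      norm_num
    rw [h3]
    have h4 : (2.7 : ℝ) ^ 3 ≤ Real.exp 1 ^ 3 := pow_le_pow_left₀ (by norm_num) h2.le 3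
    norm_num at h4 ⊢
    linarith
  rwa [Real.log_exp] at h1

/-- the main step, `hh P₁ ≤ hh P₀` -/
private theorem ML1_core {C₀ : ℝ} {k : ℤ} (hk : k ≠ 0) {hh : Pt 0 k → ℝ} (hc : IsCanM C₀ hh)
    {P₀ P₁ : Pt 0 k} {x₀ x₁ : ℤ} (h₀ : IsInt P₀ x₀) (h₁ : IsInt P₁ x₁) (hne : x₀ ≠ x₁) {X : ℝ} (hX : 0 < X)
    (hX₀ : X ≤ x₀) (hX₁ : X ≤ x₁) (hbig : 10 ^ 6 * |(k : ℝ)| ≤ X ^ 3) {m n : ℤ} (hm : m ≠ 0) (hn : n ≠ 0)
    (hrel : m • P₀ + n • P₁ = 0)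
    (hu : 3 / 5 * (|(n : ℝ)| * |uu P₁|) ≤ |(m : ℝ)| * |uu P₀|)
    (hcb : ∀ ε : ℤ, (ε = 1 ∨ ε = -1) → |uu (P₀ + ε • P₁) - (uu P₀ + ε * uu P₁)| ≤ 1 / 4 * (|uu P₀| + |uu P₁|) ∧
      (P₀ + ε • P₁ ≠ 0 → uu (P₀ + ε • P₁) ≠ 0 ∧
        -2 * Real.log |uu (P₀ + ε • P₁)| - 1 / 3 * Real.log |(k : ℝ)| - (C₀ + 1) ≤ hh (P₀ + ε • P₁)))
    (hle : hh P₁ ≤ hh P₀) (hC₀ : 0 ≤ C₀) : X ^ 3 ≤ Real.exp (9 * C₀ + 21) * |(k : ℝ)| ^ 2 := by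
  have hκ : (1 : ℝ) ≤ |(k : ℝ)| := by
    have h1 : (1 : ℤ) ≤ |k| := Int.one_le_abs hk
    exact_mod_cast h1
  have hℓ : 0 ≤ Real.log |(k : ℝ)| := Real.log_nonneg hκ
  have hX3₀ : X ^ 3 ≤ (x₀ : ℝ) ^ 3 := pow_le_pow_left₀ hX.le hX₀ 3
  have hX3₁ : X ^ 3 ≤ (x₁ : ℝ) ^ 3 := pow_le_pow_left₀ hX.le hX₁ 3
  have hx₀p : (0 : ℝ) < x₀ := by linarith
  have hx₁p : (0 : ℝ) < x₁ := by linarith
  obtain ⟨-, -, hu₀, hu₀0, -⟩ := near_intM hk h₀ (hbig.trans hX3₀)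
  obtain ⟨-, hu₁l, hu₁, hu₁0, -⟩ := near_intM hk h₁ (hbig.trans hX3₁)
  obtain ⟨hms, ε, hε, hR⟩ := ML1_hh hc.par hc.nonneg hm hn hrel
  have hmp : 0 < |(m : ℝ)| := abs_pos.2 (by exact_mod_cast hm)
  -- the difference of the heights
  have hD : hh P₀ - hh P₁ ≤ 1 / 3 * Real.log |(k : ℝ)| + 2 * C₀ + 3 := by
    rcases eq_or_lt_of_le (hc.nonneg P₁) with hz | hpos
    · have hs1 : √(hh P₁) = 0 := by rw [← hz, Real.sqrt_zero]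
      rw [hs1, mul_zero] at hms
      have hs0 : √(hh P₀) = 0 := (mul_eq_zero.1 hms).resolve_left hmp.ne'
      have h1 : hh P₀ = 0 := le_antisymm (Real.sqrt_eq_zero'.1 hs0) (hc.nonneg P₀)
      rw [h1, ← hz]
      linarith
    · have hs1 : 0 < √(hh P₁) := Real.sqrt_pos.2 hpos
      have hs01 : √(hh P₁) ≤ √(hh P₀) := Real.sqrt_le_sqrt hle
      have hmn : |(m : ℝ)| ≤ |(n : ℝ)| := by
        have h1 : |(m : ℝ)| * √(hh P₁) ≤ |(n : ℝ)| * √(hh P₁) := by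
          rw [← hms]
          exact mul_le_mul_of_nonneg_left hs01 (abs_nonneg _)
        exact le_of_mul_le_mul_right h1 hs1
      have hu01 : 3 / 5 * |uu P₁| ≤ |uu P₀| := by
        have h1 : |(m : ℝ)| * (3 / 5 * |uu P₁|) ≤ |(m : ℝ)| * |uu P₀| := by
          have h2 : |(m : ℝ)| * |uu P₁| ≤ |(n : ℝ)| * |uu P₁| := mul_le_mul_of_nonneg_right hmn (abs_nonneg _)
          nlinarith
        exact le_of_mul_le_mul_left h1 hmp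
      have hu01' : 9 / 25 * uu P₁ ^ 2 ≤ uu P₀ ^ 2 := by
        have h1 : (3 / 5 * |uu P₁|) ^ 2 ≤ |uu P₀| ^ 2 := pow_le_pow_left₀ (by positivity) hu01 2
        rw [mul_pow, sq_abs, sq_abs] at h1
        norm_num at h1 ⊢
        linarith
      have h12 : (x₀ : ℝ) ≤ 12 * x₁ := by
        have h1 : (x₀ : ℝ) * (9 / 25 * uu P₁ ^ 2) ≤ 2 :=
          (mul_le_mul_of_nonneg_left hu01' hx₀p.le).trans hu₀
        have h2 : (x₀ : ℝ) * (1 / 2) ≤ x₀ * (x₁ * uu P₁ ^ 2) := mul_le_mul_of_nonneg_left hu₁l hx₀p.le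
        have h3 : (x₁ : ℝ) * ((x₀ : ℝ) * (9 / 25 * uu P₁ ^ 2)) ≤ x₁ * 2 := mul_le_mul_of_nonneg_left h1 hx₁p.le
        nlinarith
      have h3 := canM_le hk hc h₀ (by exact_mod_cast hx₀p) (by
        have h4 : |(k : ℝ)| ≤ 10 ^ 6 * |(k : ℝ)| := by linarith
        linarith)
      have h4 : Real.log x₁ - 1 / 3 * Real.log |(k : ℝ)| - C₀ ≤ hh P₁ := by
        obtain ⟨y₁, n₁, hP₁⟩ := h₁
        have h5 := canM_ge hk hc n₁ (by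
          have : x₁ ≠ 0 := by
            intro h0
            rw [h0, Int.cast_zero] at hx₁p
            exact lt_irrefl _ hx₁p
          exact_mod_cast this)
        rw [← hP₁, Rat.cast_intCast, abs_of_pos hx₁p] at h5
        exact h5
      have h5 : Real.log x₀ ≤ Real.log 12 + Real.log x₁ := by
        rw [← Real.log_mul (by norm_num) hx₁p.ne']
        exact Real.log_le_log hx₀p h12
      have h6 := ML1_log12
      linarith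
  have hR' : hh (P₀ + ε • P₁) ≤ 1 / 3 * Real.log |(k : ℝ)| + 2 * C₀ + 3 := by
    rw [abs_sub_comm, abs_of_nonneg (by linarith)] at hR
    linarith
  obtain ⟨h1, h2⟩ := hcb ε hε
  obtain ⟨h3, h4⟩ := h2 (ML1_ne h₀ h₁ hne hε)
  have hεa : |(ε : ℝ)| = 1 := by
    rcases hε with rfl | rfl <;> norm_num
  have h5 : |uu (P₀ + ε • P₁)| ≤ 5 / 4 * (|uu P₀| + |uu P₁|) := by
    have e : uu (P₀ + ε • P₁) = (uu (P₀ + ε • P₁) - (uu P₀ + ε * uu P₁)) + (uu P₀ + ε * uu P₁) := by ring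
    have h6 : |uu P₀ + ε * uu P₁| ≤ |uu P₀| + |uu P₁| := by
      refine (abs_add_le _ _).trans ?_
      rw [abs_mul, hεa, one_mul]
    rw [e]
    refine (abs_add_le _ _).trans ?_
    linarith
  have h6 : X * uu (P₀ + ε • P₁) ^ 2 ≤ 25 / 2 := by
    have e1 : X * uu P₀ ^ 2 ≤ 2 := (mul_le_mul_of_nonneg_right hX₀ (sq_nonneg _)).trans hu₀
    have e2 : X * uu P₁ ^ 2 ≤ 2 := (mul_le_mul_of_nonneg_right hX₁ (sq_nonneg _)).trans hu₁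
    have e3 : uu (P₀ + ε • P₁) ^ 2 ≤ (5 / 4 * (|uu P₀| + |uu P₁|)) ^ 2 := by
      rw [← sq_abs (uu (P₀ + ε • P₁))]
      exact pow_le_pow_left₀ (abs_nonneg _) h5 2
    have e4 : (5 / 4 * (|uu P₀| + |uu P₁|)) ^ 2 ≤ 25 / 16 * (2 * (uu P₀ ^ 2 + uu P₁ ^ 2)) := by
      nlinarith [sq_nonneg (|uu P₀| - |uu P₁|), sq_abs (uu P₀), sq_abs (uu P₁)]
    have e5 := mul_le_mul_of_nonneg_left (e3.trans e4) hX.le
    have e6 : X * (25 / 16 * (2 * (uu P₀ ^ 2 + uu P₁ ^ 2))) =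
        25 / 8 * (X * uu P₀ ^ 2) + 25 / 8 * (X * uu P₁ ^ 2) := by ring
    linarith
  have h7 : Real.log X - 3 ≤ -2 * Real.log |uu (P₀ + ε • P₁)| := by
    have hup : 0 < |uu (P₀ + ε • P₁)| := abs_pos.2 h3
    have e1 : Real.log (X * uu (P₀ + ε • P₁) ^ 2) = Real.log X + 2 * Real.log |uu (P₀ + ε • P₁)| := by
      rw [← sq_abs, Real.log_mul hX.ne' (by positivity), Real.log_pow]
      norm_num
    have e2 : Real.log (X * uu (P₀ + ε • P₁) ^ 2) ≤ Real.log (25 / 2) := by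
      apply Real.log_le_log _ h6
      rw [← sq_abs]
      positivity
    have e3 := ML1_log13
    linarith
  have h8 : 3 * Real.log X ≤ 2 * Real.log |(k : ℝ)| + (9 * C₀ + 21) := by linarith
  have h9 : Real.exp (3 * Real.log X) = X ^ 3 := by
    have e : (3 : ℝ) * Real.log X = ((3 : ℕ) : ℝ) * Real.log X := by norm_num
    rw [e, Real.exp_nat_mul, Real.exp_log hX]
  have h10 : Real.exp (2 * Real.log |(k : ℝ)| + (9 * C₀ + 21)) = Real.exp (9 * C₀ + 21) * |(k : ℝ)| ^ 2 := by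
    have e : (2 : ℝ) * Real.log |(k : ℝ)| = ((2 : ℕ) : ℝ) * Real.log |(k : ℝ)| := by norm_num
    rw [Real.exp_add, e, Real.exp_nat_mul, Real.exp_log (by linarith), mul_comm]
  rw [← h9, ← h10]
  exact Real.exp_le_exp.2 h8

private theorem ML1_uu0 {k : ℤ} : uu (0 : Pt 0 k) = 0 := rfl

/-- the statement for `hh P₁ ≤ hh P₀` -/
private theorem ML1_wlog (C₀ : ℝ) (hC₀ : 0 ≤ C₀) : ∃ C : ℝ, 1 ≤ C ∧
    ∀ k : ℤ, k ≠ 0 → ∀ hh : Pt 0 k → ℝ, IsCanM C₀ hh →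
    ∀ (q X : ℝ), 1 ≤ q → 0 < X → ∀ (P₀ P₁ : Pt 0 k) (x₀ x₁ : ℤ), IsInt P₀ x₀ → IsInt P₁ x₁ →
      x₀ ≠ x₁ → hh P₀ ≤ q ^ 2 → hh P₁ ≤ q ^ 2 → ¬ LinearIndependent ℤ ![P₀, P₁] →
      X ≤ x₀ → X ≤ x₁ → hh P₁ ≤ hh P₀ →
      X ^ 3 ≤ C * q ^ 6 * |(k : ℝ)| ∨ X ^ 3 ≤ C * |(k : ℝ)| ^ 2 := by
  obtain ⟨C', hC', hzr⟩ := zero_relationM C₀ hC₀ 1
  obtain ⟨c₁, hc₁, hc₁6, hcm⟩ := comboM C₀ hC₀ 2
  refine ⟨C' ^ 6 / c₁ + Real.exp (9 * C₀ + 21), ?_, ?_⟩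
  · have h1 : 1 ≤ Real.exp (9 * C₀ + 21) := Real.one_le_exp (by linarith)
    have h2 : 0 ≤ C' ^ 6 / c₁ := by positivity
    linarith
  intro k hk hh hc q X hq hX P₀ P₁ x₀ x₁ h₀ h₁ hne hq₀ hq₁ hli hX₀ hX₁ hle
  by_cases hsm : X ^ 3 ≤ (C' ^ 6 / c₁ + Real.exp (9 * C₀ + 21)) * q ^ 6 * |(k : ℝ)|
  · exact Or.inl hsm
  right
  rw [not_le] at hsm
  have hκ : (1 : ℝ) ≤ |(k : ℝ)| := by
    have h1 : (1 : ℤ) ≤ |k| := Int.one_le_abs hk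
    exact_mod_cast h1
  obtain ⟨A, hA⟩ : ∃ A : ℝ, A = C' * q := ⟨_, rfl⟩
  have hA1 : 1 ≤ A := by
    rw [hA]
    exact one_le_mul_of_one_le_of_one_le hC' hq
  have hAX : A ^ 6 * |(k : ℝ)| ≤ c₁ * X ^ 3 := by
    have h1 : C' ^ 6 / c₁ * q ^ 6 * |(k : ℝ)| ≤ X ^ 3 := by
      refine le_trans ?_ hsm.le
      have h2 : 0 ≤ Real.exp (9 * C₀ + 21) * q ^ 6 * |(k : ℝ)| := by positivity
      linarith
    have h2 := mul_le_mul_of_nonneg_left h1 hc₁.le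
    have h3 : c₁ * (C' ^ 6 / c₁ * q ^ 6 * |(k : ℝ)|) = A ^ 6 * |(k : ℝ)| := by
      rw [hA]
      field_simp
    rwa [h3] at h2
  have hbig : 10 ^ 6 * |(k : ℝ)| ≤ X ^ 3 := by
    have h1 : |(k : ℝ)| ≤ A ^ 6 * |(k : ℝ)| := le_mul_of_one_le_left (abs_nonneg _) (one_le_pow₀ hA1)
    have h2 : c₁ * X ^ 3 ≤ 1 / 10 ^ 6 * X ^ 3 := mul_le_mul_of_nonneg_right hc₁6 (by positivity)
    have h3 : |(k : ℝ)| ≤ 1 / 10 ^ 6 * X ^ 3 := h1.trans (hAX.trans h2)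
    linarith
  have hint : ∀ i, IsInt (![P₀, P₁] i) (![x₀, x₁] i) := by
    intro i
    fin_cases i
    · exact h₀
    · exact h₁
  have hXx : ∀ i, X ≤ ((![x₀, x₁] i : ℤ) : ℝ) := by
    intro i
    fin_cases i
    · exact hX₀
    · exact hX₁
  have hcm' := hcm k hk hh hc ![P₀, P₁] ![x₀, x₁] hint X A hX hA1 hXx hAX
  obtain ⟨a, ha0, haA, hafin⟩ := hzr k hk hh hc q hq ![P₀, P₁] (by
    intro i
    fin_cases i
    · exact hq₀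
    · exact hq₁) hli
  have hr := hcm' a (fun i => by
    have h1 := haA i
    rw [pow_one, ← hA] at h1
    exact h1)
  have hz := hr.2.1 hafin
  have hr1 := hr.1
  rw [hz, ML1_uu0, zero_sub, abs_neg, Fin.sum_univ_two, Fin.sum_univ_two] at hr1
  rw [Fin.sum_univ_two] at hz
  have hr1' : |(a 0 : ℝ) * uu P₀ + (a 1 : ℝ) * uu P₁| ≤
      1 / 4 * (|(a 0 : ℝ)| * |uu P₀| + |(a 1 : ℝ)| * |uu P₁|) := hr1
  have hz' : a 0 • P₀ + a 1 • P₁ = 0 := hz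
  have hX3₀ : X ^ 3 ≤ (x₀ : ℝ) ^ 3 := pow_le_pow_left₀ hX.le hX₀ 3
  have hX3₁ : X ^ 3 ≤ (x₁ : ℝ) ^ 3 := pow_le_pow_left₀ hX.le hX₁ 3
  obtain ⟨-, -, -, hu₀0, -⟩ := near_intM hk h₀ (hbig.trans hX3₀)
  obtain ⟨-, -, -, hu₁0, -⟩ := near_intM hk h₁ (hbig.trans hX3₁)
  have hu₀p : 0 < |uu P₀| := abs_pos.2 hu₀0
  have hu₁p : 0 < |uu P₁| := abs_pos.2 hu₁0
  have hαβ : |(a 1 : ℝ)| * |uu P₁| - |(a 0 : ℝ)| * |uu P₀| ≤
      1 / 4 * (|(a 0 : ℝ)| * |uu P₀| + |(a 1 : ℝ)| * |uu P₁|) := by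
    refine le_trans ?_ hr1'
    have h1 : (a 1 : ℝ) * uu P₁ = ((a 0 : ℝ) * uu P₀ + (a 1 : ℝ) * uu P₁) - (a 0 : ℝ) * uu P₀ := by ring
    have h2 : |(a 1 : ℝ) * uu P₁| ≤ |(a 0 : ℝ) * uu P₀ + (a 1 : ℝ) * uu P₁| + |(a 0 : ℝ) * uu P₀| := by
      rw [h1]
      exact (abs_sub _ _).trans (by rw [← h1])
    rw [abs_mul, abs_mul (a 0 : ℝ)] at h2
    linarith
  have hαβ' : |(a 0 : ℝ)| * |uu P₀| - |(a 1 : ℝ)| * |uu P₁| ≤
      1 / 4 * (|(a 0 : ℝ)| * |uu P₀| + |(a 1 : ℝ)| * |uu P₁|) := by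
    refine le_trans ?_ hr1'
    have h1 : (a 0 : ℝ) * uu P₀ = ((a 0 : ℝ) * uu P₀ + (a 1 : ℝ) * uu P₁) - (a 1 : ℝ) * uu P₁ := by ring
    have h2 : |(a 0 : ℝ) * uu P₀| ≤ |(a 0 : ℝ) * uu P₀ + (a 1 : ℝ) * uu P₁| + |(a 1 : ℝ) * uu P₁| := by
      rw [h1]
      exact (abs_sub _ _).trans (by rw [← h1])
    rw [abs_mul, abs_mul (a 1 : ℝ)] at h2
    linarith
  have ha0' : a 0 ≠ 0 := by
    intro h0
    have h1 : a 1 ≠ 0 := by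
      intro h1
      apply ha0
      funext i
      fin_cases i
      · exact h0
      · exact h1
    rw [h0, Int.cast_zero, abs_zero, zero_mul, sub_zero, zero_add] at hαβ
    have h2 : 0 < |(a 1 : ℝ)| * |uu P₁| := mul_pos (abs_pos.2 (by exact_mod_cast h1)) hu₁p
    linarith
  have ha1' : a 1 ≠ 0 := by
    intro h1
    rw [h1, Int.cast_zero, abs_zero, zero_mul, sub_zero, add_zero] at hαβ'
    have h2 : 0 < |(a 0 : ℝ)| * |uu P₀| := mul_pos (abs_pos.2 (by exact_mod_cast ha0')) hu₀p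
    linarith
  have hfin := ML1_core hk hc h₀ h₁ hne hX hX₀ hX₁ hbig ha0' ha1' hz' (by linarith) (by
    intro ε hε
    have hεa : |(ε : ℝ)| = 1 := by
      rcases hε with rfl | rfl <;> norm_num
    have h1 := hcm' ![1, ε] (by
      intro i
      fin_cases i
      · show |((1 : ℤ) : ℝ)| ≤ A
        rw [Int.cast_one, abs_one]
        exact hA1
      · show |(ε : ℝ)| ≤ A
        rw [hεa]
        exact hA1)
    have h2 := h1.1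
    have h3 := h1.2.2.2
    rw [Fin.sum_univ_two, Fin.sum_univ_two, Fin.sum_univ_two] at h2
    rw [Fin.sum_univ_two] at h3
    have h4 : |uu ((1 : ℤ) • P₀ + ε • P₁) - (((1 : ℤ) : ℝ) * uu P₀ + (ε : ℝ) * uu P₁)| ≤
        1 / 4 * (|((1 : ℤ) : ℝ)| * |uu P₀| + |(ε : ℝ)| * |uu P₁|) := h2
    have h5 : (1 : ℤ) • P₀ + ε • P₁ ≠ 0 → uu ((1 : ℤ) • P₀ + ε • P₁) ≠ 0 ∧
        -2 * Real.log |uu ((1 : ℤ) • P₀ + ε • P₁)| - 1 / 3 * Real.log |(k : ℝ)| - (C₀ + 1) ≤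
          hh ((1 : ℤ) • P₀ + ε • P₁) := h3
    rw [one_smul, Int.cast_one, one_mul, abs_one, one_mul, hεa, one_mul] at h4
    rw [one_smul] at h5
    exact ⟨h4, h5⟩) hle hC₀
  refine hfin.trans ?_
  apply mul_le_mul_of_nonneg_right _ (by positivity)
  have h2 : 0 ≤ C' ^ 6 / c₁ := by positivity
  linarith

theorem pairM (C₀ : ℝ) (hC₀ : 0 ≤ C₀) : ∃ C : ℝ, 1 ≤ C ∧
    ∀ k : ℤ, k ≠ 0 → ∀ hh : Pt 0 k → ℝ, IsCanM C₀ hh →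
    ∀ (q X : ℝ), 1 ≤ q → 0 < X → ∀ (P₀ P₁ : Pt 0 k) (x₀ x₁ : ℤ), IsInt P₀ x₀ → IsInt P₁ x₁ →
      x₀ ≠ x₁ → hh P₀ ≤ q ^ 2 → hh P₁ ≤ q ^ 2 → ¬ LinearIndependent ℤ ![P₀, P₁] →
      X ≤ x₀ → X ≤ x₁ →
      X ^ 3 ≤ C * q ^ 6 * |(k : ℝ)| ∨ X ^ 3 ≤ C * |(k : ℝ)| ^ 2 := by
  obtain ⟨C, hC, h⟩ := ML1_wlog C₀ hC₀
  refine ⟨C, hC, ?_⟩
  intro k hk hh hc q X hq hX P₀ P₁ x₀ x₁ h₀ h₁ hne hq₀ hq₁ hli hX₀ hX₁
  rcases le_total (hh P₁) (hh P₀) with hle | hle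
  · exact h k hk hh hc q X hq hX P₀ P₁ x₀ x₁ h₀ h₁ hne hq₀ hq₁ hli hX₀ hX₁ hle
  · refine h k hk hh hc q X hq hX P₁ P₀ x₁ x₀ h₁ h₀ hne.symm hq₁ hq₀ ?_ hX₁ hX₀ hle
    intro h1
    apply hli
    have h2 : Function.Injective (![1, 0] : Fin 2 → Fin 2) := by decide
    have h3 := h1.comp _ h2
    have h4 : ![P₁, P₀] ∘ (![1, 0] : Fin 2 → Fin 2) = ![P₀, P₁] := by
      funext i
      fin_cases i <;> rfl
    rwa [h4] at h3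

end Pool.Agent.LibDM24
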