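import Pool.Agent.LibDM24.ML
import Pool.Agent.LibDM24.ML1

/-!
ROW MM2 (MEDIUM/STRONG). Induction on the rank, sharp form (cites MK `compareM`, ML `class_windowM`, ML1 `pairM`; compare LibDP24/G5.lean, DP24_G5.lean by
helper74, and row MM by helper80: same proof, one more case).

PLAN. Induction on `s`; `κ = |k| ≥ 1`, `q ≥ 1`, `κ ≤ q⁴`. `s = 0`: as in MM (`compareM` with `s = 0`, `P₀ = P 0`, `Y = x 0`: every `X` is `≤ C x 0`, absurd).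
`s = 1`: `N ≥ 2`; `pairM` for `P 0, P 1` (`![P 0, P 1] = P ∘ ![0, 1]`), `X = min (x 0) (x 1)`: `X³ ≤ C κ² ≤ C κ q⁶`.
Step to `s + 1 ≥ 2`: suppose all `x i ^ 3 > C q^(6(s+1)) κ` (so `x i > 0`). Sort; `t = 2^(s+1) - 1`; the top `N - t ≥ 2^(s+1) - s - 1` points are not of rank `≤ s` by the
induction hypothesis, so `f : Fin (s+1) → Fin N` with values `≥ t` and `P ∘ f` independent. `compareM (s+1)` with `Y = x 0`, `X = x t`: `x t ≤ C' q^(2(s+1)) x i` for `i ≤ t`.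
`class_windowM (s+1)` with `X = x 0`, `W = C' q^(2(s+1))`: the second alternative gives `X⁶ ≤ C'' q^(6(s+1)) κ⁴ ≤ C'' q^(12(s+1)) κ²` because `κ² ≤ q⁸ ≤ q^(6(s+1))`, so
`X³ ≤ C''' q^(6(s+1)) κ`.
-/

set_option autoImplicit false

open WeierstrassCurve Pool.Agent.LibDP24

namespace Pool.Agent.LibDM24

private theorem MM2_cons {α : Type*} {N n : ℕ} (P : Fin N → α) (i : Fin N) (g : Fin n → Fin N) :
    (Fin.cons (P i) (P ∘ g) : Fin (n + 1) → α) = P ∘ (Fin.cons i g : Fin (n + 1) → Fin N) := by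
  funext j
  refine Fin.cases ?_ (fun k => ?_) j
  · simp
  · simp

private theorem MM2_pow (s : ℕ) : s + 2 ≤ 2 ^ (s + 1) := by
  induction s with
  | zero => norm_num
  | succ n ih => rw [pow_succ]; omega

/-- the statement for strictly monotone `x` -/
private def MM2_Cl (C₀ : ℝ) (s : ℕ) : Prop := ∃ C : ℝ, 1 ≤ C ∧
    ∀ k : ℤ, k ≠ 0 → ∀ hh : Pt 0 k → ℝ, IsCanM C₀ hh → ∀ q : ℝ, 1 ≤ q → |(k : ℝ)| ≤ q ^ 4 →
    ∀ (N : ℕ), 2 ^ (s + 1) ≤ N + s + 1 → ∀ (P : Fin N → Pt 0 k) (x : Fin N → ℤ),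
      (∀ i, IsInt (P i) (x i)) → StrictMono x → (∀ i, hh (P i) ≤ q ^ 2) →
      (∀ f : Fin (s + 1) → Fin N, ¬ LinearIndependent ℤ (P ∘ f)) →
      ∃ i, (x i : ℝ) ^ 3 ≤ C * q ^ (6 * s) * |(k : ℝ)|

private theorem MM2_pos {x a : ℝ} (ha : 0 ≤ a) (h : a < x ^ 3) : 0 < x := by
  by_contra hx
  have hx := not_lt.1 hx
  have : x ^ 3 ≤ 0 := by
    have h1 : 0 ≤ x ^ 2 := sq_nonneg x
    have h2 : x ^ 3 = x ^ 2 * x := by ring
    rw [h2]
    exact mul_nonpos_of_nonneg_of_nonpos h1 hx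
  linarith

private theorem MM2_zero (C₀ : ℝ) (hC₀ : 0 ≤ C₀) : MM2_Cl C₀ 0 := by
  obtain ⟨K, hK1, hK⟩ := compareM C₀ hC₀ 0
  refine ⟨K, hK1, ?_⟩
  intro k hk hh hcan q hq hkq N hN P x hP hx hhq hdep
  have hN1 : 0 < N := by
    simp at hN
    omega
  by_contra hcon
  have hcon : ∀ i, K * q ^ (6 * 0) * |(k : ℝ)| < (x i : ℝ) ^ 3 := fun i => by
    by_contra h
    exact hcon ⟨i, not_lt.1 h⟩
  set i0 : Fin N := ⟨0, hN1⟩ with hi0
  have hc0 := hcon i0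
  have hK0 : 0 ≤ K * q ^ (6 * 0) * |(k : ℝ)| := by positivity
  have hx0 := MM2_pos hK0 hc0
  let g : Fin 0 → Fin N := fun j => j.elim0
  have h := hK k hk hh hcan q (x i0 : ℝ) hq hx0 hc0.le (P i0) (x i0) (P ∘ g) (x ∘ g) (hP i0)
    (fun j => j.elim0) (hhq i0) (fun j => j.elim0) le_rfl (fun j => j.elim0)
    (linearIndependent_empty_type)
    (by
      rw [MM2_cons P i0 g]
      exact hdep _)
    (K * q ^ (2 * 0) * (x i0 : ℝ) + 1) (fun j => j.elim0)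
  linarith

private theorem MM2_one (C₀ : ℝ) (hC₀ : 0 ≤ C₀) : MM2_Cl C₀ 1 := by
  obtain ⟨K, hK1, hK⟩ := pairM C₀ hC₀
  refine ⟨K, hK1, ?_⟩
  intro k hk hh hcan q hq hkq N hN P x hP hx hhq hdep
  have hN2 : 2 ≤ N := by
    norm_num at hN
    omega
  by_contra hcon
  have hcon : ∀ i, K * q ^ (6 * 1) * |(k : ℝ)| < (x i : ℝ) ^ 3 := fun i => by
    by_contra h
    exact hcon ⟨i, not_lt.1 h⟩
  set i0 : Fin N := ⟨0, by omega⟩ with hi0
  set i1 : Fin N := ⟨1, by omega⟩ with hi1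
  have hc0 := hcon i0
  have hK0 : 0 ≤ K * q ^ (6 * 1) * |(k : ℝ)| := by positivity
  have hx0 := MM2_pos hK0 hc0
  have hlt : x i0 < x i1 := hx (by
    rw [Fin.lt_def]
    change 0 < 1
    norm_num)
  have hd : ¬ LinearIndependent ℤ ![P i0, P i1] := by
    have h1 := hdep ![i0, i1]
    have h2 : P ∘ ![i0, i1] = ![P i0, P i1] := by
      funext j
      fin_cases j <;> rfl
    rwa [h2] at h1
  have h6 : q ^ (6 * 1) = q ^ 6 := by norm_num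
  rcases hK k hk hh hcan q (x i0 : ℝ) hq hx0 (P i0) (P i1) (x i0) (x i1) (hP i0) (hP i1)
    hlt.ne (hhq i0) (hhq i1) hd le_rfl (by exact_mod_cast hlt.le) with h | h
  · rw [h6] at hc0
    linarith
  · have hq46 : q ^ 4 ≤ q ^ 6 := pow_le_pow_right₀ hq (by norm_num)
    have h2 : |(k : ℝ)| ^ 2 ≤ q ^ 6 * |(k : ℝ)| := by
      rw [sq]
      exact mul_le_mul_of_nonneg_right (hkq.trans hq46) (abs_nonneg _)
    have h3 : K * |(k : ℝ)| ^ 2 ≤ K * (q ^ 6 * |(k : ℝ)|) :=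
      mul_le_mul_of_nonneg_left h2 (by linarith)
    rw [h6] at hc0
    linarith

private theorem MM2_step (C₀ : ℝ) (hC₀ : 0 ≤ C₀) (s : ℕ) (hs : 1 ≤ s) (ih : MM2_Cl C₀ s) :
    MM2_Cl C₀ (s + 1) := by
  obtain ⟨K₁, hK₁1, hK₁⟩ := ih
  obtain ⟨K₂, hK₂1, hK₂⟩ := compareM C₀ hC₀ (s + 1)
  obtain ⟨K₃, hK₃1, hK₃⟩ := class_windowM C₀ hC₀ (s + 1)
  refine ⟨max K₁ (max K₂ (K₃ * K₂ ^ 3)), le_trans hK₁1 (le_max_left _ _), ?_⟩
  intro k hk hh hcan q hq hkq N hN P x hP hx hhq hdep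
  by_contra hcon
  have hcon : ∀ i, max K₁ (max K₂ (K₃ * K₂ ^ 3)) * q ^ (6 * (s + 1)) * |(k : ℝ)| <
      (x i : ℝ) ^ 3 := fun i => by
    by_contra h
    exact hcon ⟨i, not_lt.1 h⟩
  have hle1 : K₁ ≤ max K₁ (max K₂ (K₃ * K₂ ^ 3)) := le_max_left _ _
  have hle2 : K₂ ≤ max K₁ (max K₂ (K₃ * K₂ ^ 3)) := le_trans (le_max_left _ _) (le_max_right _ _)
  have hle3 : K₃ * K₂ ^ 3 ≤ max K₁ (max K₂ (K₃ * K₂ ^ 3)) :=
    le_trans (le_max_right _ _) (le_max_right _ _)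
  generalize max K₁ (max K₂ (K₃ * K₂ ^ 3)) = K at hcon hle1 hle2 hle3
  have hK23 : (1 : ℝ) ≤ K₂ ^ 3 := one_le_pow₀ hK₂1
  have hle3' : K₃ ≤ K := by
    refine le_trans ?_ hle3
    exact le_mul_of_one_le_right (by linarith) hK23
  have hK1 : 1 ≤ K := hK₁1.trans hle1
  have hk0 : 0 ≤ |(k : ℝ)| := abs_nonneg _
  have hq0 : 0 ≤ q := by linarith
  have hQ0 : 0 ≤ q ^ (6 * (s + 1)) := by positivity
  have hmono : ∀ {a b : ℝ}, a ≤ b → a * q ^ (6 * (s + 1)) * |(k : ℝ)| ≤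
      b * q ^ (6 * (s + 1)) * |(k : ℝ)| := fun {a b} h =>
    mul_le_mul_of_nonneg_right (mul_le_mul_of_nonneg_right h hQ0) hk0
  have hKn : 0 ≤ K * q ^ (6 * (s + 1)) * |(k : ℝ)| := by positivity
  have hpw := MM2_pow s
  have hpp : 2 ^ (s + 1 + 1) = 2 * 2 ^ (s + 1) := by rw [pow_succ (2 : ℕ) (s + 1)]; ring
  rw [hpp] at hN
  have hNge : 2 ^ (s + 1) ≤ N := by omega
  have hpos : 0 < N := by omega
  set Z : Fin N := ⟨0, hpos⟩ with hZ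
  have hZle : ∀ i : Fin N, (x Z : ℝ) ≤ (x i : ℝ) := by
    intro i
    have : Z ≤ i := by
      rw [Fin.le_def, hZ]
      exact Nat.zero_le _
    exact_mod_cast hx.monotone this
  have hcZ := hcon Z
  have hxZ := MM2_pos hKn hcZ
  -- the number of elements of the top family
  obtain ⟨M, hM⟩ : ∃ M, N + 1 = 2 ^ (s + 1) + M := ⟨N + 1 - 2 ^ (s + 1), by omega⟩
  have hM1 : 2 ^ (s + 1) ≤ M + s + 1 := by omega
  let emb : Fin M → Fin N := fun j => ⟨2 ^ (s + 1) - 1 + j.1, by have := j.2; omega⟩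
  have hembv : ∀ j : Fin M, (emb j).1 = 2 ^ (s + 1) - 1 + j.1 := fun j => rfl
  have hembm : StrictMono emb := by
    intro a b hab
    rw [Fin.lt_def] at hab ⊢
    rw [hembv, hembv]
    omega
  obtain ⟨f, hf⟩ : ∃ f : Fin (s + 1) → Fin M, LinearIndependent ℤ ((P ∘ emb) ∘ f) := by
    by_contra hno
    push Not at hno
    obtain ⟨i, hi⟩ := hK₁ k hk hh hcan q hq hkq M hM1 (P ∘ emb) (x ∘ emb) (fun i => hP (emb i))
      (hx.comp hembm) (fun i => hhq (emb i)) hno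
    have h1 := hcon (emb i)
    have h3 : ((x ∘ emb) i : ℝ) = (x (emb i) : ℝ) := rfl
    rw [h3] at hi
    have h4 : q ^ (6 * s) ≤ q ^ (6 * (s + 1)) := pow_le_pow_right₀ hq (by omega)
    have h5 : K₁ * q ^ (6 * s) * |(k : ℝ)| ≤ K * q ^ (6 * (s + 1)) * |(k : ℝ)| :=
      mul_le_mul_of_nonneg_right (mul_le_mul hle1 h4 (by positivity) (by linarith)) hk0
    linarith
  set T : Fin N := ⟨2 ^ (s + 1) - 1, by omega⟩ with hT
  have hcmp : (x T : ℝ) ≤ K₂ * q ^ (2 * (s + 1)) * (x Z : ℝ) := by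
    refine hK₂ k hk hh hcan q (x Z : ℝ) hq hxZ ((hmono hle2).trans hcZ.le) (P Z) (x Z)
      (P ∘ (emb ∘ f)) (x ∘ (emb ∘ f)) (hP Z) (fun j => hP _) (hhq Z) (fun j => hhq _) le_rfl
      (fun j => hZle _) hf ?_ (x T : ℝ) ?_
    · rw [MM2_cons P Z (emb ∘ f)]
      exact hdep _
    · intro j
      have : T ≤ emb (f j) := by
        rw [Fin.le_def, hembv, hT]
        simp
      exact_mod_cast hx.monotone this
  let io : Fin (2 ^ (s + 1)) → Fin N := fun j => ⟨j.1, lt_of_lt_of_le j.2 hNge⟩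
  have hio : StrictMono io := by
    intro a b hab
    rw [Fin.lt_def] at hab ⊢
    exact hab
  have hq2 : (1 : ℝ) ≤ q ^ (2 * (s + 1)) := one_le_pow₀ hq
  have hW1 : 1 ≤ K₂ * q ^ (2 * (s + 1)) := by
    calc (1 : ℝ) = 1 * 1 := by ring
      _ ≤ K₂ * q ^ (2 * (s + 1)) := mul_le_mul hK₂1 hq2 zero_le_one (by linarith)
  rcases hK₃ k hk hh hcan q (x Z : ℝ) (K₂ * q ^ (2 * (s + 1))) hq hxZ hW1 (P ∘ io) (x ∘ io)
    (fun i => hP _) (hx.comp hio).injective (fun i => hhq _) (fun g => hdep (io ∘ g))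
    (fun i => hZle _)
    (by
      intro i
      have h1 : io i ≤ T := by
        rw [Fin.le_def, hT]
        have := i.2
        change i.1 ≤ 2 ^ (s + 1) - 1
        omega
      have h2 : (x (io i) : ℝ) ≤ (x T : ℝ) := by exact_mod_cast hx.monotone h1
      exact h2.trans hcmp) with h | h
  · have := hmono hle3'
    linarith
  · have hk2 : |(k : ℝ)| ^ 2 ≤ q ^ (6 * (s + 1)) := by
      calc |(k : ℝ)| ^ 2 ≤ (q ^ 4) ^ 2 := pow_le_pow_left₀ hk0 hkq 2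
        _ = q ^ 8 := by ring
        _ ≤ q ^ (6 * (s + 1)) := pow_le_pow_right₀ hq (by omega)
    have h1 : K₃ * (K₂ * q ^ (2 * (s + 1))) ^ 3 * |(k : ℝ)| ^ 4 ≤
        (K * q ^ (6 * (s + 1)) * |(k : ℝ)|) ^ 2 := by
      have e1 : K₃ * (K₂ * q ^ (2 * (s + 1))) ^ 3 * |(k : ℝ)| ^ 4 =
          (K₃ * K₂ ^ 3) * (q ^ (6 * (s + 1)) * |(k : ℝ)| ^ 2 * |(k : ℝ)| ^ 2) := by
        have : (q ^ (2 * (s + 1))) ^ 3 = q ^ (6 * (s + 1)) := by
          rw [← pow_mul]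
          congr 1
          ring
        rw [mul_pow, this]
        ring
      have e2 : (K * q ^ (6 * (s + 1)) * |(k : ℝ)|) ^ 2 =
          K ^ 2 * (q ^ (6 * (s + 1)) * |(k : ℝ)| ^ 2 * q ^ (6 * (s + 1))) := by ring
      rw [e1, e2]
      have hKK : K₃ * K₂ ^ 3 ≤ K ^ 2 := by
        calc K₃ * K₂ ^ 3 ≤ K := hle3
          _ = K * 1 := by ring
          _ ≤ K * K := mul_le_mul_of_nonneg_left hK1 (by linarith)
          _ = K ^ 2 := by ring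
      have h2 : q ^ (6 * (s + 1)) * |(k : ℝ)| ^ 2 * |(k : ℝ)| ^ 2 ≤
          q ^ (6 * (s + 1)) * |(k : ℝ)| ^ 2 * q ^ (6 * (s + 1)) :=
        mul_le_mul_of_nonneg_left hk2 (by positivity)
      exact mul_le_mul hKK h2 (by positivity) (by positivity)
    have h3 : ((x Z : ℝ) ^ 3) ^ 2 ≤ (K * q ^ (6 * (s + 1)) * |(k : ℝ)|) ^ 2 := by
      calc ((x Z : ℝ) ^ 3) ^ 2 = (x Z : ℝ) ^ 6 := by ring
        _ ≤ _ := h
        _ ≤ _ := h1
    have h4 := (abs_le_of_sq_le_sq' h3 hKn).2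
    linarith

private theorem MM2_all (C₀ : ℝ) (hC₀ : 0 ≤ C₀) (s : ℕ) : MM2_Cl C₀ s := by
  rcases Nat.eq_zero_or_pos s with rfl | hs
  · exact MM2_zero C₀ hC₀
  · induction s, hs using Nat.le_induction with
    | base => exact MM2_one C₀ hC₀
    | succ n hn ih => exact MM2_step C₀ hC₀ n hn ih

theorem count_largeM2 (C₀ : ℝ) (hC₀ : 0 ≤ C₀) (s : ℕ) : ∃ C : ℝ, 1 ≤ C ∧
    ∀ k : ℤ, k ≠ 0 → ∀ hh : Pt 0 k → ℝ, IsCanM C₀ hh → ∀ q : ℝ, 1 ≤ q → |(k : ℝ)| ≤ q ^ 4 →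
    ∀ (N : ℕ), 2 ^ (s + 1) ≤ N + s + 1 → ∀ (P : Fin N → Pt 0 k) (x : Fin N → ℤ),
      (∀ i, IsInt (P i) (x i)) → Function.Injective x → (∀ i, hh (P i) ≤ q ^ 2) →
      (∀ f : Fin (s + 1) → Fin N, ¬ LinearIndependent ℤ (P ∘ f)) →
      ∃ i, (x i : ℝ) ^ 3 ≤ C * q ^ (6 * s) * |(k : ℝ)| := by
  obtain ⟨K, hK1, hK⟩ := MM2_all C₀ hC₀ s
  refine ⟨K, hK1, ?_⟩
  intro k hk hh hcan q hq hkq N hN P x hP hx hhq hdep
  have hs : StrictMono (x ∘ Tuple.sort x) :=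
    (Tuple.monotone_sort x).strictMono_of_injective (hx.comp (Tuple.sort x).injective)
  obtain ⟨i, hi⟩ := hK k hk hh hcan q hq hkq N hN (P ∘ Tuple.sort x) (x ∘ Tuple.sort x)
    (fun i => hP _) hs (fun i => hhq _) (fun f => hdep ((Tuple.sort x) ∘ f))
  exact ⟨Tuple.sort x i, hi⟩

end Pool.Agent.LibDM24
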