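import Pool.Agent.LibDM24.MC
import Pool.Agent.LibDM24.MM2

/-!
ROW MN2 (MEDIUM). The theorem, sharp form (cites MC, MD `canM_le`, MH `x_geM`, MM2 as stated; compare row MN by helper54 and DP24_G6.lean by helper29).

PLAN. As MN with `e = r/2 + 1/3`: `κ = |k| ≥ 1`, `δ = ε/(r+1)`, `q² = (C₂ + C₀) κ^(1/2+δ)` (so `q ≥ 1`, `κ ≤ q⁴`, `C₂, C₀ ≥ 1`). `count_largeM2`: some
`x_i³ ≤ C₃ q^(6r) κ = C₄ κ^(1 + 3r/2 + 3rδ)`, so `x_i ≤ C₅ κ^(1/3 + r/2 + rδ) ≤ C₅ κ^(e+ε)`.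
-/

set_option autoImplicit false

open WeierstrassCurve Pool.Agent.LibDP24

namespace Pool.Agent.LibDM24

private theorem MN2_indep {k : ℤ} {r : ℕ} (Γ : AddSubgroup (Pt 0 k)) (hr : Module.rank ℤ Γ ≤ r)
    {N : ℕ} (P : Fin N → Pt 0 k) (hP : ∀ i, P i ∈ Γ) (f : Fin (r + 1) → Fin N) :
    ¬ LinearIndependent ℤ (P ∘ f) := by
  intro hli
  have h1 : LinearIndependent ℤ (fun i : Fin (r + 1) => (⟨P (f i), hP (f i)⟩ : Γ)) := by
    apply LinearIndependent.of_comp (Γ.subtype.toIntLinearMap)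
    exact hli
  have h2 := h1.cardinal_le_rank
  have h3 : ((r + 1 : ℕ) : Cardinal) ≤ ((r : ℕ) : Cardinal) := by
    refine le_trans ?_ (h2.trans hr)
    simp
  have h4 : r + 1 ≤ r := by exact_mod_cast h3
  omega

private theorem MN2_eqn {k x y : ℤ} (h : (E 0 k).toAffine.Nonsingular (x : ℚ) (y : ℚ)) :
    y ^ 2 = x ^ 3 + k := by
  have h1 := (Affine.equation_iff _ _).1 h.1
  simp at h1
  exact_mod_cast h1

/-- a large `x` is positive and `κ ≤ x³` -/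
private theorem MN2_big {k x : ℤ} {R : Pt 0 k} (hk : k ≠ 0) (hR : IsInt R x) {C e : ℝ} (hC : 1 ≤ C)
    (he : 1 / 3 ≤ e) (hx : C * |(k : ℝ)| ^ e < |(x : ℝ)|) :
    0 < x ∧ |(k : ℝ)| ≤ (x : ℝ) ^ 3 := by
  have hk1 : (1 : ℝ) ≤ |(k : ℝ)| := by
    have h1 : (1 : ℤ) ≤ |k| := Int.one_le_abs hk
    exact_mod_cast h1
  have hk0 : (0 : ℝ) < |(k : ℝ)| := by linarith
  have hp : (0 : ℝ) < |(k : ℝ)| ^ e := Real.rpow_pos_of_pos hk0 _
  have h1 : |(k : ℝ)| ≤ (|(k : ℝ)| ^ e) ^ 3 := by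
    rw [← Real.rpow_natCast, ← Real.rpow_mul hk0.le]
    calc |(k : ℝ)| = |(k : ℝ)| ^ (1 : ℝ) := (Real.rpow_one _).symm
      _ ≤ |(k : ℝ)| ^ (e * ((3 : ℕ) : ℝ)) := by
          apply Real.rpow_le_rpow_of_exponent_le hk1
          push_cast
          linarith
  have h2 : |(k : ℝ)| ^ e < |(x : ℝ)| := by
    refine lt_of_le_of_lt ?_ hx
    nlinarith
  have h3 : |(k : ℝ)| < |(x : ℝ)| ^ 3 :=
    lt_of_le_of_lt h1 (pow_lt_pow_left₀ h2 hp.le (by norm_num))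
  have h4 := x_geM hR
  have h5 : (0 : ℝ) < x := by
    by_contra hcon
    have hcon' : (x : ℝ) ≤ 0 := not_lt.1 hcon
    rw [abs_of_nonpos hcon'] at h3
    have h6 : (-(x : ℝ)) ^ 3 = -(x : ℝ) ^ 3 := by ring
    rw [h6] at h3
    linarith
  rw [abs_of_pos h5] at h3
  exact ⟨by exact_mod_cast h5, h3.le⟩

private theorem MN2_small (hCB : CB) (r : ℕ) (ε : ℝ) (hε : 0 < ε) : ∃ C : ℝ, 1 ≤ C ∧ ∀ k : ℤ, k ≠ 0 →
    ∀ Γ : AddSubgroup (Pt 0 k), Module.rank ℤ Γ ≤ r →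
      ∀ W : Finset ℤ, 2 ^ (r + 1) ≤ W.card + r + 1 →
      (∀ x ∈ W, ∃ (y : ℤ) (h : (E 0 k).toAffine.Nonsingular (x : ℚ) (y : ℚ)),
        (Affine.Point.some (x : ℚ) (y : ℚ) h : Pt 0 k) ∈ Γ) →
      (∀ x ∈ W, 0 < x ∧ |(k : ℝ)| ≤ (x : ℝ) ^ 3) →
      ∃ x ∈ W, (x : ℝ) ≤ C * |(k : ℝ)| ^ ((r : ℝ) / 2 + 1 / 3 + ε) := by
  obtain ⟨C₀, hC₀, hcan⟩ := exists_canM
  set δ : ℝ := ε / (r + 1) with hδ
  have hr0 : (0 : ℝ) ≤ r := Nat.cast_nonneg r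
  have hδ0 : 0 < δ := by positivity
  obtain ⟨C₂, hC₂, hcb⟩ := hCB δ hδ0
  obtain ⟨C₃, hC₃, hcount⟩ := count_largeM2 C₀ (by linarith) r
  set S : ℝ := C₂ + C₀ with hS
  have hS1 : 1 ≤ S := by linarith
  have hS0 : 0 < S := by linarith
  refine ⟨C₃ * S ^ (3 * r), ?_, ?_⟩
  · have := one_le_pow₀ (n := 3 * r) hS1
    nlinarith
  intro k hk Γ hr W hW hΓ hbig
  obtain ⟨hh, hcc⟩ := hcan k hk
  have hk1 : (1 : ℝ) ≤ |(k : ℝ)| := by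
    have h1 : (1 : ℤ) ≤ |k| := Int.one_le_abs hk
    exact_mod_cast h1
  set κ : ℝ := |(k : ℝ)| with hκ
  have hk0 : (0 : ℝ) < κ := by linarith
  set T : ℝ := κ ^ (1 / 2 + δ) with hT
  have hT1 : 1 ≤ T := Real.one_le_rpow hk1 (by linarith)
  have hT0 : 0 < T := by linarith
  have hST : 1 ≤ S * T := by nlinarith
  set q : ℝ := Real.sqrt (S * T) with hq
  have hq2 : q ^ 2 = S * T := Real.sq_sqrt (by linarith)
  have hq1 : 1 ≤ q := by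
    rw [hq]
    exact Real.one_le_sqrt.2 hST
  have hq4 : κ ≤ q ^ 4 := by
    have h1 : q ^ 4 = S ^ 2 * T ^ 2 := by
      calc q ^ 4 = (q ^ 2) ^ 2 := by ring
        _ = S ^ 2 * T ^ 2 := by rw [hq2]; ring
    have h2 : κ ≤ T ^ 2 := by
      rw [hT, ← Real.rpow_natCast, ← Real.rpow_mul hk0.le]
      calc κ = κ ^ (1 : ℝ) := (Real.rpow_one _).symm
        _ ≤ κ ^ ((1 / 2 + δ) * ((2 : ℕ) : ℝ)) := by
            apply Real.rpow_le_rpow_of_exponent_le hk1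
            push_cast
            linarith
    have h3 : 1 ≤ S ^ 2 := one_le_pow₀ hS1
    rw [h1]
    nlinarith [sq_nonneg T]
  choose! y h hyh using hΓ
  let e : Fin W.card ≃ W := W.equivFin.symm
  let P : Fin W.card → Pt 0 k := fun i =>
    Affine.Point.some ((e i : ℤ) : ℚ) ((y (e i) : ℤ) : ℚ) (h (e i) (e i).2)
  have hint : ∀ i, IsInt (P i) (e i : ℤ) := fun i => ⟨y (e i), h (e i) (e i).2, rfl⟩
  have hhb : ∀ i, hh (P i) ≤ q ^ 2 := by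
    intro i
    obtain ⟨hx0, hx3⟩ := hbig (e i) (e i).2
    have h1 := canM_le hk hcc (hint i) hx0 hx3
    have h2 : (y (e i)) ^ 2 - (e i : ℤ) ^ 3 = k := by
      have := MN2_eqn (h (e i) (e i).2)
      linarith
    have h3 := hcb (e i : ℤ) (y (e i)) (by rw [h2]; exact hk)
    rw [h2] at h3
    have hx0' : (0 : ℝ) < ((e i : ℤ) : ℝ) := by exact_mod_cast hx0
    have h4 : Real.log ((e i : ℤ) : ℝ) ≤ Real.log (max |((e i : ℤ) : ℝ)| |((y (e i) : ℤ) : ℝ)|) :=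
      Real.log_le_log hx0' ((le_abs_self _).trans (le_max_left _ _))
    rw [hq2]
    have h5 : C₀ ≤ C₀ * T := by nlinarith
    have h6 : S * T = C₂ * T + C₀ * T := by rw [hS]; ring
    have h7 : Real.log (max |((e i : ℤ) : ℝ)| |((y (e i) : ℤ) : ℝ)|) ≤ C₂ * T := h3
    linarith
  obtain ⟨i, hi⟩ := hcount k hk hh hcc q hq1 hq4 W.card hW P (fun i => (e i : ℤ)) hint
    (fun i j hij => e.injective (Subtype.ext hij)) hhb
    (MN2_indep Γ hr P (fun i => hyh (e i) (e i).2))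
  refine ⟨(e i : ℤ), (e i).2, ?_⟩
  set x : ℝ := ((e i : ℤ) : ℝ) with hx
  set E' : ℝ := (r : ℝ) / 2 + 1 / 3 + r * δ with hE'
  have hqr : q ^ (6 * r) = S ^ (3 * r) * T ^ (3 * r) := by
    calc q ^ (6 * r) = (q ^ 2) ^ (3 * r) := by rw [← pow_mul]; congr 1; ring
      _ = S ^ (3 * r) * T ^ (3 * r) := by rw [hq2, mul_pow]
  have hTr : T ^ (3 * r) * κ = (κ ^ E') ^ 3 := by
    rw [hT, ← Real.rpow_natCast, ← Real.rpow_mul hk0.le, ← Real.rpow_natCast (κ ^ E') 3,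
      ← Real.rpow_mul hk0.le]
    nth_rewrite 2 [← Real.rpow_one κ]
    rw [← Real.rpow_add hk0]
    congr 1
    rw [hE']
    push_cast
    ring
  set D : ℝ := C₃ * S ^ (3 * r) with hD
  have hD1 : 1 ≤ D := by
    have := one_le_pow₀ (n := 3 * r) hS1
    nlinarith
  have hD3 : D ≤ D ^ 3 := by
    calc D = D ^ 1 := (pow_one D).symm
      _ ≤ D ^ 3 := pow_le_pow_right₀ hD1 (by norm_num)
  have hx3 : x ^ 3 ≤ (D * κ ^ E') ^ 3 := by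
    calc x ^ 3 ≤ C₃ * q ^ (6 * r) * κ := hi
      _ = D * (T ^ (3 * r) * κ) := by rw [hqr, hD]; ring
      _ = D * (κ ^ E') ^ 3 := by rw [hTr]
      _ ≤ D ^ 3 * (κ ^ E') ^ 3 := by gcongr
      _ = (D * κ ^ E') ^ 3 := by ring
  have hx1 : x ≤ D * κ ^ E' :=
    le_of_pow_le_pow_left₀ (n := 3) (by norm_num) (by positivity) hx3
  refine hx1.trans ?_
  apply mul_le_mul_of_nonneg_left _ (by linarith)
  apply Real.rpow_le_rpow_of_exponent_le hk1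
  have h1 : (r : ℝ) * δ ≤ ε := by
    rw [hδ, mul_div_assoc', div_le_iff₀ (by positivity)]
    nlinarith
  rw [hE']
  linarith

theorem finalM2 (hCB : CB) (r : ℕ) (ε : ℝ) (hε : 0 < ε) : ∃ C : ℝ, 0 < C ∧ ∀ k : ℤ, k ≠ 0 →
    ∀ Γ : AddSubgroup (Pt 0 k), Module.rank ℤ Γ ≤ r →
      {x : ℤ | ∃ (y : ℤ) (h : (E 0 k).toAffine.Nonsingular (x : ℚ) (y : ℚ)),
        (Affine.Point.some (x : ℚ) (y : ℚ) h : Pt 0 k) ∈ Γ ∧
        C * |(k : ℝ)| ^ ((r : ℝ) / 2 + 1 / 3 + ε) < |(x : ℝ)|}.Finite ∧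
      {x : ℤ | ∃ (y : ℤ) (h : (E 0 k).toAffine.Nonsingular (x : ℚ) (y : ℚ)),
        (Affine.Point.some (x : ℚ) (y : ℚ) h : Pt 0 k) ∈ Γ ∧
        C * |(k : ℝ)| ^ ((r : ℝ) / 2 + 1 / 3 + ε) < |(x : ℝ)|}.ncard + r + 2 ≤ 2 ^ (r + 1) := by
  obtain ⟨C, hC, hsmall⟩ := MN2_small hCB r ε hε
  refine ⟨C, by linarith, ?_⟩
  intro k hk Γ hr
  set V : Set ℤ := {x : ℤ | ∃ (y : ℤ) (h : (E 0 k).toAffine.Nonsingular (x : ℚ) (y : ℚ)),
        (Affine.Point.some (x : ℚ) (y : ℚ) h : Pt 0 k) ∈ Γ ∧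
        C * |(k : ℝ)| ^ ((r : ℝ) / 2 + 1 / 3 + ε) < |(x : ℝ)|} with hV
  have hr0 : (0 : ℝ) ≤ r := Nat.cast_nonneg r
  have key : ∀ W : Finset ℤ, (W : Set ℤ) ⊆ V → ¬ (2 ^ (r + 1) ≤ W.card + r + 1) := by
    intro W hWV hcard
    have hbig : ∀ x ∈ W, 0 < x ∧ |(k : ℝ)| ≤ (x : ℝ) ^ 3 := by
      intro x hx
      obtain ⟨y, h, hy, hlt⟩ := hWV hx
      exact MN2_big hk ⟨y, h, rfl⟩ hC (by linarith) hlt
    obtain ⟨x, hxW, hx⟩ := hsmall k hk Γ hr W hcard (fun x hx => by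
      obtain ⟨y, h, hy, -⟩ := hWV hx
      exact ⟨y, h, hy⟩) hbig
    obtain ⟨y, h, -, hlt⟩ := hWV hxW
    have hx0 : (0 : ℝ) < x := by exact_mod_cast (hbig x hxW).1
    rw [abs_of_pos hx0] at hlt
    exact absurd hx (not_le.2 hlt)
  have hfin : V.Finite := by
    by_contra hinf
    obtain ⟨W, hWV, hWc⟩ := Set.Infinite.exists_subset_card_eq hinf (2 ^ (r + 1))
    apply key W hWV
    omega
  refine ⟨hfin, ?_⟩
  by_contra hcon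
  apply key hfin.toFinset (by simp)
  rw [← Set.ncard_eq_toFinset_card V hfin]
  omega

end Pool.Agent.LibDM24
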