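import Pool.Agent.LibDM24.Defs
import Pool.Agent.LibRC21.R6

/-!
ROW MO (SHORT, heavy imports: a seat which has the library of MP_e734ed_nt.ConductorBound built, e.g. helper91, helper43, helper16).
Add the imports of Pool/Agent/Results/MP_e734ed_nt/ConductorBound.lean and copy its proof term; then
`log max(|x|,|y|) ≤ C |k|^(1/2) (log(|k|+2))^m` and `(log(|k|+2))^m ≤ C_ε |k|^ε` for `|k| ≥ 1`
(`Real.log_le_rpow_div` or `isLittleO_log_rpow_atTop`). Constant `≥ 1`.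
-/

set_option autoImplicit false

namespace Pool.Agent.LibDM24

/-- `C √t (log (t + 2)) ^ κ ≤ C' t ^ (1 / 2 + ε)` for `t ≥ 1`. -/
private theorem MO_aux (C ε : ℝ) (hC : 0 < C) (hε : 0 < ε) (κ : ℕ) :
    ∃ C' : ℝ, 1 ≤ C' ∧ ∀ t : ℝ, 1 ≤ t →
      C * √t * Real.log (t + 2) ^ κ ≤ C' * t ^ (1 / 2 + ε) := by
  set δ : ℝ := ε / (κ + 1) with hδdef
  have hκ : (0 : ℝ) < (κ : ℝ) + 1 := by positivity
  have hδ : 0 < δ := by positivity
  have hδκ : δ * κ ≤ ε := by
    have h1 : δ * (κ + 1) = ε := by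
      rw [hδdef]
      field_simp
    nlinarith
  refine ⟨max 1 (C * ((3 : ℝ) ^ ε / δ ^ κ)), le_max_left _ _, ?_⟩
  intro t ht
  have ht0 : (0 : ℝ) < t := by linarith
  have h3t : (1 : ℝ) ≤ 3 * t := by linarith
  have hlog0 : 0 ≤ Real.log (t + 2) := Real.log_nonneg (by linarith)
  have hlog : Real.log (t + 2) ≤ (3 * t) ^ δ / δ := by
    calc Real.log (t + 2) ≤ Real.log (3 * t) := Real.log_le_log (by linarith) (by linarith)
      _ ≤ (3 * t) ^ δ / δ := Real.log_le_rpow_div (by linarith) hδ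
  have hpow : Real.log (t + 2) ^ κ ≤ (3 : ℝ) ^ ε / δ ^ κ * t ^ ε := by
    calc Real.log (t + 2) ^ κ ≤ ((3 * t) ^ δ / δ) ^ κ := pow_le_pow_left₀ hlog0 hlog κ
      _ = (3 * t) ^ (δ * κ) / δ ^ κ := by
          rw [div_pow, Real.rpow_mul (by linarith), Real.rpow_natCast]
      _ ≤ (3 * t) ^ ε / δ ^ κ := by
          apply div_le_div_of_nonneg_right _ (by positivity)
          exact Real.rpow_le_rpow_of_exponent_le h3t hδκ
      _ = (3 : ℝ) ^ ε / δ ^ κ * t ^ ε := by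
          rw [Real.mul_rpow (by norm_num) ht0.le]
          ring
  have hsq : √t = t ^ (1 / 2 : ℝ) := Real.sqrt_eq_rpow t
  calc C * √t * Real.log (t + 2) ^ κ
      ≤ C * √t * ((3 : ℝ) ^ ε / δ ^ κ * t ^ ε) := by
        apply mul_le_mul_of_nonneg_left hpow
        positivity
    _ = C * ((3 : ℝ) ^ ε / δ ^ κ) * t ^ (1 / 2 + ε) := by
        rw [Real.rpow_add ht0, hsq]
        ring
    _ ≤ max 1 (C * ((3 : ℝ) ^ ε / δ ^ κ)) * t ^ (1 / 2 + ε) := by
        apply mul_le_mul_of_nonneg_right (le_max_right _ _)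
        positivity

theorem cb : CB := by
  obtain ⟨C, hC, κ, h⟩ := Pool.Agent.LibRC21.final2
  intro ε hε
  obtain ⟨C', hC', hb⟩ := MO_aux C ε hC hε κ
  refine ⟨C', hC', ?_⟩
  intro x y hk
  have h1 := (h x y (y ^ 2 - x ^ 3) (by ring) hk).1
  have h2 : (1 : ℝ) ≤ |((y ^ 2 - x ^ 3 : ℤ) : ℝ)| := by
    have := Int.one_le_abs hk
    exact_mod_cast this
  exact h1.trans (hb _ h2)

end Pool.Agent.LibDM24
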